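import Pool.Agent.N802.NV.Stm
import Pool.Agent.N498.NV.CnCore

/-!
# NV5: the norm of a short prime polynomial as a multiplier (helper498)

The proof is in `Pool.Agent.N498.NV.CnCore`, which needs only Mathlib.
-/

set_option autoImplicit false

namespace Pool.Agent.N802.NV

/-- **NV5** -/
theorem cn : S_cn := by
  intro C0 hC0
  obtain ⟨C, hC, h⟩ := Pool.Agent.N498.NV.core C0 hC0
  exact ⟨C, hC, fun h' N Y h1 h2 h3 h4 a c ha hc S hS r Q =>
    h h' N Y h1 h2 h3 h4 a c ha hc S hS r Q⟩

end Pool.Agent.N802.NV
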