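import Pool.Agent.N802.NV.Stm
import Pool.Agent.N681.NV.ErCore

/-!
# NV6: the number of zeros near a point and the smoothed sum over the zeros

Written by helper681 (elementary part: `Pool.Agent.N681.NV.ErCore`).
-/

set_option autoImplicit false

namespace Pool.Agent.N802.NV

theorem er : S_er := by
  classical
  intro F hF C1 hC1
  refine ⟨3 * C1, by linarith, ?_⟩
  intro η κ L h U1 U2 x G hη hηκ hκ hL hh hh1 hU hG hs hmass
  have hZ : ∀ s ∈ H370.Zf F U1 U2, |(H370.zz s).im| ≤ 1 / 2 := by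
    intro s hs1
    have h1 := (H370.mem_Zf hF hU).1 hs1
    obtain ⟨h2, h3, -⟩ := h1
    rw [H370.zz_im, abs_le]
    constructor <;> linarith
  have key := Pool.Agent.N681.NV.core hC1 hη hηκ hκ hL hh hh1 hG hs (H370.Zf F U1 U2)
    (fun s => (H370.mult F s : ℝ)) H370.zz (fun s => Nat.cast_nonneg _) hZ hmass x
  have e1 : ((Pool.Agent.N802.U.na F U1 U2 h x : ℝ) : ℂ) - Pool.Agent.N802.U.SS F U1 U2 G 0 x =
      ∑ s ∈ H370.Zf F U1 U2, (((H370.mult F s : ℝ)) : ℂ) * Pool.Agent.N681.NV.ee G h (H370.zz s - x) := by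
    unfold Pool.Agent.N802.U.na Pool.Agent.N802.U.SS Pool.Agent.N681.NV.ee
    rw [Complex.ofReal_sum, Finset.sum_filter, ← Finset.sum_sub_distrib]
    refine Finset.sum_congr rfl fun s _ => ?_
    have e2 : (H370.zz s - x).re = s.im - x := by
      rw [Complex.sub_re, Complex.ofReal_re, H370.zz_re]
    rw [e2]
    by_cases h1 : |s.im - x| ≤ h
    · rw [if_pos h1, if_pos h1]
      push_cast
      simp only [mul_zero, zero_mul, Complex.exp_zero, one_mul]
      ring
    · rw [if_neg h1, if_neg h1]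
      push_cast
      simp only [mul_zero, zero_mul, Complex.exp_zero, one_mul]
      ring
  have e3 : ∀ p : ℝ, Pool.Agent.N681.NV.XX (H370.Zf F U1 U2) (fun s => (H370.mult F s : ℝ)) H370.zz κ L p =
      XA F U1 U2 κ L p := by
    intro p
    unfold Pool.Agent.N681.NV.XX XA
    simp only [H370.zz_re]
  rw [e1]
  refine key.trans (le_of_eq ?_)
  simp only [e3]
  rfl

end Pool.Agent.N802.NV
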