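import Pool.Agent.N802.NV.Stm
import Pool.Agent.N802.U.Alg

/-!
# NV2: the Gaussian smoothing of a window
-/

open Complex Filter Topology Set MeasureTheory
open scoped BigOperators ComplexConjugate

set_option autoImplicit false

namespace Pool.Agent.N802.NV

open Pool.Agent.N802.U

namespace Gsx

lemma lor {b : ℝ} (hb : 0 < b) (h : ℝ) : Integrable (fun y : ℝ => (1 + (b * (y - h)) ^ 2)⁻¹) ∧
    ∫ y : ℝ, (1 + (b * (y - h)) ^ 2)⁻¹ = Real.pi / b := by
  constructor
  · exact (integrable_inv_one_add_sq.comp_mul_left' hb.ne').comp_sub_right h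
  · rw [integral_sub_right_eq_self (fun y : ℝ => (1 + (b * y) ^ 2)⁻¹) h,
      Measure.integral_comp_mul_left (fun y : ℝ => (1 + y ^ 2)⁻¹) b,
      integral_univ_inv_one_add_sq, abs_of_pos (by positivity), smul_eq_mul]
    ring

lemma gau {c : ℝ} (hc : 0 < c) (x : ℝ) : Integrable (fun v : ℝ => Real.exp (-(x + v) ^ 2 / c)) ∧
    ∫ v : ℝ, Real.exp (-(x + v) ^ 2 / c) = Real.sqrt (Real.pi * c) := by
  have h := integrable_exp_neg_mul_sq (b := 1 / c) (by positivity)
  have e : (fun v : ℝ => Real.exp (-(x + v) ^ 2 / c)) =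
      fun v : ℝ => Real.exp (-(1 / c) * (v + x) ^ 2) := by
    funext v
    congr 1
    ring
  rw [e]
  constructor
  · exact h.comp_add_right x
  · rw [integral_add_right_eq_self (fun v : ℝ => Real.exp (-(1 / c) * v ^ 2)) x, integral_gaussian]
    congr 1
    field_simp

lemma le1 (w : ℝ → ℂ) (x : ℝ) :
    ‖gs w x‖ ≤ 1 / Real.sqrt (2 * Real.pi) * ∫ v : ℝ, ‖w v‖ * Real.exp (-(x + v) ^ 2 / 2) := by
  unfold gs
  rw [norm_mul, Complex.norm_real, Real.norm_of_nonneg (by positivity)]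
  refine mul_le_mul_of_nonneg_left ?_ (by positivity)
  refine (norm_integral_le_integral_norm _).trans (le_of_eq ?_)
  congr 1
  funext v
  rw [norm_mul, Complex.norm_real, Real.norm_of_nonneg (Real.exp_pos _).le]

lemma sp0 : 0 < Real.sqrt (2 * Real.pi) := Real.sqrt_pos.2 (by positivity)

lemma sp2 : 2 ≤ Real.sqrt (2 * Real.pi) := by
  apply Real.le_sqrt_of_sq_le
  linarith [Real.pi_gt_three]

/-- the bound `h` -/
lemma b1 {w : ℝ → ℂ} {h : ℝ} (hh : 0 < h) (hw : ∀ v, ‖w v‖ ≤ h) (x : ℝ) : ‖gs w x‖ ≤ h := by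
  refine (le1 w x).trans ?_
  obtain ⟨g1, g2⟩ := gau (c := 2) two_pos x
  have h1 : ∫ v : ℝ, ‖w v‖ * Real.exp (-(x + v) ^ 2 / 2) ≤
      ∫ v : ℝ, h * Real.exp (-(x + v) ^ 2 / 2) := by
    apply integral_mono_of_nonneg (Eventually.of_forall fun v => by positivity) (g1.const_mul h)
    exact Eventually.of_forall fun v => mul_le_mul_of_nonneg_right (hw v) (Real.exp_pos _).le
  rw [integral_const_mul, g2, mul_comm Real.pi 2] at h1
  rw [one_div, inv_mul_le_iff₀ sp0]
  linarith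

/-- the bound for large `x` -/
lemma b2 {w : ℝ → ℂ} {h : ℝ} (hh1 : h ≤ 1) (hw : ∀ v, ‖w v‖ ≤ h)
    (hw2 : ∀ v, |v| * ‖w v‖ ≤ 1) (x : ℝ) : |x| * ‖gs w x‖ ≤ 3 := by
  have h0 := mul_le_mul_of_nonneg_left (le1 w x) (abs_nonneg x)
  refine h0.trans ?_
  obtain ⟨g1, g2⟩ := gau (c := 4) (by norm_num) x
  have e : |x| * (1 / Real.sqrt (2 * Real.pi) * ∫ v : ℝ, ‖w v‖ * Real.exp (-(x + v) ^ 2 / 2)) =
      1 / Real.sqrt (2 * Real.pi) * ∫ v : ℝ, |x| * (‖w v‖ * Real.exp (-(x + v) ^ 2 / 2)) := by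
    rw [integral_const_mul]
    ring
  rw [e]
  have h1 : ∫ v : ℝ, |x| * (‖w v‖ * Real.exp (-(x + v) ^ 2 / 2)) ≤
      ∫ v : ℝ, 2 * Real.exp (-(x + v) ^ 2 / 4) := by
    apply integral_mono_of_nonneg (Eventually.of_forall fun v => by positivity) (g1.const_mul 2)
    refine Eventually.of_forall fun v => ?_
    beta_reduce
    set y := x + v with hy
    have k1 : |x| * ‖w v‖ ≤ |y| + 1 := by
      have k2 : |x| ≤ |y| + |v| := by
        have : x = y - v := by rw [hy]; ring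
        rw [this]
        exact abs_sub _ _
      have k3 : |x| * ‖w v‖ ≤ (|y| + |v|) * ‖w v‖ :=
        mul_le_mul_of_nonneg_right k2 (norm_nonneg _)
      have k4 : |y| * ‖w v‖ ≤ |y| * 1 :=
        mul_le_mul_of_nonneg_left ((hw v).trans hh1) (abs_nonneg _)
      have k5 := hw2 v
      linarith
    have k6 : |y| + 1 ≤ 2 * Real.exp (y ^ 2 / 4) := by
      have k7 := Real.add_one_le_exp (y ^ 2 / 4)
      have k8 : |y| ≤ y ^ 2 / 4 + 1 := by
        rw [← sq_abs]
        nlinarith [sq_nonneg (|y| / 2 - 1)]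
      have k9 : (1 : ℝ) ≤ Real.exp (y ^ 2 / 4) := Real.one_le_exp (by positivity)
      linarith
    calc |x| * (‖w v‖ * Real.exp (-y ^ 2 / 2)) = (|x| * ‖w v‖) * Real.exp (-y ^ 2 / 2) := by ring
      _ ≤ (2 * Real.exp (y ^ 2 / 4)) * Real.exp (-y ^ 2 / 2) :=
          mul_le_mul_of_nonneg_right (k1.trans k6) (Real.exp_pos _).le
      _ = 2 * Real.exp (-y ^ 2 / 4) := by
          rw [mul_assoc, ← Real.exp_add]
          congr 2
          ring
  have h1' : ∫ v : ℝ, 2 * Real.exp (-(x + v) ^ 2 / 4) = 2 * Real.sqrt (Real.pi * 4) := by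
    rw [integral_const_mul, g2]
  rw [h1'] at h1
  rw [one_div, inv_mul_le_iff₀ sp0]
  refine h1.trans ?_
  have h4 : Real.sqrt (Real.pi * 4) = Real.sqrt 2 * Real.sqrt (2 * Real.pi) := by
    rw [← Real.sqrt_mul (by norm_num)]
    congr 1
    ring
  rw [h4]
  have h5 : Real.sqrt 2 ≤ 3 / 2 := by
    rw [Real.sqrt_le_left (by norm_num)]
    norm_num
  nlinarith [sp0]

/-- the tail -/
lemma b3 {b : ℝ} {W : ℂ → ℂ} {w : ℝ → ℂ} {h : ℝ} (hb : 0 < b) (hh1 : h ≤ 1) (hW : BW b W w)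
    (hw : ∀ v, ‖w v‖ ≤ h) (x : ℝ) (hx : 2 * b ≤ |x|) :
    ‖gs w x‖ ≤ b * Real.exp (-x ^ 2 / 8) := by
  refine (le1 w x).trans ?_
  have hi : Integrable ((Icc (-b) b).indicator (fun _ : ℝ => Real.exp (-x ^ 2 / 8))) := by
    rw [integrable_indicator_iff measurableSet_Icc]
    exact integrableOn_const (by simp) (by simp)
  have h1 : ∫ v : ℝ, ‖w v‖ * Real.exp (-(x + v) ^ 2 / 2) ≤
      ∫ v : ℝ, (Icc (-b) b).indicator (fun _ : ℝ => Real.exp (-x ^ 2 / 8)) v := by
    apply integral_mono_of_nonneg (Eventually.of_forall fun v => by positivity) hi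
    refine Eventually.of_forall fun v => ?_
    beta_reduce
    by_cases hv : v ∈ Icc (-b) b
    · rw [indicator_of_mem hv]
      have k1 : |v| ≤ b := abs_le.2 ⟨hv.1, hv.2⟩
      have k2 : |x| / 2 ≤ |x + v| := by
        have : |x| ≤ |x + v| + |v| := by
          have e : x = (x + v) - v := by ring
          nth_rw 1 [e]
          exact abs_sub _ _
        linarith
      have k3 : (|x| / 2) ^ 2 ≤ |x + v| ^ 2 := pow_le_pow_left₀ (by positivity) k2 2
      rw [sq_abs, div_pow, sq_abs] at k3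
      have k4 : Real.exp (-(x + v) ^ 2 / 2) ≤ Real.exp (-x ^ 2 / 8) := by
        apply Real.exp_le_exp.2
        linarith
      calc ‖w v‖ * Real.exp (-(x + v) ^ 2 / 2) ≤ 1 * Real.exp (-x ^ 2 / 8) :=
            mul_le_mul ((hw v).trans hh1) k4 (Real.exp_pos _).le zero_le_one
        _ = _ := one_mul _
    · rw [indicator_of_notMem hv]
      have k1 : b < |v| := by
        by_contra hcon
        push Not at hcon
        exact hv ⟨(abs_le.1 hcon).1, (abs_le.1 hcon).2⟩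
      rw [hW.sup v k1, norm_zero, zero_mul]
  have h2 : ∫ v : ℝ, (Icc (-b) b).indicator (fun _ : ℝ => Real.exp (-x ^ 2 / 8)) v =
      2 * b * Real.exp (-x ^ 2 / 8) := by
    rw [integral_indicator measurableSet_Icc, setIntegral_const, smul_eq_mul]
    simp only [measureReal_def, Real.volume_Icc]
    rw [ENNReal.toReal_ofReal (by linarith)]
    ring
  rw [h2] at h1
  rw [one_div, inv_mul_le_iff₀ sp0]
  refine h1.trans ?_
  have := mul_le_mul_of_nonneg_right sp2 (by positivity : 0 ≤ b * Real.exp (-x ^ 2 / 8))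
  linarith

/-- the square norm -/
lemma b0 {w : ℝ → ℂ} {h : ℝ} (hh1 : h ≤ 1) (hw : ∀ v, ‖w v‖ ≤ h)
    (hw2 : ∀ v, |v| * ‖w v‖ ≤ 1) : q2 w ≤ 7 := by
  unfold q2
  have h1 : ∫ v : ℝ, ‖w v‖ ^ 2 ≤ ∫ v : ℝ, 2 * (1 + v ^ 2)⁻¹ := by
    apply integral_mono_of_nonneg (Eventually.of_forall fun v => by positivity)
      (integrable_inv_one_add_sq.const_mul 2)
    refine Eventually.of_forall fun v => ?_
    beta_reduce
    rw [← div_eq_mul_inv, le_div_iff₀ (by positivity)]
    have k1 : ‖w v‖ ^ 2 ≤ 1 := pow_le_one₀ (norm_nonneg _) ((hw v).trans hh1)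
    have k2 : (|v| * ‖w v‖) ^ 2 ≤ 1 := pow_le_one₀ (by positivity) (hw2 v)
    rw [mul_pow, sq_abs] at k2
    linarith
  rw [integral_const_mul, integral_univ_inv_one_add_sq] at h1
  linarith [Real.pi_lt_d2]

/-- the pointwise difference -/
lemma dif {b h C1 : ℝ} (hb : 0 < b) (hC1 : 1 ≤ C1) {G : ℝ → ℂ}
    (hG : ∀ x : ℝ, ‖G x - (if |x| ≤ h then 1 else 0)‖ ≤ C1 * ((1 + b * |(|x| - h)|) ^ 3)⁻¹)
    (y : ℝ) : ‖((Real.exp (-y ^ 2 / 2) : ℝ) : ℂ) * G y -
      (Icc (-h) h).indicator (fun _ => (1 : ℂ)) y‖ ≤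
      C1 * ((1 + (b * (y - h)) ^ 2)⁻¹ + (1 + (b * (y - (-h))) ^ 2)⁻¹) +
      (Icc (-h) h).indicator (fun _ => h ^ 2 / 2) y := by
  have hmem : y ∈ Icc (-h) h ↔ |y| ≤ h := by rw [abs_le, mem_Icc]
  set f : ℂ := if |y| ≤ h then 1 else 0 with hf
  have ef : (Icc (-h) h).indicator (fun _ => (1 : ℂ)) y = f := by
    rw [indicator_apply, hf]
    simp only [hmem]
  rw [ef]
  have e1 : ((Real.exp (-y ^ 2 / 2) : ℝ) : ℂ) * G y - f =
      ((Real.exp (-y ^ 2 / 2) : ℝ) : ℂ) * (G y - f) - ((1 - Real.exp (-y ^ 2 / 2) : ℝ) : ℂ) * f := by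
    push_cast
    ring
  rw [e1]
  have hE1 : Real.exp (-y ^ 2 / 2) ≤ 1 := Real.exp_le_one_iff.2 (by nlinarith [sq_nonneg y])
  have hE0 := Real.exp_pos (-y ^ 2 / 2)
  refine (norm_sub_le _ _).trans (add_le_add ?_ ?_)
  · rw [norm_mul, Complex.norm_real, Real.norm_of_nonneg hE0.le]
    have h1 : Real.exp (-y ^ 2 / 2) * ‖G y - f‖ ≤ 1 * (C1 * ((1 + b * |(|y| - h)|) ^ 3)⁻¹) :=
      mul_le_mul hE1 (hG y) (norm_nonneg _) zero_le_one
    rw [one_mul] at h1
    refine h1.trans (mul_le_mul_of_nonneg_left ?_ (by linarith))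
    set z := b * |(|y| - h)| with hz
    have hz0 : 0 ≤ z := by positivity
    have h2 : ((1 + z) ^ 3)⁻¹ ≤ (1 + z ^ 2)⁻¹ := by
      apply inv_anti₀ (by positivity)
      nlinarith [mul_nonneg hz0 (sq_nonneg z), sq_nonneg z]
    refine h2.trans ?_
    have h3 : z ^ 2 = (b * (|y| - h)) ^ 2 := by
      rw [hz, mul_pow, sq_abs, mul_pow]
    rw [h3]
    rcases abs_choice y with hy | hy
    · rw [hy]
      have : 0 ≤ (1 + (b * (y - (-h))) ^ 2)⁻¹ := by positivity
      linarith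
    · rw [hy]
      have e2 : (b * (-y - h)) ^ 2 = (b * (y - (-h))) ^ 2 := by ring
      rw [e2]
      have : 0 ≤ (1 + (b * (y - h)) ^ 2)⁻¹ := by positivity
      linarith
  · rw [norm_mul, Complex.norm_real, Real.norm_of_nonneg (by linarith)]
    rw [indicator_apply]
    simp only [hmem]
    rw [hf]
    split_ifs with hy
    · rw [norm_one, mul_one]
      have h1 := Real.add_one_le_exp (-y ^ 2 / 2)
      have h2 : y ^ 2 ≤ h ^ 2 := by
        rw [← sq_abs]
        exact pow_le_pow_left₀ (abs_nonneg _) hy 2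
      linarith
    · rw [norm_zero, mul_zero]

end Gsx

open Gsx in
/-- **NV2** -/
theorem ngs : S_ngs := by
  refine ⟨7, by norm_num, ?_⟩
  intro b h C1 G g hb hh hh1 hC1 hbw hg hG
  have hb0 : 0 < b := by linarith
  have hg1 := fun v => (hg v).1
  have hg2 := fun v => (hg v).2
  refine ⟨b0 hh1 hg1 hg2, fun x => ⟨b1 hh hg1 x, (b2 hh1 hg1 hg2 x).trans (by norm_num)⟩,
    fun x hx => ?_, ?_⟩
  · have h1 := b3 hb0 hh1 hbw hg1 x hx
    have h2 : 0 ≤ b * Real.exp (-x ^ 2 / 8) := by positivity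
    linarith
  · have hgs := gsq b G g hb0 hbw 0
    have hd := dif (b := b) (h := h) (C1 := C1) (G := fun x : ℝ => G x) hb0 hC1 hG
    obtain ⟨l1, l2⟩ := lor hb0 h
    obtain ⟨l3, l4⟩ := lor hb0 (-h)
    have hi : Integrable ((Icc (-h) h).indicator (fun _ : ℝ => h ^ 2 / 2)) := by
      rw [integrable_indicator_iff measurableSet_Icc]
      exact integrableOn_const (by simp) (by simp)
    have hi1 : Integrable ((Icc (-h) h).indicator (fun _ : ℝ => (1 : ℂ))) := by
      rw [integrable_indicator_iff measurableSet_Icc]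
      exact integrableOn_const (by simp) (by simp)
    have hB : Integrable (fun y : ℝ => C1 * ((1 + (b * (y - h)) ^ 2)⁻¹ +
        (1 + (b * (y - (-h))) ^ 2)⁻¹) + (Icc (-h) h).indicator (fun _ => h ^ 2 / 2) y) :=
      ((l1.add l3).const_mul C1).add hi
    have hGc : Continuous (fun x : ℝ => G x) := by
      exact hbw.cont
    have hm : AEStronglyMeasurable (fun y : ℝ => ((Real.exp (-y ^ 2 / 2) : ℝ) : ℂ) * G y -
        (Icc (-h) h).indicator (fun _ => (1 : ℂ)) y) := by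
      apply AEStronglyMeasurable.sub
      · apply Continuous.aestronglyMeasurable
        exact (Complex.continuous_ofReal.comp (by fun_prop)).mul hGc
      · exact hi1.aestronglyMeasurable
    have hD : Integrable (fun y : ℝ => ((Real.exp (-y ^ 2 / 2) : ℝ) : ℂ) * G y -
        (Icc (-h) h).indicator (fun _ => (1 : ℂ)) y) :=
      hB.mono' hm (Eventually.of_forall hd)
    have hA : Integrable (fun y : ℝ => ((Real.exp (-y ^ 2 / 2) : ℝ) : ℂ) * G y) := by
      have := hD.add hi1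
      refine this.congr (Eventually.of_forall fun y => ?_)
      simp
    have e1 : (∫ y : ℝ, (Real.exp (-y ^ 2 / 2) : ℝ) * (cexp (I * (0 : ℝ) * y) * G y)) =
        ∫ y : ℝ, ((Real.exp (-y ^ 2 / 2) : ℝ) : ℂ) * G y := by
      congr 1
      funext y
      simp
    rw [e1] at hgs
    have e2 : ∫ y : ℝ, (Icc (-h) h).indicator (fun _ => (1 : ℂ)) y = ((2 * h : ℝ) : ℂ) := by
      rw [integral_indicator measurableSet_Icc, setIntegral_const]
      simp only [measureReal_def, Real.volume_Icc]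
      rw [ENNReal.toReal_ofReal (by linarith)]
      simp only [real_smul, mul_one]
      congr 1
      ring
    have e3 : gs g 0 - ((h / Real.pi : ℝ) : ℂ) = ((1 / (2 * Real.pi) : ℝ) : ℂ) *
        ∫ y : ℝ, (((Real.exp (-y ^ 2 / 2) : ℝ) : ℂ) * G y -
        (Icc (-h) h).indicator (fun _ => (1 : ℂ)) y) := by
      rw [integral_sub hA hi1, e2, mul_sub, ← hgs]
      congr 1
      rw [← Complex.ofReal_mul]
      congr 1
      field_simp
    rw [e3, norm_mul, Complex.norm_real, Real.norm_of_nonneg (by positivity)]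
    have h1 := norm_integral_le_of_norm_le hB (Eventually.of_forall hd)
    have e4 : ∫ y : ℝ, (C1 * ((1 + (b * (y - h)) ^ 2)⁻¹ +
        (1 + (b * (y - (-h))) ^ 2)⁻¹) + (Icc (-h) h).indicator (fun _ => h ^ 2 / 2) y) =
        C1 * (Real.pi / b + Real.pi / b) + h ^ 3 := by
      have hs : Integrable (fun y : ℝ => (1 + (b * (y - h)) ^ 2)⁻¹ +
          (1 + (b * (y - (-h))) ^ 2)⁻¹) := l1.add l3
      have hs' : Integrable (fun y : ℝ => C1 * ((1 + (b * (y - h)) ^ 2)⁻¹ +
          (1 + (b * (y - (-h))) ^ 2)⁻¹)) := hs.const_mul C1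
      rw [integral_add hs' hi, integral_const_mul, integral_add l1 l3, l2, l4, integral_indicator measurableSet_Icc, setIntegral_const]
      congr 1
      simp only [measureReal_def, Real.volume_Icc]
      rw [ENNReal.toReal_ofReal (by linarith), smul_eq_mul]
      ring
    rw [e4] at h1
    have hpi := Real.pi_pos
    have hpi3 := Real.pi_gt_three
    have h2 := mul_le_mul_of_nonneg_left h1 (by positivity : 0 ≤ 1 / (2 * Real.pi))
    refine h2.trans ?_
    have e5 : 1 / (2 * Real.pi) * (C1 * (Real.pi / b + Real.pi / b) + h ^ 3) =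
        C1 / b + 1 / (2 * Real.pi) * h ^ 3 := by
      field_simp
      ring
    rw [e5]
    have h3 : 1 / (2 * Real.pi) ≤ 1 := by
      rw [div_le_one (by positivity)]
      linarith
    have h4 : 1 / (2 * Real.pi) * h ^ 3 ≤ 1 * h ^ 3 :=
      mul_le_mul_of_nonneg_right h3 (by positivity)
    have h5 : 0 ≤ C1 / b := by positivity
    have h6 : 0 ≤ h ^ 3 := by positivity
    linarith

end Pool.Agent.N802.NV
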