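import Pool.Agent.N802.NV.Stm
import Pool.Agent.N802.WD.Win2

/-!
# NV1: a window (helper169)

The indicator of `[-h, h]`, smoothed by a power of the cardinal sine.
-/

open Complex Filter Topology Set MeasureTheory
open scoped BigOperators ComplexConjugate

set_option autoImplicit false

namespace Pool.Agent.N802.NV

open Pool.Agent.N802.U Pool.Agent.N802.WD

namespace Winx

open Pool.Agent.N802.U.Kernaux Pool.Agent.N802.U.Winaux Pool.Agent.N802.WD.Win2aux

variable {b h : ℝ} {J : ℂ → ℂ} {j : ℝ → ℂ}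

/-! ### the kernel, with a bounded density -/

/-- the product with the base function keeps the bound of the density -/
theorem BW_mulb {a b2 M : ℝ} (ha : 0 < a) {W2 : ℂ → ℂ} {w2 : ℝ → ℂ} (h2 : BW b2 W2 w2)
    (hM : ∀ v, ‖w2 v‖ ≤ M) :
    ∃ w, BW (a + b2) (fun z => Sa a z * W2 z) w ∧ ∀ v, ‖w v‖ ≤ M := by
  have hb := BW_base ha
  set w1 : ℝ → ℂ := (Ioc (-a) a).indicator (fun _ => ((1 / (2 * a) : ℝ) : ℂ)) with hw1
  have hL : ∫ t : ℝ, ‖w1 t‖ = 1 := by
    have h1 : (fun t : ℝ => ‖w1 t‖) = (Ioc (-a) a).indicator (fun _ => (1 / (2 * a) : ℝ)) := by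
      funext t
      rw [hw1]
      by_cases ht : t ∈ Ioc (-a) a
      · rw [indicator_of_mem ht, indicator_of_mem ht, Complex.norm_real, Real.norm_eq_abs,
          abs_of_pos (by positivity)]
      · rw [indicator_of_notMem ht, indicator_of_notMem ht, norm_zero]
    rw [h1, integral_indicator measurableSet_Ioc, setIntegral_const,
      Real.volume_real_Ioc_of_le (by linarith), smul_eq_mul]
    field_simp
    ring
  refine ⟨fun v => ∫ t : ℝ, w1 t * w2 (v - t), ⟨?_, ?_, ?_, ?_⟩, ?_⟩
  · have hm : StronglyMeasurable (fun p : ℝ × ℝ => w1 p.2 * w2 (p.1 - p.2)) := by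
      apply Measurable.stronglyMeasurable
      exact (hb.meas.comp measurable_snd).mul (h2.meas.comp (measurable_fst.sub measurable_snd))
    exact (StronglyMeasurable.integral_prod_right hm).measurable
  · refine ⟨∫ t : ℝ, ‖w1 t‖ * M, fun v => ?_⟩
    refine norm_integral_le_of_norm_le ((integrable_w hb).norm.mul_const M)
      (Filter.Eventually.of_forall fun t => ?_)
    rw [norm_mul]
    exact mul_le_mul_of_nonneg_left (hM _) (norm_nonneg _)
  · intro v hv
    have : (fun t : ℝ => w1 t * w2 (v - t)) = fun _ => 0 := by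
      funext t
      by_cases ht : a < |t|
      · rw [hb.sup t ht, zero_mul]
      · have ht2 : b2 < |v - t| := by
          have h3 : |v| ≤ |v - t| + |t| := by
            calc |v| = |(v - t) + t| := by ring_nf
              _ ≤ _ := abs_add_le _ _
          linarith [not_lt.mp ht]
        rw [h2.sup _ ht2, mul_zero]
    show ∫ t : ℝ, w1 t * w2 (v - t) = 0
    rw [this, integral_zero]
  · intro z
    have hc := integral_convolution (μ := (volume : Measure ℝ)) (ν := (volume : Measure ℝ))
      (ContinuousLinearMap.mul ℝ ℂ) (integrable_exp hb z) (integrable_exp h2 z)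
    simp only [ContinuousLinearMap.mul_apply', MeasureTheory.convolution] at hc
    rw [hb.rep z, h2.rep z, ← hc]
    congr 1
    funext v
    rw [← integral_mul_const]
    congr 1
    funext t
    have he : cexp (I * v * z) = cexp (I * t * z) * cexp (I * ((v - t : ℝ) : ℂ) * z) := by
      rw [← Complex.exp_add]
      congr 1
      push_cast
      ring
    rw [he]
    ring
  · intro v
    have h3 := norm_integral_le_of_norm_le ((integrable_w hb).norm.mul_const M)
      (f := fun t : ℝ => w1 t * w2 (v - t)) (Filter.Eventually.of_forall fun t => by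
        rw [norm_mul]
        exact mul_le_mul_of_nonneg_left (hM _) (norm_nonneg _))
    rw [integral_mul_const, hL, one_mul] at h3
    exact h3

theorem BW_powb {a : ℝ} (ha : 0 < a) : ∀ k : ℕ, 1 ≤ k →
    ∃ w, BW (k * a) (fun z => Sa a z ^ k) w ∧ ∀ v, ‖w v‖ ≤ 1 / (2 * a) := by
  intro k hk
  induction k, hk using Nat.le_induction with
  | base =>
    refine ⟨(Ioc (-a) a).indicator (fun _ => ((1 / (2 * a) : ℝ) : ℂ)), ?_, fun v => ?_⟩
    · have h := BW_base ha
      have e1 : ((1 : ℕ) : ℝ) * a = a := by simp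
      have e2 : (fun z => Sa a z ^ 1) = Sa a := by funext z; rw [pow_one]
      rw [e1, e2]
      exact h
    · refine (norm_indicator_le_norm_self _ _).trans ?_
      rw [Complex.norm_real, Real.norm_eq_abs, abs_of_pos (by positivity)]
  | succ k hk ih =>
    obtain ⟨w, hw, hM⟩ := ih
    obtain ⟨w', hw', hM'⟩ := BW_mulb ha hw hM
    refine ⟨w', ?_, hM'⟩
    have e1 : ((k + 1 : ℕ) : ℝ) * a = a + k * a := by push_cast; ring
    have e2 : (fun z => Sa a z ^ (k + 1)) = fun z => Sa a z * Sa a z ^ k := by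
      funext z; rw [pow_succ, mul_comm]
    rw [e1, e2]
    exact hw'

theorem f_low {a : ℝ} (ha : 0 < a) : 1 / a ≤ ∫ x : ℝ, Real.sinc (a * x) ^ (2 * 2) := by
  set r : ℝ := 1 / a with hr
  have hr0 : 0 < r := by positivity
  have hn : 1 ≤ 2 := by norm_num
  have h1 : ∫ x in Icc (-r) r, Real.sinc (a * x) ^ (2 * 2) ≤ ∫ x : ℝ, Real.sinc (a * x) ^ (2 * 2) :=
    setIntegral_le_integral (f_int ha hn) (Filter.Eventually.of_forall fun x => f_nonneg a 2 x)
  have h2 : ∫ x in Icc (-r) r, (1 - a ^ 2 * x ^ 2) ≤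
      ∫ x in Icc (-r) r, Real.sinc (a * x) ^ (2 * 2) := by
    apply setIntegral_mono_on
    · exact (Continuous.continuousOn (by fun_prop)).integrableOn_Icc
    · exact (f_int ha hn).integrableOn
    · exact measurableSet_Icc
    · intro x hx
      have hax : |a * x| ≤ 1 := by
        rw [abs_mul, abs_of_pos ha]
        have : |x| ≤ r := abs_le.mpr ⟨hx.1, hx.2⟩
        calc a * |x| ≤ a * r := mul_le_mul_of_nonneg_left this ha.le
          _ = 1 := by rw [hr]; field_simp
      have h3 : (a * x) ^ 2 ≤ 1 := by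
        rw [← sq_abs]
        exact pow_le_one₀ (abs_nonneg _) hax
      have h4 := sinc_ge hax
      have h5 : (1 - (a * x) ^ 2 / 4) ^ (2 * 2) ≤ Real.sinc (a * x) ^ (2 * 2) :=
        pow_le_pow_left₀ (by linarith) h4 _
      have h6 : 1 + ((2 * 2 : ℕ) : ℝ) * (-((a * x) ^ 2 / 4)) ≤ (1 + -((a * x) ^ 2 / 4)) ^ (2 * 2) :=
        one_add_mul_le_pow (by linarith) _
      have h7 : 1 + ((2 * 2 : ℕ) : ℝ) * (-((a * x) ^ 2 / 4)) = 1 - a ^ 2 * x ^ 2 := by
        push_cast
        ring
      have h8 : (1 : ℝ) + -((a * x) ^ 2 / 4) = 1 - (a * x) ^ 2 / 4 := by ring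
      rw [h7, h8] at h6
      exact h6.trans h5
  have h3 : ∫ x in Icc (-r) r, (1 - a ^ 2 * x ^ 2) = 4 / 3 * r := by
    rw [integral_Icc_eq_integral_Ioc, ← intervalIntegral.integral_of_le (by linarith),
      intervalIntegral.integral_sub (Continuous.intervalIntegrable (by fun_prop) _ _)
        (Continuous.intervalIntegrable (by fun_prop) _ _), intervalIntegral.integral_const,
      intervalIntegral.integral_const_mul, integral_pow, smul_eq_mul]
    have har : a * r = 1 := by
      rw [hr]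
      field_simp
    norm_num
    linear_combination (-(2 / 3) * r * (1 + a * r)) * har
  linarith

/-- the kernel with its decay and a bounded density -/
theorem kern3 {b : ℝ} (hb : 0 < b) : ∃ (J : ℂ → ℂ) (j : ℝ → ℂ), BW b J j ∧
    (∀ v, ‖j v‖ ≤ 1 / 2) ∧ (∫ x : ℝ, J x) = 1 ∧
    ∀ z : ℂ, ‖J z‖ ≤ Real.exp (b * |z.im|) * kap b 2 z.re := by
  set a : ℝ := b / (2 * (2 : ℕ)) with ha_def
  have ha : 0 < a := by positivity
  have hkb : ((2 * 2 : ℕ) : ℝ) * a = b := by
    rw [ha_def]; push_cast; field_simp; norm_num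
  obtain ⟨w, hw, hwM⟩ := BW_powb ha (2 * 2) (by omega)
  rw [hkb] at hw
  set I0 : ℝ := ∫ x : ℝ, Real.sinc (a * x) ^ (2 * 2) with hI0
  have hlow : 1 / a ≤ I0 := f_low ha
  have hI0pos : 0 < I0 := lt_of_lt_of_le (by positivity) hlow
  set c : ℝ := 1 / I0 with hc
  have hc0 : 0 < c := by positivity
  have hcle : c ≤ a := by
    rw [hc, div_le_iff₀ hI0pos]
    rw [div_le_iff₀ ha] at hlow
    linarith
  have hre : ∀ x : ℝ, (c : ℂ) * Sa a x ^ (2 * 2) = ((c * Real.sinc (a * x) ^ (2 * 2) : ℝ) : ℂ) := by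
    intro x
    rw [Sa_real ha]
    push_cast
    ring
  have hcb : c ≤ b / 2 := by
    refine hcle.trans ?_
    rw [ha_def]
    push_cast
    linarith
  have htriv : ∀ z : ℂ, ‖(c : ℂ) * Sa a z ^ (2 * 2)‖ ≤ b / 2 * Real.exp (b * |z.im|) := by
    intro z
    simp only [norm_mul, norm_pow, Complex.norm_real, Real.norm_eq_abs, abs_of_pos hc0]
    have h1 : ‖Sa a z‖ ^ (2 * 2) ≤ Real.exp (a * |z.im|) ^ (2 * 2) :=
      pow_le_pow_left₀ (norm_nonneg _) (norm_Sa_le ha z) _
    rw [← Real.exp_nat_mul, show ((2 * 2 : ℕ) : ℝ) * (a * |z.im|) = b * |z.im| by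
      rw [← mul_assoc, hkb]] at h1
    exact mul_le_mul hcb h1 (by positivity) (by positivity)
  refine ⟨fun z => (c : ℂ) * Sa a z ^ (2 * 2), fun v => (c : ℂ) * w v, BW_smul hw _, ?_, ?_, ?_⟩
  · intro v
    rw [norm_mul, Complex.norm_real, Real.norm_eq_abs, abs_of_pos hc0]
    calc c * ‖w v‖ ≤ a * (1 / (2 * a)) := mul_le_mul hcle (hwM v) (norm_nonneg _) ha.le
      _ = 1 / 2 := by field_simp
  · simp only [hre]
    have h1 : ∫ x : ℝ, ((c * Real.sinc (a * x) ^ (2 * 2) : ℝ) : ℂ) =
        ((∫ x : ℝ, c * Real.sinc (a * x) ^ (2 * 2) : ℝ) : ℂ) := integral_ofReal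
    rw [h1, integral_const_mul, ← hI0, hc, one_div, inv_mul_cancel₀ hI0pos.ne', Complex.ofReal_one]
  · intro z
    show ‖(c : ℂ) * Sa a z ^ (2 * 2)‖ ≤ Real.exp (b * |z.im|) * kap b 2 z.re
    unfold kap
    rw [← ha_def]
    set y : ℝ := a * |z.re| with hy
    have hy0 : 0 ≤ y := by positivity
    have hE : (0 : ℝ) < Real.exp (b * |z.im|) := Real.exp_pos _
    rcases le_or_gt y 1 with h1 | h1
    · refine (htriv z).trans ?_
      have h2 : (1 : ℝ) ≤ 4 ^ 2 * ((1 + y) ^ (2 * 2))⁻¹ := by
        rw [← div_eq_mul_inv, le_div_iff₀ (by positivity), one_mul, pow_mul]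
        apply pow_le_pow_left₀ (by positivity)
        nlinarith
      calc b / 2 * Real.exp (b * |z.im|) = Real.exp (b * |z.im|) * (b / 2) * 1 := by ring
        _ ≤ Real.exp (b * |z.im|) * (b / 2) * (4 ^ 2 * ((1 + y) ^ (2 * 2))⁻¹) :=
            mul_le_mul_of_nonneg_left h2 (by positivity)
        _ = _ := by ring
    · have hzr : z.re ≠ 0 := by
        intro h0
        rw [hy, h0, abs_zero, mul_zero] at h1
        linarith
      simp only [norm_mul, norm_pow, Complex.norm_real, Real.norm_eq_abs, abs_of_pos hc0]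
      have h2 : ‖Sa a z‖ ≤ Real.exp (a * |z.im|) * (2 / (1 + y)) := by
        refine (norm_Sa_decay ha hzr).trans ?_
        apply mul_le_mul_of_nonneg_left _ (Real.exp_pos _).le
        rw [← hy, div_le_div_iff₀ (by linarith) (by linarith)]
        linarith
      have h3 : ‖Sa a z‖ ^ (2 * 2) ≤ (Real.exp (a * |z.im|) * (2 / (1 + y))) ^ (2 * 2) :=
        pow_le_pow_left₀ (norm_nonneg _) h2 _
      rw [mul_pow, ← Real.exp_nat_mul, show ((2 * 2 : ℕ) : ℝ) * (a * |z.im|) = b * |z.im| by
        rw [← mul_assoc, hkb], div_pow, pow_mul (2 : ℝ) 2 2] at h3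
      norm_num at h3
      calc c * ‖Sa a z‖ ^ (2 * 2) ≤ (b / 2) * (Real.exp (b * |z.im|) * (4 ^ 2 / (1 + y) ^ (2 * 2))) := by
            refine mul_le_mul hcb ?_ (by positivity) (by positivity)
            norm_num
            exact h3
        _ = _ := by
            rw [div_eq_mul_inv]
            ring

/-! ### the window -/

/-- the indicator -/
noncomputable def iw (h : ℝ) (u : ℝ) : ℂ := (Icc (-h) h).indicator (fun _ => (1 : ℂ)) u

/-- its smoothing -/
noncomputable def G0 (h : ℝ) (J : ℂ → ℂ) (z : ℂ) : ℂ := ∫ u : ℝ, iw h u * J (z - u)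

/-- the density -/
noncomputable def g0 (h : ℝ) (j : ℝ → ℂ) (v : ℝ) : ℂ := j v * ∫ u : ℝ, iw h u * cexp (-(I * v * u))

theorem iw_meas (h : ℝ) : Measurable (iw h) := measurable_const.indicator measurableSet_Icc

theorem norm_iw (h u : ℝ) : ‖iw h u‖ = (Icc (-h) h).indicator (fun _ => (1 : ℝ)) u := by
  unfold iw
  by_cases hu : u ∈ Icc (-h) h
  · rw [indicator_of_mem hu, indicator_of_mem hu, norm_one]
  · rw [indicator_of_notMem hu, indicator_of_notMem hu, norm_zero]

theorem iw_int (h : ℝ) : Integrable (iw h) := by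
  refine Integrable.mono' (ind_int h 1) (iw_meas h).aestronglyMeasurable
    (Eventually.of_forall fun u => ?_)
  rw [norm_iw]

/-- the Fourier transform of the indicator -/
theorem iw_ft (hh : 0 < h) (v : ℝ) :
    ∫ u : ℝ, iw h u * cexp (-(I * v * u)) = ((2 * h * Real.sinc (h * v) : ℝ) : ℂ) := by
  have h1 : ∫ u : ℝ, iw h u * cexp (-(I * v * u)) = ∫ u in (-h)..h, cexp (I * u * (-v : ℝ)) := by
    rw [intervalIntegral.integral_of_le (by linarith), ← integral_Icc_eq_integral_Ioc,
      ← integral_indicator measurableSet_Icc]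
    refine integral_congr_ae (Eventually.of_forall fun u => ?_)
    show iw h u * cexp (-(I * v * u)) = (Icc (-h) h).indicator (fun u : ℝ => cexp (I * u * (-v : ℝ))) u
    unfold iw
    by_cases hu : u ∈ Icc (-h) h
    · rw [indicator_of_mem hu, indicator_of_mem hu, one_mul]
      congr 1
      push_cast
      ring
    · rw [indicator_of_notMem hu, indicator_of_notMem hu, zero_mul]
  have h2 := Sa_real hh (-v)
  unfold Sa at h2
  rw [h1]
  have h3 : ((1 / (2 * h) : ℝ) : ℂ) ≠ 0 := by
    rw [Complex.ofReal_ne_zero]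
    positivity
  apply mul_left_cancel₀ h3
  rw [h2, ← Complex.ofReal_mul, mul_neg, Real.sinc_neg]
  congr 1
  field_simp

theorem g0_bw (hh : 0 < h) (hJ : BW b J j) : BW b (G0 h J) (g0 h j) := by
  obtain ⟨M, hM⟩ := hJ.bdd
  have hM0 : 0 ≤ M := (norm_nonneg _).trans (hM 0)
  refine ⟨?_, ?_, ?_, ?_⟩
  · have h1 : g0 h j = fun v => j v * ((2 * h * Real.sinc (h * v) : ℝ) : ℂ) := by
      funext v
      unfold g0
      rw [iw_ft hh]
    rw [h1]
    refine hJ.meas.mul ?_
    refine (Continuous.measurable ?_)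
    exact Complex.continuous_ofReal.comp (continuous_const.mul
      (Real.continuous_sinc.comp (continuous_const.mul continuous_id)))
  · refine ⟨M * ∫ u : ℝ, ‖iw h u‖, fun v => ?_⟩
    unfold g0
    rw [norm_mul]
    refine mul_le_mul (hM v) ?_ (norm_nonneg _) hM0
    refine (norm_integral_le_integral_norm _).trans (le_of_eq ?_)
    refine integral_congr_ae (Eventually.of_forall fun u => ?_)
    show ‖iw h u * cexp (-(I * v * u))‖ = ‖iw h u‖
    rw [norm_mul, Complex.norm_exp]
    simp
  · intro v hv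
    unfold g0
    rw [hJ.sup v hv, zero_mul]
  · intro z
    unfold G0 g0
    have h1 : ∀ u : ℝ, iw h u * J (z - u) =
        ∫ v : ℝ, iw h u * (j v * cexp (I * v * (z - u))) := by
      intro u
      rw [hJ.rep, integral_const_mul]
    simp_rw [h1]
    rw [integral_integral_swap]
    · refine integral_congr_ae (Eventually.of_forall fun v => ?_)
      show ∫ u : ℝ, iw h u * (j v * cexp (I * v * (z - u))) =
        j v * (∫ u : ℝ, iw h u * cexp (-(I * v * u))) * cexp (I * v * z)
      rw [mul_right_comm, ← integral_const_mul]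
      refine integral_congr_ae (Eventually.of_forall fun u => ?_)
      show iw h u * (j v * cexp (I * v * (z - u))) =
        j v * cexp (I * v * z) * (iw h u * cexp (-(I * v * u)))
      have h2 : cexp (I * v * (z - u)) = cexp (I * v * z) * cexp (-(I * v * u)) := by
        rw [← Complex.exp_add]
        congr 1
        ring
      rw [h2]
      ring
    · -- integrability on the product
      have h2 : Integrable (fun p : ℝ × ℝ => ‖iw h p.1‖ *
          (Icc (-b) b).indicator (fun _ => M * Real.exp (b * |z.im|)) p.2)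
          (volume.prod volume) := (iw_int h).norm.mul_prod (ind_int b _)
      refine Integrable.mono' h2 ?_ (Eventually.of_forall fun p => ?_)
      · have h3 : Measurable (fun p : ℝ × ℝ =>
            iw h p.1 * (j p.2 * cexp (I * p.2 * (z - p.1)))) := by
          refine ((iw_meas h).comp measurable_fst).mul ((hJ.meas.comp measurable_snd).mul ?_)
          fun_prop
        exact h3.aestronglyMeasurable
      · show ‖iw h p.1 * (j p.2 * cexp (I * p.2 * (z - p.1)))‖ ≤ _
        rw [norm_mul]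
        refine mul_le_mul_of_nonneg_left ?_ (norm_nonneg _)
        by_cases hv : p.2 ∈ Icc (-b) b
        · rw [indicator_of_mem hv, norm_mul, norm_cexp]
          have hv' : |p.2| ≤ b := abs_le.2 hv
          refine mul_le_mul (hM _) (Real.exp_le_exp.2 ?_) (Real.exp_nonneg _) hM0
          have him : (z - (p.1 : ℂ)).im = z.im := by simp
          rw [him]
          calc -(p.2 * z.im) ≤ |p.2 * z.im| := neg_le_abs _
            _ = |p.2| * |z.im| := abs_mul _ _
            _ ≤ b * |z.im| := mul_le_mul_of_nonneg_right hv' (abs_nonneg _)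
        · rw [indicator_of_notMem hv]
          have hv' : b < |p.2| := by
            by_contra hcon
            push Not at hcon
            exact hv (abs_le.1 hcon)
          rw [hJ.sup _ hv', zero_mul, norm_zero]

theorem g0_norm (hh : 0 < h) (hj : ∀ v, ‖j v‖ ≤ 1 / 2) (v : ℝ) :
    ‖g0 h j v‖ ≤ h ∧ |v| * ‖g0 h j v‖ ≤ 1 := by
  have h1 : ‖g0 h j v‖ = ‖j v‖ * (2 * h * |Real.sinc (h * v)|) := by
    unfold g0
    rw [iw_ft hh, norm_mul, Complex.norm_real, Real.norm_eq_abs, abs_mul, abs_mul,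
      abs_of_pos (two_pos : (0 : ℝ) < 2), abs_of_pos hh]
  rw [h1]
  constructor
  · calc ‖j v‖ * (2 * h * |Real.sinc (h * v)|) ≤ 1 / 2 * (2 * h * 1) := by
          refine mul_le_mul (hj v) ?_ (by positivity) (by norm_num)
          exact mul_le_mul_of_nonneg_left (Real.abs_sinc_le_one _) (by positivity)
      _ = h := by ring
  · have h2 : |v| * (h * |Real.sinc (h * v)|) ≤ 1 := by
      have e : |v| * (h * |Real.sinc (h * v)|) = |h * v * Real.sinc (h * v)| := by
        rw [abs_mul, abs_mul, abs_of_pos hh]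
        ring
      rw [e]
      by_cases hv : h * v = 0
      · rw [hv, zero_mul, abs_zero]
        norm_num
      · rw [Real.sinc_of_ne_zero hv, mul_div_cancel₀ _ hv]
        exact Real.abs_sin_le_one _
    calc |v| * (‖j v‖ * (2 * h * |Real.sinc (h * v)|)) =
          ‖j v‖ * (2 * (|v| * (h * |Real.sinc (h * v)|))) := by ring
      _ ≤ 1 / 2 * (2 * 1) := by
          refine mul_le_mul (hj v) ?_ (by positivity) (by norm_num)
          exact mul_le_mul_of_nonneg_left h2 (by norm_num)
      _ = 1 := by ring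

/-! ### the mass of the kernel on horizontal lines -/

theorem kap2 {b : ℝ} (hb : 0 < b) (v : ℝ) :
    kap b 2 v ≤ 128 * b * (1 + (b / 4 * v) ^ 2)⁻¹ := by
  have h1 := kap_le hb (n := 2) (by norm_num) le_rfl (abs_nonneg v)
  refine h1.trans (le_of_eq ?_)
  rw [mul_zero, add_zero, one_pow, inv_one, div_one, mul_one]
  have e : b / (2 * ((2 : ℕ) : ℝ)) = b / 4 := by push_cast; ring
  rw [e]
  ring

theorem lor_tendsto {c : ℝ} (hc : 0 < c) (K : ℝ) :
    Tendsto (fun v : ℝ => K * (1 + (c * v) ^ 2)⁻¹) atTop (𝓝 0) ∧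
    Tendsto (fun v : ℝ => K * (1 + (c * v) ^ 2)⁻¹) atBot (𝓝 0) := by
  have h1 : Tendsto (fun v : ℝ => (c * v) ^ 2) atTop atTop :=
    (tendsto_pow_atTop two_ne_zero).comp (tendsto_id.const_mul_atTop hc)
  have h2 : Tendsto (fun v : ℝ => K * (1 + (c * v) ^ 2)⁻¹) atTop (𝓝 0) := by
    have h0 := tendsto_atTop_add_const_left atTop (1 : ℝ) h1
    have := (tendsto_inv_atTop_zero.comp h0).const_mul K
    rw [mul_zero] at this
    exact this
  refine ⟨h2, ?_⟩
  have h3 := h2.comp tendsto_neg_atBot_atTop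
  refine h3.congr fun v => ?_
  simp only [Function.comp_apply, mul_neg, neg_sq]

theorem mass (hb : 0 < b) (hJ : BW b J j) (hJ1 : (∫ x : ℝ, J x) = 1)
    (hJd : ∀ z : ℂ, ‖J z‖ ≤ Real.exp (b * |z.im|) * kap b 2 z.re) (z : ℂ) :
    Integrable (fun u : ℝ => J (z - u)) ∧ ∫ u : ℝ, J (z - u) = 1 := by
  have hd := bw_diff hJ
  set K : ℝ := Real.exp (b * |z.im|) * (128 * b) with hK
  have hBi : Integrable (fun v : ℝ => K * (1 + (b / 4 * v) ^ 2)⁻¹) :=
    ((integrable_inv_one_add_sq).comp_mul_left' (by positivity : b / 4 ≠ 0)).const_mul K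
  have hB : ∀ x t : ℝ, |t| ≤ |z.im| → ‖J (x + t * I)‖ ≤ K * (1 + (b / 4 * x) ^ 2)⁻¹ := by
    intro x t ht
    have h1 := hJd (x + t * I)
    have e1 : ((x : ℂ) + t * I).im = t := by simp
    have e2 : ((x : ℂ) + t * I).re = x := by simp
    rw [e1, e2] at h1
    refine h1.trans ?_
    rw [hK, mul_assoc]
    refine mul_le_mul (Real.exp_le_exp.2 (mul_le_mul_of_nonneg_left ht hb.le)) (kap2 hb x)
      (kap_nonneg hb 2 x) (Real.exp_pos _).le
  obtain ⟨t1, t2⟩ := lor_tendsto (c := b / 4) (by positivity) K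
  have h1 := hshift hd hB hBi t1 t2
  have hi : Integrable (fun x : ℝ => J (x + z.im * I)) := by
    refine Integrable.mono' hBi ?_ (Eventually.of_forall fun x => hB x z.im le_rfl)
    have : Continuous (fun x : ℝ => J (x + z.im * I)) := by
      refine hd.continuous.comp ?_
      fun_prop
    exact this.aestronglyMeasurable
  have e : (fun u : ℝ => J (z - u)) = fun u : ℝ => (fun x : ℝ => J (x + z.im * I)) (z.re - u) := by
    funext u
    show J (z - u) = J (((z.re - u : ℝ) : ℂ) + z.im * I)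
    congr 1
    apply Complex.ext <;> simp
  constructor
  · rw [e]
    exact hi.comp_sub_left z.re
  · rw [e, integral_sub_left_eq_self (fun x : ℝ => J (x + z.im * I)) volume z.re, ← h1, hJ1]

end Winx

open Winx Pool.Agent.N802.U.Kernaux Pool.Agent.N802.U.Winaux Pool.Agent.N802.WD.Win2aux in
/-- **NV1**: a window -/
theorem nwin : S_nwin := by
  refine ⟨16 ^ 2 * 2 * Real.pi * 4 ^ 3, ?_, ?_⟩
  · have := Real.pi_gt_three
    linarith
  intro b h hb hh
  obtain ⟨J, j, hJ, hj, hJ1, hJd⟩ := kern3 hb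
  refine ⟨G0 h J, g0 h j, g0_bw hh hJ, g0_norm hh hj, fun z => ?_⟩
  obtain ⟨hi, hm⟩ := mass hb hJ hJ1 hJd z
  set c : ℂ := if |z.re| ≤ h then 1 else 0 with hc
  set δ : ℝ := |(|z.re| - h)| with hδ
  have hδ0 : 0 ≤ δ := abs_nonneg _
  have him : ∀ v : ℝ, (z - (v : ℂ)).im = z.im := fun v => by simp
  have hre : ∀ v : ℝ, (z - (v : ℂ)).re = z.re - v := fun v => by simp
  have hD : G0 h J z - c = ∫ u : ℝ, (iw h u - c) * J (z - u) := by
    have h1 : ∀ u : ℝ, (iw h u - c) * J (z - u) = iw h u * J (z - u) - c * J (z - u) :=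
      fun u => by ring
    simp_rw [h1]
    rw [integral_sub ?_ (hi.const_mul c), integral_const_mul, hm, mul_one]
    · rfl
    · refine Integrable.mono' hi.norm ?_ (Eventually.of_forall fun u => ?_)
      · refine ((iw_meas h).aestronglyMeasurable).mul ?_
        exact hi.aestronglyMeasurable
      · rw [norm_mul, norm_iw]
        refine mul_le_of_le_one_left (norm_nonneg _) ?_
        by_cases hu : u ∈ Icc (-h) h
        · rw [indicator_of_mem hu]
        · rw [indicator_of_notMem hu]
          exact zero_le_one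
  rw [hD]
  set a : ℝ := b / (2 * (2 : ℕ)) with ha_def
  have ha : 0 < a := by positivity
  set q : ℝ := 1 + a * δ with hq
  have hq1 : 1 ≤ q := by
    have : 0 ≤ a * δ := by positivity
    linarith
  have hq0 : 0 < q := by linarith
  set A : ℝ := b / 2 * 16 ^ 2 * (q ^ (2 * 2))⁻¹ with hA
  have hA0 : 0 ≤ A := by positivity
  obtain ⟨i1, v1⟩ := cauchy_int (a := a / q) (by positivity) z.re
  set E : ℝ := Real.exp (b * |z.im|) with hE
  have hE0 : 0 < E := Real.exp_pos _
  have hpt : ∀ u : ℝ, ‖(iw h u - c) * J (z - u)‖ ≤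
      E * A * (1 + (a / q * (z.re - u)) ^ 2)⁻¹ := by
    intro u
    by_cases hz : iw h u = c
    · rw [hz, sub_self, zero_mul, norm_zero]
      positivity
    · have h1 : ‖iw h u - c‖ ≤ 1 := by
        rw [hc]
        unfold iw
        by_cases hu : u ∈ Icc (-h) h
        · rw [indicator_of_mem hu]
          split_ifs <;> simp
        · rw [indicator_of_notMem hu]
          split_ifs <;> simp
      have h2 : δ ≤ |z.re - u| := by
        have h3 : |(|z.re| - |u|)| ≤ |z.re - u| := abs_abs_sub_abs_le z.re u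
        refine le_trans ?_ h3
        unfold iw at hz
        by_cases hu : u ∈ Icc (-h) h
        · rw [indicator_of_mem hu, hc] at hz
          have hx : ¬ |z.re| ≤ h := fun hx => hz (by rw [if_pos hx])
          push Not at hx
          have hu' : |u| ≤ h := abs_le.2 hu
          rw [hδ, abs_of_pos (show 0 < |z.re| - h by linarith),
            abs_of_pos (show 0 < |z.re| - |u| by linarith)]
          linarith
        · rw [indicator_of_notMem hu, hc] at hz
          have hx : |z.re| ≤ h := by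
            by_contra hx
            exact hz (by rw [if_neg hx])
          have hu' : h < |u| := by
            by_contra hcon
            push Not at hcon
            exact hu (abs_le.1 hcon)
          rw [hδ, abs_of_nonpos (show |z.re| - h ≤ 0 by linarith),
            abs_of_nonpos (show |z.re| - |u| ≤ 0 by linarith)]
          linarith
      have h3 := kap_le hb (n := 2) (by norm_num) hδ0 h2
      rw [← ha_def, ← hq, ← hA] at h3
      have h4 := hJd (z - u)
      rw [him, hre] at h4
      rw [norm_mul]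
      calc ‖iw h u - c‖ * ‖J (z - u)‖ ≤ 1 * (E * kap b 2 (z.re - u)) :=
            mul_le_mul h1 h4 (norm_nonneg _) zero_le_one
        _ = E * kap b 2 (z.re - u) := one_mul _
        _ ≤ E * (A * (1 + (a / q * (z.re - u)) ^ 2)⁻¹) := mul_le_mul_of_nonneg_left h3 hE0.le
        _ = _ := by ring
  refine (norm_integral_le_of_norm_le (i1.const_mul (E * A)) (Eventually.of_forall hpt)).trans ?_
  rw [integral_const_mul, v1]
  have e1 : E * A * (Real.pi / (a / q)) = E * (16 ^ 2 * 2 * Real.pi * (q ^ 3)⁻¹) := by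
    rw [hA, ha_def]
    push_cast
    field_simp
  rw [e1]
  have h5 : (1 + b * δ) / 4 ≤ q := by
    rw [hq, ha_def]
    push_cast
    nlinarith
  have h6 : (q ^ 3)⁻¹ ≤ 4 ^ 3 * ((1 + b * δ) ^ 3)⁻¹ := by
    have h7 : ((1 + b * δ) / 4) ^ 3 ≤ q ^ 3 := pow_le_pow_left₀ (by positivity) h5 3
    have h8 : (q ^ 3)⁻¹ ≤ (((1 + b * δ) / 4) ^ 3)⁻¹ := inv_anti₀ (by positivity) h7
    refine h8.trans (le_of_eq ?_)
    rw [div_pow, inv_div, div_eq_mul_inv]
  calc E * (16 ^ 2 * 2 * Real.pi * (q ^ 3)⁻¹) ≤
        E * (16 ^ 2 * 2 * Real.pi * (4 ^ 3 * ((1 + b * δ) ^ 3)⁻¹)) := by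
        apply mul_le_mul_of_nonneg_left _ hE0.le
        exact mul_le_mul_of_nonneg_left h6 (by positivity)
    _ = _ := by ring

end Pool.Agent.N802.NV
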