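import Pool.Agent.N802.NV.Stm

/-!
# NV4: the second moment at the zeros

Author: helper886 (project NV of helper802); a port of `N802/WD/Ecz.lean`.
-/

set_option linter.all false

open Complex Filter Topology Set MeasureTheory
open scoped BigOperators ComplexConjugate

set_option autoImplicit false

namespace Pool.Agent.N802.NV

open H370 hiding pt
open TC Pool.Agent.N802.U Pool.Agent.N802.WD
open JX (gg gg_mono gg_nonneg)

lemma xa_eq (F : ℂ → ℂ) (U1 U2 κ L y : ℝ) : XA F U1 U2 κ L y =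
    ∑ s ∈ Zf F U1 U2, if |s.im - y| ≤ 1 / L then
      (mult F s : ℝ) * Real.exp (κ * (|(zz s).im| * L)) else 0 := by
  classical
  unfold XA
  rw [Finset.sum_filter]

lemma xa_nonneg (F : ℂ → ℂ) (U1 U2 κ L y : ℝ) : 0 ≤ XA F U1 U2 κ L y := by
  unfold XA
  exact Finset.sum_nonneg fun _ _ => mul_nonneg (Nat.cast_nonneg _) (Real.exp_pos _).le

lemma xa_meas (F : ℂ → ℂ) (U1 U2 κ L x : ℝ) : Measurable fun t : ℝ => XA F U1 U2 κ L (t + x) := by
  classical
  simp_rw [xa_eq]
  refine Finset.measurable_fun_sum _ fun s _ => ?_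
  apply Measurable.ite _ measurable_const measurable_const
  have hc : Continuous (fun t : ℝ => |s.im - (t + x)|) := by fun_prop
  exact (isClosed_le hc continuous_const).measurableSet

lemma xa_le (F : ℂ → ℂ) (U1 U2 κ L y : ℝ) : XA F U1 U2 κ L y ≤
    ∑ s ∈ Zf F U1 U2, (mult F s : ℝ) * Real.exp (κ * (|(zz s).im| * L)) := by
  classical
  unfold XA
  exact Finset.sum_le_sum_of_subset_of_nonneg (Finset.filter_subset _ _)
    fun _ _ _ => mul_nonneg (Nat.cast_nonneg _) (Real.exp_pos _).le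

lemma xa_int {w : ℝ → ℝ} (hw : Continuous w) (F : ℂ → ℂ) (U1 U2 κ L x a b : ℝ) :
    IntervalIntegrable (fun t => w t * XA F U1 U2 κ L (t + x) ^ 3) volume a b := by
  classical
  have h2 : IntervalIntegrable (fun t => |w t| *
      (∑ s ∈ Zf F U1 U2, (mult F s : ℝ) * Real.exp (κ * (|(zz s).im| * L))) ^ 3)
      volume a b := (hw.abs.mul continuous_const).intervalIntegrable _ _
  apply h2.mono_fun'
  · apply AEStronglyMeasurable.restrict
    apply Measurable.aestronglyMeasurable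
    exact hw.measurable.mul ((xa_meas F U1 U2 κ L x).pow_const 3)
  · refine Eventually.of_forall fun t => ?_
    simp only
    rw [Real.norm_eq_abs, abs_mul, abs_of_nonneg (pow_nonneg (xa_nonneg F U1 U2 κ L (t + x)) 3)]
    exact mul_le_mul_of_nonneg_left (pow_le_pow_left₀ (xa_nonneg _ _ _ _ _ _) (xa_le _ _ _ _ _ _) 3)
      (abs_nonneg _)

/-- the zeros around a point near `t`, weighted -/
lemma xa_split {F : ℂ → ℂ} {U1 U2 κ κ' L L1 t x y : ℝ} (hκ : κ * L ≤ κ' * L1)
    (hh : 1 / L ≤ 1 / L1) (hy : |y - t| ≤ 1 / L1) : XA F U1 U2 κ L (y + x) ≤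
      XA F U1 U2 κ' L1 (t + (x - 1 / L1)) + XA F U1 U2 κ' L1 (t + (x + 1 / L1)) := by
  classical
  simp only [xa_eq]
  rw [← Finset.sum_add_distrib]
  refine Finset.sum_le_sum fun s _ => ?_
  have hm : (0 : ℝ) ≤ (mult F s : ℝ) * Real.exp (κ' * (|(zz s).im| * L1)) :=
    mul_nonneg (Nat.cast_nonneg _) (Real.exp_pos _).le
  have hle : (mult F s : ℝ) * Real.exp (κ * (|(zz s).im| * L)) ≤
      (mult F s : ℝ) * Real.exp (κ' * (|(zz s).im| * L1)) := by
    refine mul_le_mul_of_nonneg_left (Real.exp_le_exp.2 ?_) (Nat.cast_nonneg _)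
    have h1 := mul_le_mul_of_nonneg_left hκ (abs_nonneg (zz s).im)
    calc κ * (|(zz s).im| * L) = |(zz s).im| * (κ * L) := by ring
      _ ≤ |(zz s).im| * (κ' * L1) := h1
      _ = _ := by ring
  have hy' := abs_le.1 hy
  have h4 : (0 : ℝ) ≤ if |s.im - (t + (x - 1 / L1))| ≤ 1 / L1 then
      (mult F s : ℝ) * Real.exp (κ' * (|(zz s).im| * L1)) else 0 := by
    split_ifs
    · exact hm
    · exact le_rfl
  have h5 : (0 : ℝ) ≤ if |s.im - (t + (x + 1 / L1))| ≤ 1 / L1 then
      (mult F s : ℝ) * Real.exp (κ' * (|(zz s).im| * L1)) else 0 := by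
    split_ifs
    · exact hm
    · exact le_rfl
  by_cases h1 : |s.im - (y + x)| ≤ 1 / L
  · have h1' := abs_le.1 h1
    rw [if_pos h1]
    rcases le_total s.im (t + x) with h2 | h2
    · have h3 : |s.im - (t + (x - 1 / L1))| ≤ 1 / L1 := by
        rw [abs_le]
        constructor <;> linarith [h1'.1, h1'.2, hy'.1, hy'.2]
      rw [if_pos h3]
      linarith
    · have h3 : |s.im - (t + (x + 1 / L1))| ≤ 1 / L1 := by
        rw [abs_le]
        constructor <;> linarith [h1'.1, h1'.2, hy'.1, hy'.2]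
      rw [if_pos h3]
      linarith
  · rw [if_neg h1]
    linarith

lemma cube_four {a b c d : ℝ} (ha : 0 ≤ a) (hb : 0 ≤ b) (hc : 0 ≤ c) (hd : 0 ≤ d) :
    (c + d) * (a + b) ^ 2 ≤ 4 * (c ^ 3 + d ^ 3 + a ^ 3 + b ^ 3) := by
  have h1 : (c + d) * (a + b) ^ 2 ≤ (c + d) ^ 3 + (a + b) ^ 3 := by
    have hx : 0 ≤ c + d := by linarith
    have hy : 0 ≤ a + b := by linarith
    rcases le_total (c + d) (a + b) with h | h
    · have h2 : (c + d) * (a + b) ^ 2 ≤ (a + b) * (a + b) ^ 2 :=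
        mul_le_mul_of_nonneg_right h (sq_nonneg _)
      have h3 : 0 ≤ (c + d) ^ 3 := by positivity
      nlinarith
    · have h2 : (c + d) * (a + b) ^ 2 ≤ (c + d) * (c + d) ^ 2 :=
        mul_le_mul_of_nonneg_left (pow_le_pow_left₀ hy h 2) hx
      have h3 : 0 ≤ (a + b) ^ 3 := by positivity
      nlinarith
  have h2 : ∀ p q : ℝ, 0 ≤ p → 0 ≤ q → (p + q) ^ 3 ≤ 4 * (p ^ 3 + q ^ 3) := by
    intro p q hp hq
    nlinarith [mul_nonneg (add_nonneg hp hq) (sq_nonneg (p - q))]
  have h3 := h2 c d hc hd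
  have h4 := h2 a b ha hb
  linarith

lemma cube_gg {c n : ℝ} (hc : 0 < c) (hn : 0 ≤ n) : n ^ 3 ≤ 24 / c ^ 4 * gg c n := by
  have h1 := Real.pow_div_factorial_le_exp (c * Real.sqrt n) (by positivity) 4
  have h2 : (c * Real.sqrt n) ^ 4 = c ^ 4 * n ^ 2 := by
    rw [mul_pow]
    congr 1
    calc Real.sqrt n ^ 4 = (Real.sqrt n ^ 2) ^ 2 := by ring
      _ = n ^ 2 := by rw [Real.sq_sqrt hn]
  rw [h2] at h1
  have h3 : ((Nat.factorial 4 : ℕ) : ℝ) = 24 := by norm_num [Nat.factorial]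
  rw [h3] at h1
  unfold gg
  have hc4 : 0 < c ^ 4 := by positivity
  have h4 : n ^ 2 ≤ 24 / c ^ 4 * Real.exp (c * Real.sqrt n) := by
    rw [div_le_iff₀ (by norm_num)] at h1
    rw [div_mul_eq_mul_div, le_div_iff₀ hc4]
    linarith
  calc n ^ 3 = n * n ^ 2 := by ring
    _ ≤ n * (24 / c ^ 4 * Real.exp (c * Real.sqrt n)) := mul_le_mul_of_nonneg_left h4 hn
    _ = _ := by ring

/-- **NV4** -/
theorem xz {F : ℂ → ℂ} (hF : GoodL F) (hec : S_ec F) (hxw : S_xw F) : S_xz F := by
  classical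
  intro β hε hβ4
  obtain ⟨c, Ce, T0e, hc, hCe, hT0e, He⟩ := hec β hε hβ4
  obtain ⟨κ', Cx, T0x, hκ', hκ'1, hCx, hT0x, Hx⟩ := hxw β hε hβ4
  obtain ⟨C, hCd⟩ : ∃ C : ℝ, C = 2 * (24 / c ^ 4) * Ce + 2 * Cx := ⟨_, rfl⟩
  have hC : 0 < C := by rw [hCd]; positivity
  refine ⟨κ' / 2, Real.exp (1 / 2) * 16 * C * Real.sqrt (2 * Real.pi) * 3,
    2 * max T0e T0x + 30, by positivity, by linarith, by positivity, ?_, ?_⟩
  · have := le_max_left T0e T0x
    linarith
  intro T hT N K hN1 hK1 hK2 S hS r U1 U2 x hU1 hx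
  obtain ⟨T0, hT0d⟩ : ∃ T0 : ℝ, T0 = max T0e T0x := ⟨_, rfl⟩
  rw [← hT0d] at hT
  have hT0a : T0e ≤ T0 := by rw [hT0d]; exact le_max_left _ _
  have hT0b : T0x ≤ T0 := by rw [hT0d]; exact le_max_right _ _
  have hT0 : 10 ≤ T0 := hT0e.trans hT0a
  set T1 : ℝ := 9 / 10 * T with hT1
  have hTT : T0 ≤ T1 := by rw [hT1]; linarith
  have hT20 : 20 ≤ T := by linarith
  have hT1p : 1 ≤ T1 := by linarith
  have hT1T : T1 ≤ T := by rw [hT1]; linarith
  have hsq : T ≤ T1 ^ 2 := by
    rw [hT1]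
    nlinarith
  set L := Real.log T with hL
  set L1 := Real.log T1 with hL1
  have hLL : L1 ≤ L := Real.log_le_log (by linarith) hT1T
  have hLL2 : L ≤ 2 * L1 := by
    have := Real.log_le_log (by linarith) hsq
    rw [Real.log_pow] at this
    exact_mod_cast this
  have hL1' : 1 ≤ L := by
    rw [hL, Real.le_log_iff_exp_le (by linarith)]
    have := Real.exp_one_lt_d9
    linarith
  have hL1p : 0 < L1 := by linarith
  set HH : ℝ := K with hHH
  have hNK : N ≤ K := by
    refine le_trans ?_ hK1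
    exact le_mul_of_one_le_right (by linarith) (Real.one_le_rpow (by linarith) (by linarith))
  have hH1 : 1 ≤ HH := hN1.trans hNK
  have hH0 : 0 < HH := by linarith
  have hHK : HH ≤ K := le_rfl
  have hHge : N * T1 ^ (1 / 2 + β) ≤ HH := by
    refine le_trans ?_ hK1
    exact mul_le_mul_of_nonneg_left (Real.rpow_le_rpow (by linarith) hT1T (by linarith))
      (by linarith)
  have hNT1 : N ≤ T1 := by rw [hT1]; linarith
  have hSlog : ∀ k ∈ S, 1 ≤ k ∧ Real.log k ≤ L := by
    intro k hk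
    refine ⟨(hS k hk).1, ?_⟩
    have hk1 : (1 : ℝ) ≤ k := by exact_mod_cast (hS k hk).1
    exact Real.log_le_log (by linarith) ((hS k hk).2.trans (hNT1.trans hT1T))
  set Z := Zf F T (T + K) with hZ
  set W := Zf F (T - 1) (T + K + 1) with hW
  have hZW : Z ⊆ W := by
    intro s hs
    rw [hZ, mem_Zf hF (by linarith)] at hs
    rw [hW, mem_Zf hF (by linarith)]
    obtain ⟨h1, h2, h3, h4, h5⟩ := hs
    exact ⟨h1, h2, by linarith, by linarith, h5⟩
  have hL1h : 1 / 2 ≤ L1 := by linarith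
  have hh0 : 0 < 1 / L1 := by positivity
  have hh2 : 1 / L1 ≤ 2 := by
    rw [div_le_iff₀ hL1p]
    linarith
  have hhh : 1 / L ≤ 1 / L1 := one_div_le_one_div_of_le hL1p hLL
  have hκL : κ' / 2 * L ≤ κ' * L1 := by nlinarith
  set ωs : ℂ → ℝ := fun s => (mult F s : ℝ) * XA F U1 U2 (κ' / 2) L (s.im + x) ^ 2 with hωs
  have hω0 : ∀ s, 0 ≤ ωs s := fun s => mul_nonneg (Nat.cast_nonneg _) (sq_nonneg _)
  have hpt : ∀ t : ℝ, (∑ s ∈ Z, if |s.im - (t + 0)| ≤ 1 / L1 then ωs s else 0) ≤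
      4 * (24 / c ^ 4) * gg c (na F (T - 1) (T + K + 1) (1 / L1) (t + -(1 / L1))) +
      4 * (24 / c ^ 4) * gg c (na F (T - 1) (T + K + 1) (1 / L1) (t + 1 / L1)) +
      4 * XA F U1 U2 κ' L1 (t + (x - 1 / L1)) ^ 3 +
      4 * XA F U1 U2 κ' L1 (t + (x + 1 / L1)) ^ 3 := by
    intro t
    set c' := na F (T - 1) (T + K + 1) (1 / L1) (t + -(1 / L1)) with hc'
    set d' := na F (T - 1) (T + K + 1) (1 / L1) (t + 1 / L1) with hd'
    set a' := XA F U1 U2 κ' L1 (t + (x - 1 / L1)) with ha'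
    set b' := XA F U1 U2 κ' L1 (t + (x + 1 / L1)) with hb'
    have ha0 : 0 ≤ a' := xa_nonneg _ _ _ _ _ _
    have hb0 : 0 ≤ b' := xa_nonneg _ _ _ _ _ _
    have hc0 : 0 ≤ c' := na_nonneg _ _ _ _ _
    have hd0 : 0 ≤ d' := na_nonneg _ _ _ _ _
    have h1 : (∑ s ∈ Z, if |s.im - (t + 0)| ≤ 1 / L1 then ωs s else 0) ≤
        ∑ s ∈ Z, (if |s.im - (t + 0)| ≤ 1 / L1 then (mult F s : ℝ) else 0) *
          (a' + b') ^ 2 := by
      refine Finset.sum_le_sum fun s _ => ?_
      by_cases h2 : |s.im - (t + 0)| ≤ 1 / L1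
      · rw [if_pos h2, if_pos h2]
        simp only [hωs]
        refine mul_le_mul_of_nonneg_left (pow_le_pow_left₀ (xa_nonneg _ _ _ _ _ _) ?_ 2)
          (Nat.cast_nonneg _)
        rw [add_zero] at h2
        exact xa_split hκL hhh h2
      · rw [if_neg h2, if_neg h2, zero_mul]
    rw [← Finset.sum_mul] at h1
    have h3 := near_split (F := F) (t := t) hZW hh0.le
    have h4 : (∑ s ∈ W, if |s.im - (t + -(1 / L1))| ≤ 1 / L1 then (mult F s : ℝ) else 0) = c' := by
      rw [hc']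
      unfold na
      rw [Finset.sum_filter]
    have h5 : (∑ s ∈ W, if |s.im - (t + 1 / L1)| ≤ 1 / L1 then (mult F s : ℝ) else 0) = d' := by
      rw [hd']
      unfold na
      rw [Finset.sum_filter]
    rw [h4, h5] at h3
    refine h1.trans ((mul_le_mul_of_nonneg_right h3 (sq_nonneg _)).trans ?_)
    refine (cube_four ha0 hb0 hc0 hd0).trans ?_
    have h6 := cube_gg hc hc0
    have h7 := cube_gg hc hd0
    linarith
  have claim : ∀ (r' : ℕ → ℂ) (τ : ℝ), ∑ s ∈ Z, ωs s *
      ∫ t in T1..(2 * T1), rh τ HH S r' t * (if |s.im - (t + 0)| ≤ 1 / L1 then (1 : ℝ) else 0) ≤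
      4 * C * mr HH S r' := by
    intro r' τ
    have hca := He T1 (hT0a.trans hTT) N HH hN1 hNT1 hHge S hS r' τ (T - 1) (T + K + 1)
      (-(1 / L1)) (by linarith) (by rw [abs_neg, abs_of_pos hh0]; linarith)
    have hda := He T1 (hT0a.trans hTT) N HH hN1 hNT1 hHge S hS r' τ (T - 1) (T + K + 1)
      (1 / L1) (by linarith) (by rw [abs_of_pos hh0]; linarith)
    have hx' := abs_le.1 hx
    have haa := Hx T1 (hT0b.trans hTT) N HH hN1 hNT1 hHge S hS r' τ U1 U2 (x - 1 / L1) hU1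
      (by rw [abs_le]; constructor <;> linarith [hx'.1, hx'.2])
    have hba := Hx T1 (hT0b.trans hTT) N HH hN1 hNT1 hHge S hS r' τ U1 U2 (x + 1 / L1) hU1
      (by rw [abs_le]; constructor <;> linarith [hx'.1, hx'.2])
    rw [← hL1] at hca hda haa hba
    rw [wdz_swap Z ωs (fun s => s.im) (Pool.Agent.N802.WD.rh_cont τ HH S r') T1 (2 * T1) (1 / L1)]
    have ic := gna_int (Pool.Agent.N802.WD.rh_cont τ HH S r') hc.le F (T - 1) (T + K + 1) (1 / L1) (-(1 / L1)) T1
      (2 * T1)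
    have id' := gna_int (Pool.Agent.N802.WD.rh_cont τ HH S r') hc.le F (T - 1) (T + K + 1) (1 / L1) (1 / L1) T1
      (2 * T1)
    have ia := xa_int (Pool.Agent.N802.WD.rh_cont τ HH S r') F U1 U2 κ' L1 (x - 1 / L1) T1 (2 * T1)
    have ib := xa_int (Pool.Agent.N802.WD.rh_cont τ HH S r') F U1 U2 κ' L1 (x + 1 / L1) T1 (2 * T1)
    have i0 : IntervalIntegrable (fun t => rh τ HH S r' t *
        ∑ s ∈ Z, if |s.im - (t + 0)| ≤ 1 / L1 then ωs s else 0) volume T1 (2 * T1) := by
      have h1 : IntervalIntegrable (∑ s ∈ Z, fun t => ωs s * (rh τ HH S r' t *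
        (if |s.im - (t + 0)| ≤ 1 / L1 then (1 : ℝ) else 0))) volume T1 (2 * T1) :=
        IntervalIntegrable.sum _ fun s _ => (wdz_cell_int (Pool.Agent.N802.WD.rh_cont _ _ _ _) _ _ _ _).const_mul _
      refine h1.congr ?_
      intro t _
      simp only [Finset.sum_apply]
      rw [Finset.mul_sum]
      refine Finset.sum_congr rfl fun s _ => ?_
      split_ifs <;> ring
    have h2 : ∫ t in T1..(2 * T1), rh τ HH S r' t *
        (∑ s ∈ Z, if |s.im - (t + 0)| ≤ 1 / L1 then ωs s else 0) ≤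
        ∫ t in T1..(2 * T1), (4 * (24 / c ^ 4) * (rh τ HH S r' t *
          gg c (na F (T - 1) (T + K + 1) (1 / L1) (t + -(1 / L1)))) +
        4 * (24 / c ^ 4) * (rh τ HH S r' t *
          gg c (na F (T - 1) (T + K + 1) (1 / L1) (t + 1 / L1))) +
        4 * (rh τ HH S r' t * XA F U1 U2 κ' L1 (t + (x - 1 / L1)) ^ 3) +
        4 * (rh τ HH S r' t * XA F U1 U2 κ' L1 (t + (x + 1 / L1)) ^ 3)) := by
      refine intervalIntegral.integral_mono_on (by linarith) i0
        ((((ic.const_mul _).add (id'.const_mul _)).add (ia.const_mul 4)).add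
          (ib.const_mul 4)) ?_
      intro t _
      refine (mul_le_mul_of_nonneg_left (hpt t) (Pool.Agent.N802.WD.rh_nonneg _ _ _ _ _)).trans (le_of_eq ?_)
      ring
    refine h2.trans ?_
    rw [intervalIntegral.integral_add
        (((ic.const_mul _).add (id'.const_mul _)).add (ia.const_mul 4)) (ib.const_mul 4),
      intervalIntegral.integral_add ((ic.const_mul _).add (id'.const_mul _)) (ia.const_mul 4),
      intervalIntegral.integral_add (ic.const_mul _) (id'.const_mul _),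
      intervalIntegral.integral_const_mul, intervalIntegral.integral_const_mul,
      intervalIntegral.integral_const_mul, intervalIntegral.integral_const_mul]
    have hc4 : 0 ≤ 4 * (24 / c ^ 4) := by positivity
    have e1 := mul_le_mul_of_nonneg_left hca hc4
    have e2 := mul_le_mul_of_nonneg_left hda hc4
    have e3 : 4 * C * mr HH S r' = 4 * (24 / c ^ 4) * (Ce * mr HH S r') +
        4 * (24 / c ^ 4) * (Ce * mr HH S r') + 4 * (Cx * mr HH S r') + 4 * (Cx * mr HH S r') := by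
      rw [hCd]
      ring
    rw [e3]
    linarith
  -- the function
  set g : ℝ → ℝ := fun t => 2 * L * ‖RP S r t‖ ^ 2 + ‖RP S (rd r) t‖ ^ 2 / L with hg
  have hR := RP_cont S r
  have hR' := RP_cont S (rd r)
  have hgc : Continuous g := by
    rw [hg]
    fun_prop
  have hg0 : ∀ t, 0 ≤ g t := by
    intro t
    rw [hg]
    positivity
  set n := ⌊((T + K + 1) - (T - 1)) / HH⌋₊ + 1 with hn
  set τ : ℕ → ℝ := fun j => (T - 1) + j * HH with hτ
  have homc : ∀ j, Continuous (fun t => om (τ j) HH t * g t) := by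
    intro j
    unfold om
    fun_prop
  have hL1le : 1 / L ≤ 1 := by
    rw [div_le_one (by linarith)]
    exact hL1'
  have key : ∀ s ∈ Z, ‖RP S r s.im‖ ^ 2 ≤ Real.exp (1 / 2) * ∑ j ∈ Finset.range n,
      (2 * L * (∫ t in T1..(2 * T1), rh (τ j) HH S r t *
        (if |s.im - (t + 0)| ≤ 1 / L1 then (1 : ℝ) else 0)) +
      1 / L * (∫ t in T1..(2 * T1), rh (τ j) HH S (rd r) t *
        (if |s.im - (t + 0)| ≤ 1 / L1 then (1 : ℝ) else 0))) := by
    intro s hs
    have hs1 : s ∈ Zf F T (T + K) := hs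
    rw [mem_Zf hF (by linarith)] at hs1
    obtain ⟨-, -, hs3, hs4, -⟩ := hs1
    have h1 := wdz_sob (f := RP S r) (f' := RP S (rd r)) (RP_hasDeriv S r) hR' (L := L) s.im
      (by linarith)
    refine h1.trans ?_
    have hpos : 0 < 1 / L := by positivity
    have h2 : ∫ t in (s.im - 1 / L)..(s.im + 1 / L), g t ≤
        ∫ t in (s.im - 1 / L)..(s.im + 1 / L),
          ∑ j ∈ Finset.range n, Real.exp (1 / 2) * (om (τ j) HH t * g t) := by
      refine intervalIntegral.integral_mono_on (by linarith) (hgc.intervalIntegrable _ _)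
        ((continuous_finsetSum _ fun j _ =>
          continuous_const.mul (homc j)).intervalIntegrable _ _) ?_
      intro t ht
      have h3 := wdz_cover (u := T - 1) (v := T + K + 1) hH0 (by linarith) (t := t)
        (by linarith [ht.1]) (by linarith [ht.2])
      have h4 := mul_le_mul_of_nonneg_right h3 (hg0 t)
      rw [one_mul] at h4
      refine h4.trans (le_of_eq ?_)
      rw [mul_assoc, Finset.sum_mul, Finset.mul_sum]
    refine h2.trans ?_
    rw [intervalIntegral.integral_finsetSum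
      (f := fun (j : ℕ) (t : ℝ) => Real.exp (1 / 2) * (om (τ j) HH t * g t)) (fun j _ =>
      (continuous_const.mul (homc j)).intervalIntegrable _ _), Finset.mul_sum]
    refine Finset.sum_le_sum fun j _ => ?_
    rw [intervalIntegral.integral_const_mul]
    refine mul_le_mul_of_nonneg_left ?_ (Real.exp_pos _).le
    have h5 := wdz_cell (homc j) (fun t => mul_nonneg (Real.exp_pos _).le (hg0 t))
      (a := T1) (b := 2 * T1) (u := s.im - 1 / L) (v := s.im + 1 / L) (A := 1 / L1) s.im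
      (by linarith) (by linarith) (by rw [hT1] at *; linarith) (by
        intro t ht
        have e1 : 1 / L ≤ 1 / L1 := one_div_le_one_div_of_le hL1p hLL
        rw [abs_le]
        constructor <;> linarith [ht.1, ht.2])
    refine h5.trans (le_of_eq ?_)
    rw [← intervalIntegral.integral_const_mul, ← intervalIntegral.integral_const_mul,
      ← intervalIntegral.integral_add ((wdz_cell_int (Pool.Agent.N802.WD.rh_cont _ _ _ _) _ _ _ _).const_mul _)
        ((wdz_cell_int (Pool.Agent.N802.WD.rh_cont _ _ _ _) _ _ _ _).const_mul _)]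
    congr 1
    funext t
    simp only [rh, hg]
    ring
  have hw : 0 ≤ w1 S r := w1_nonneg S r
  set E := 4 * C with hE
  have hE0 : 0 < E := by positivity
  calc ∑ s ∈ Z, ωs s * ‖RP S r s.im‖ ^ 2
      ≤ ∑ s ∈ Z, ωs s * (Real.exp (1 / 2) * ∑ j ∈ Finset.range n,
      (2 * L * (∫ t in T1..(2 * T1), rh (τ j) HH S r t *
        (if |s.im - (t + 0)| ≤ 1 / L1 then (1 : ℝ) else 0)) +
      1 / L * (∫ t in T1..(2 * T1), rh (τ j) HH S (rd r) t *
        (if |s.im - (t + 0)| ≤ 1 / L1 then (1 : ℝ) else 0)))) :=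
        Finset.sum_le_sum fun s hs => mul_le_mul_of_nonneg_left (key s hs) (hω0 s)
    _ = Real.exp (1 / 2) * ∑ j ∈ Finset.range n, (2 * L * (∑ s ∈ Z, ωs s *
        ∫ t in T1..(2 * T1), rh (τ j) HH S r t *
        (if |s.im - (t + 0)| ≤ 1 / L1 then (1 : ℝ) else 0)) +
        1 / L * (∑ s ∈ Z, ωs s * ∫ t in T1..(2 * T1), rh (τ j) HH S (rd r) t *
        (if |s.im - (t + 0)| ≤ 1 / L1 then (1 : ℝ) else 0))) := by
        simp only [Finset.mul_sum]
        rw [Finset.sum_comm]
        refine Finset.sum_congr rfl fun j _ => ?_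
        rw [← Finset.sum_add_distrib, Finset.mul_sum]
        refine Finset.sum_congr rfl fun s _ => ?_
        ring
    _ ≤ Real.exp (1 / 2) * ∑ j ∈ Finset.range n, (2 * L * (E * mr HH S r) +
        1 / L * (E * mr HH S (rd r))) := by
        refine mul_le_mul_of_nonneg_left (Finset.sum_le_sum fun j _ => ?_) (Real.exp_pos _).le
        exact add_le_add (mul_le_mul_of_nonneg_left (claim r (τ j)) (by positivity))
          (mul_le_mul_of_nonneg_left (claim (rd r) (τ j)) (by positivity))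
    _ ≤ Real.exp (1 / 2) * ((n : ℝ) * (E * (Real.sqrt (2 * Real.pi) * HH) * (3 * L * w1 S r))) := by
        rw [Finset.sum_const, Finset.card_range, nsmul_eq_mul]
        refine mul_le_mul_of_nonneg_left (mul_le_mul_of_nonneg_left ?_ (Nat.cast_nonneg _))
          (Real.exp_pos _).le
        have h1 := w1_rd (r := r) hSlog
        unfold mr
        have h2 : 1 / L * (E * (Real.sqrt (2 * Real.pi) * HH * w1 S (rd r))) ≤
            1 / L * (E * (Real.sqrt (2 * Real.pi) * HH * (L ^ 2 * w1 S r))) := by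
          gcongr
        have h3 : 1 / L * (E * (Real.sqrt (2 * Real.pi) * HH * (L ^ 2 * w1 S r))) =
            E * (Real.sqrt (2 * Real.pi) * HH) * (L * w1 S r) := by
          field_simp
        rw [h3] at h2
        refine (add_le_add_right h2 _).trans (le_of_eq ?_)
        ring
    _ = Real.exp (1 / 2) * (E * Real.sqrt (2 * Real.pi) * (3 * L * w1 S r)) * (n * HH) := by ring
    _ ≤ Real.exp (1 / 2) * (E * Real.sqrt (2 * Real.pi) * (3 * L * w1 S r)) * (4 * K) := by
        refine mul_le_mul_of_nonneg_left ?_ (by positivity)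
        have h1 : (⌊((T + K + 1) - (T - 1)) / HH⌋₊ : ℝ) ≤ ((T + K + 1) - (T - 1)) / HH :=
          Nat.floor_le (by apply div_nonneg <;> linarith)
        have h2 : (n : ℝ) = (⌊((T + K + 1) - (T - 1)) / HH⌋₊ : ℝ) + 1 := by
          rw [hn]; push_cast; ring
        rw [h2]
        have h3 : (⌊((T + K + 1) - (T - 1)) / HH⌋₊ : ℝ) * HH ≤ (T + K + 1) - (T - 1) :=
          (le_div_iff₀ hH0).1 h1
        nlinarith
    _ = _ := by
        rw [hE]
        ring

end Pool.Agent.N802.NV
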