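import Pool.Agent.N802.NV.Nv
import Pool.Agent.N802.NV.Xz
import Pool.Agent.N802.NV.Win
import Pool.Agent.N802.NV.Gs2
import Pool.Agent.N802.NV.Cn
import Pool.Agent.N802.NV.Er

/-!
# The number variance and the pair counts in every weight, for zeta and `L(s, χ)`
-/

open Complex Filter Topology Set MeasureTheory
open scoped BigOperators ComplexConjugate

set_option autoImplicit false

namespace Pool.Agent.N802.NV

open H370 hiding pt
open TC Pool.Agent.N802.U Pool.Agent.N802.WD

theorem nv_zeta : S_nv riemannZeta :=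
  nv H370.good_zeta wdz3_zeta (xz H370.good_zeta ec_zeta (xw H370.good_zeta ec_zeta wd3_zeta))
    nwin ngs cn er

theorem nv_chi {q : ℕ} [NeZero q] (χ : DirichletCharacter ℂ q) (hχ : χ.IsPrimitive) :
    S_nv (DirichletCharacter.LFunction χ) :=
  nv (H370.good_dirichlet χ hχ) (wdz3_chi χ hχ) (xz (H370.good_dirichlet χ hχ) (ec_chi χ hχ)
    (xw (H370.good_dirichlet χ hχ) (ec_chi χ hχ) (wd3_chi χ hχ))) nwin ngs cn er

end Pool.Agent.N802.NV
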