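import Pool.Agent.N802.NV.Stm
import Pool.Agent.N802.U.Alg

/-!
# NV2: Gaussian smoothing of a band-limited window
-/

open Complex Filter Topology Set MeasureTheory
open scoped BigOperators ComplexConjugate

set_option autoImplicit false
set_option linter.unusedVariables false

namespace Pool.Agent.N802.NV

open H370 hiding pt
open TC Pool.Agent.N802.U Pool.Agent.N802.WD

namespace Gsaux

theorem gauss_shift (c x : ℝ) :
    ∫ v : ℝ, Real.exp (-(c * (x + v) ^ 2)) = Real.sqrt (Real.pi / c) := by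
  rw [integral_add_left_eq_self (μ := volume) (fun v : ℝ => Real.exp (-(c * v ^ 2))) x]
  have := integral_gaussian c
  simpa [neg_mul] using this

theorem gauss_shift_int (c x : ℝ) (hc : 0 < c) :
    Integrable fun v : ℝ => Real.exp (-(c * (x + v) ^ 2)) := by
  have h := (integrable_exp_neg_mul_sq hc).comp_add_left x
  simpa [neg_mul] using h

theorem g_int {b : ℝ} {W : ℂ → ℂ} {w : ℝ → ℂ} (h : BW b W w) : Integrable w := by
  obtain ⟨M, hM⟩ := h.bdd
  have h1 : Integrable (Set.indicator (Set.Icc (-b) b) fun _ : ℝ => M) :=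
    (integrable_indicator_iff measurableSet_Icc).2 (integrableOn_const (by simp))
  refine h1.mono' h.meas.aestronglyMeasurable (Filter.Eventually.of_forall fun v => ?_)
  by_cases hv : v ∈ Set.Icc (-b) b
  · rw [Set.indicator_of_mem hv]
    exact hM v
  · rw [Set.indicator_of_notMem hv, h.sup v, norm_zero]
    by_contra hcon
    exact hv (abs_le.1 (not_lt.1 hcon))

theorem W_cont {b : ℝ} {W : ℂ → ℂ} {w : ℝ → ℂ} (h : BW b W w) : Continuous fun y : ℝ => W y := by
  have e : (fun y : ℝ => W y) = fun y : ℝ => ∫ v : ℝ, w v * cexp (I * v * y) := by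
    funext y
    exact h.rep y
  rw [e]
  refine continuous_of_dominated (bound := fun v => ‖w v‖) (fun y => ?_) (fun y => ?_)
    (g_int h).norm (Filter.Eventually.of_forall fun v => by fun_prop)
  · exact (h.meas.mul (by fun_prop)).aestronglyMeasurable
  · refine Filter.Eventually.of_forall fun v => ?_
    rw [norm_mul]
    have e1 : ‖cexp (I * v * y)‖ = 1 := by
      have : I * (v : ℂ) * y = ((v * y : ℝ) : ℂ) * I := by push_cast; ring
      rw [this, Complex.norm_exp_ofReal_mul_I]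
    rw [e1, mul_one]

theorem sqrt2pi_pos : 0 < Real.sqrt (2 * Real.pi) := Real.sqrt_pos.2 (by positivity)

theorem gs_norm_le (w : ℝ → ℂ) (x : ℝ) (F : ℝ → ℝ) (hF : Integrable F)
    (hb : ∀ v, ‖w v‖ * Real.exp (-(x + v) ^ 2 / 2) ≤ F v) :
    ‖gs w x‖ ≤ 1 / Real.sqrt (2 * Real.pi) * ∫ v, F v := by
  unfold Pool.Agent.N802.U.gs
  rw [norm_mul, Complex.norm_real, Real.norm_of_nonneg (by positivity)]
  refine mul_le_mul_of_nonneg_left ?_ (by positivity)
  refine norm_integral_le_of_norm_le hF (Filter.Eventually.of_forall fun v => ?_)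
  rw [norm_mul, Complex.norm_real, Real.norm_of_nonneg (Real.exp_pos _).le]
  exact hb v

theorem q2_le {h : ℝ} {g : ℝ → ℂ} (h0 : 0 < h) (h1 : h ≤ 1)
    (hg : ∀ v : ℝ, ‖g v‖ ≤ h ∧ |v| * ‖g v‖ ≤ 1) : q2 g ≤ 7 := by
  have e : ∀ v, ‖g v‖ ^ 2 ≤ 2 * (1 + v ^ 2)⁻¹ := by
    intro v
    obtain ⟨e1, e2⟩ := hg v
    have hp : (0 : ℝ) < 1 + v ^ 2 := by positivity
    rw [← div_eq_mul_inv, le_div_iff₀ hp]
    have f1 : ‖g v‖ ^ 2 ≤ 1 := by
      have := norm_nonneg (g v)
      nlinarith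
    have f2 : v ^ 2 * ‖g v‖ ^ 2 ≤ 1 := by
      have : v ^ 2 * ‖g v‖ ^ 2 = (|v| * ‖g v‖) ^ 2 := by rw [mul_pow, sq_abs]
      rw [this]
      have h3 : 0 ≤ |v| * ‖g v‖ := by positivity
      nlinarith
    nlinarith
  have hint : Integrable fun v : ℝ => 2 * (1 + v ^ 2)⁻¹ := integrable_inv_one_add_sq.const_mul 2
  have h2 : q2 g ≤ ∫ v : ℝ, 2 * (1 + v ^ 2)⁻¹ := by
    unfold q2
    refine integral_mono_of_nonneg (Filter.Eventually.of_forall fun v => by positivity) hint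
      (Filter.Eventually.of_forall e)
  rw [integral_const_mul, integral_univ_inv_one_add_sq] at h2
  have := Real.pi_lt_d2
  linarith

theorem b1 {h : ℝ} {g : ℝ → ℂ} (h0 : 0 < h)
    (hg : ∀ v : ℝ, ‖g v‖ ≤ h ∧ |v| * ‖g v‖ ≤ 1) (x : ℝ) : ‖gs g x‖ ≤ h := by
  have hi := (gauss_shift_int (1 / 2) x (by norm_num)).const_mul h
  have h1 := gs_norm_le g x _ hi fun v => by
    have e : -(x + v) ^ 2 / 2 = -(1 / 2 * (x + v) ^ 2) := by ring
    rw [e]
    exact mul_le_mul_of_nonneg_right (hg v).1 (Real.exp_pos _).le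
  rw [integral_const_mul, gauss_shift] at h1
  have e2 : Real.pi / (1 / 2) = 2 * Real.pi := by ring
  rw [e2] at h1
  have e3 : 1 / Real.sqrt (2 * Real.pi) * (h * Real.sqrt (2 * Real.pi)) = h := by
    have := sqrt2pi_pos.ne'
    field_simp
  rwa [e3] at h1

theorem b2 {h : ℝ} {g : ℝ → ℂ} (_h0 : 0 < h) (h1 : h ≤ 1)
    (hg : ∀ v : ℝ, ‖g v‖ ≤ h ∧ |v| * ‖g v‖ ≤ 1) (x : ℝ) : |x| * ‖gs g x‖ ≤ 3 := by
  -- scale the density by |x|
  have hi := (gauss_shift_int (1 / 4) x (by norm_num)).const_mul 2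
  have e0 : ∀ w : ℝ → ℂ, ‖gs (fun v => ((|x| : ℝ) : ℂ) * w v) x‖ = |x| * ‖gs w x‖ := by
    intro w
    unfold Pool.Agent.N802.U.gs
    simp only [mul_assoc]
    rw [integral_const_mul, norm_mul, norm_mul, norm_mul, Complex.norm_real |x|, Real.norm_eq_abs,
      abs_abs]
    ring
  rw [← e0]
  have h2 := gs_norm_le (fun v => ((|x| : ℝ) : ℂ) * g v) x _ hi fun v => by
    have e : -(x + v) ^ 2 / 2 = -(1 / 4 * (x + v) ^ 2) + -(1 / 4 * (x + v) ^ 2) := by ring
    rw [e, Real.exp_add, norm_mul, Complex.norm_real |x|, Real.norm_eq_abs, abs_abs, ← mul_assoc]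
    refine mul_le_mul_of_nonneg_right ?_ (Real.exp_pos _).le
    have f1 : |x| * ‖g v‖ ≤ |x + v| + 1 := by
      have g1 : |x| ≤ |x + v| + |v| := by
        have := abs_sub (x + v) v
        rwa [add_sub_cancel_right] at this
      have g2 := mul_le_mul_of_nonneg_right g1 (norm_nonneg (g v))
      have g3 : |x + v| * ‖g v‖ ≤ |x + v| * 1 :=
        mul_le_mul_of_nonneg_left ((hg v).1.trans h1) (abs_nonneg _)
      have g4 := (hg v).2
      nlinarith
    have f2 : |x + v| + 1 ≤ 2 * Real.exp (1 / 4 * (x + v) ^ 2) := by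
      have g1 := Real.add_one_le_exp (1 / 4 * (x + v) ^ 2)
      have g2 : (x + v) ^ 2 = |x + v| ^ 2 := (sq_abs _).symm
      rw [g2] at g1 ⊢
      nlinarith [sq_nonneg (|x + v| - 1)]
    calc |x| * ‖g v‖ * Real.exp (-(1 / 4 * (x + v) ^ 2))
        ≤ 2 * Real.exp (1 / 4 * (x + v) ^ 2) * Real.exp (-(1 / 4 * (x + v) ^ 2)) :=
          mul_le_mul_of_nonneg_right (f1.trans f2) (Real.exp_pos _).le
      _ = 2 := by rw [mul_assoc, ← Real.exp_add, add_neg_cancel, Real.exp_zero, mul_one]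
  rw [integral_const_mul, gauss_shift] at h2
  refine h2.trans ?_
  have e2 : Real.pi / (1 / 4) = 2 * (2 * Real.pi) := by ring
  rw [e2, Real.sqrt_mul (show (0 : ℝ) ≤ 2 by norm_num) (2 * Real.pi)]
  have e3 : 1 / Real.sqrt (2 * Real.pi) * (2 * (Real.sqrt 2 * Real.sqrt (2 * Real.pi))) =
      2 * Real.sqrt 2 := by
    have := sqrt2pi_pos.ne'
    field_simp
  rw [e3]
  have : Real.sqrt 2 ≤ 3 / 2 := by
    rw [Real.sqrt_le_left (by norm_num)]
    norm_num
  linarith

theorem b3 {b h : ℝ} {G : ℂ → ℂ} {g : ℝ → ℂ} (hb : 1 ≤ b) (h0 : 0 < h) (h1 : h ≤ 1)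
    (hB : BW b G g) (hg : ∀ v : ℝ, ‖g v‖ ≤ h ∧ |v| * ‖g v‖ ≤ 1) (x : ℝ) (hx : 2 * b ≤ |x|) :
    ‖gs g x‖ ≤ b * Real.exp (-x ^ 2 / 8) := by
  have hi : Integrable (Set.indicator (Set.Icc (-b) b) fun _ : ℝ => Real.exp (-x ^ 2 / 8)) :=
    (integrable_indicator_iff measurableSet_Icc).2 (integrableOn_const (by simp))
  have h2 := gs_norm_le g x _ hi fun v => by
    by_cases hv : v ∈ Set.Icc (-b) b
    · rw [Set.indicator_of_mem hv]
      have f1 : |x| / 2 ≤ |x + v| := by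
        have g1 : |x| ≤ |x + v| + |v| := by
          have := abs_sub (x + v) v
          rwa [add_sub_cancel_right] at this
        have g2 : |v| ≤ b := abs_le.2 hv
        linarith
      have f2 : -(x + v) ^ 2 / 2 ≤ -x ^ 2 / 8 := by
        have g1 : (|x| / 2) ^ 2 ≤ |x + v| ^ 2 := pow_le_pow_left₀ (by positivity) f1 2
        rw [sq_abs, div_pow, sq_abs] at g1
        linarith
      calc ‖g v‖ * Real.exp (-(x + v) ^ 2 / 2) ≤ 1 * Real.exp (-x ^ 2 / 8) :=
            mul_le_mul ((hg v).1.trans h1) (Real.exp_le_exp.2 f2) (Real.exp_pos _).le zero_le_one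
        _ = Real.exp (-x ^ 2 / 8) := one_mul _
    · rw [Set.indicator_of_notMem hv, hB.sup v, norm_zero, zero_mul]
      by_contra hcon
      exact hv (abs_le.1 (not_lt.1 hcon))
  rw [integral_indicator measurableSet_Icc, setIntegral_const, smul_eq_mul] at h2
  have e1 : volume.real (Set.Icc (-b) b) = 2 * b := by
    rw [Measure.real, Real.volume_Icc, ENNReal.toReal_ofReal (by linarith)]
    ring
  rw [e1] at h2
  refine h2.trans ?_
  have e2 : 2 ≤ Real.sqrt (2 * Real.pi) := by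
    rw [Real.le_sqrt' (by norm_num)]
    have := Real.pi_gt_three
    linarith
  have e3 : 1 / Real.sqrt (2 * Real.pi) ≤ 1 / 2 := one_div_le_one_div_of_le (by norm_num) e2
  have e4 : 0 ≤ 2 * b * Real.exp (-x ^ 2 / 8) := by positivity
  calc 1 / Real.sqrt (2 * Real.pi) * (2 * b * Real.exp (-x ^ 2 / 8))
      ≤ 1 / 2 * (2 * b * Real.exp (-x ^ 2 / 8)) := mul_le_mul_of_nonneg_right e3 e4
    _ = b * Real.exp (-x ^ 2 / 8) := by ring

theorem lor (b c : ℝ) (hb : 0 < b) : Integrable (fun y : ℝ => (1 + (b * (y + c)) ^ 2)⁻¹) ∧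
    ∫ y : ℝ, (1 + (b * (y + c)) ^ 2)⁻¹ = Real.pi / b := by
  have h1 : Integrable fun y : ℝ => (1 + (b * y) ^ 2)⁻¹ :=
    integrable_inv_one_add_sq.comp_mul_left' hb.ne'
  refine ⟨h1.comp_add_right c, ?_⟩
  rw [integral_add_right_eq_self (μ := volume) (fun y : ℝ => (1 + (b * y) ^ 2)⁻¹) c]
  have h2 := Measure.integral_comp_mul_left (fun y : ℝ => (1 + y ^ 2)⁻¹) b
  rw [h2, integral_univ_inv_one_add_sq, abs_of_pos (inv_pos.2 hb), smul_eq_mul]
  rw [div_eq_mul_inv, mul_comm]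

theorem b4 (hgs : S_gs) {b h C1 : ℝ} {G : ℂ → ℂ} {g : ℝ → ℂ} (hb : 1 ≤ b) (h0 : 0 < h)
    (h1 : h ≤ 1) (hC1 : 1 ≤ C1) (hB : BW b G g)
    (hG : ∀ x : ℝ, ‖G x - (if |x| ≤ h then 1 else 0)‖ ≤ C1 * ((1 + b * |(|x| - h)|) ^ 3)⁻¹) :
    ‖gs g 0 - ((h / Real.pi : ℝ) : ℂ)‖ ≤ C1 / b + h ^ 3 := by
  have hb0 : 0 < b := by linarith
  rw [hgs b G g hb0 hB 0]
  set f : ℝ → ℂ := fun y => (Real.exp (-y ^ 2 / 2) : ℝ) * (cexp (I * (0 : ℝ) * y) * G y) with hf
  set ι : ℝ → ℂ := Set.indicator (Set.Icc (-h) h) fun _ => (1 : ℂ) with hι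
  have hιi : Integrable ι :=
    (integrable_indicator_iff measurableSet_Icc).2 (integrableOn_const (by simp))
  have hιint : ∫ y, ι y = ((2 * h : ℝ) : ℂ) := by
    rw [hι, integral_indicator measurableSet_Icc, setIntegral_const]
    have e1 : volume.real (Set.Icc (-h) h) = 2 * h := by
      rw [Measure.real, Real.volume_Icc, ENNReal.toReal_ofReal (by linarith)]
      ring
    rw [e1, Complex.real_smul, mul_one]
  have hιv : ∀ y : ℝ, ι y = if |y| ≤ h then 1 else 0 := by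
    intro y
    rw [hι, Set.indicator_apply]
    congr 1
    exact propext (by rw [Set.mem_Icc, abs_le])
  set B : ℝ → ℝ := fun y => C1 * ((1 + (b * (y + h)) ^ 2)⁻¹ + (1 + (b * (y + -h)) ^ 2)⁻¹) +
    Set.indicator (Set.Icc (-h) h) (fun _ => h ^ 2 / 2) y with hBdef
  obtain ⟨l1, l2⟩ := lor b h hb0
  obtain ⟨l3, l4⟩ := lor b (-h) hb0
  have hind : Integrable (Set.indicator (Set.Icc (-h) h) (fun _ : ℝ => h ^ 2 / 2)) :=
    (integrable_indicator_iff measurableSet_Icc).2 (integrableOn_const (by simp))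
  have hBi : Integrable B := ((l1.add l3).const_mul C1).add hind
  have hBint : ∫ y, B y = C1 * (2 * Real.pi / b) + h ^ 3 := by
    have a1 : ∫ y, B y = (∫ y, C1 * ((1 + (b * (y + h)) ^ 2)⁻¹ + (1 + (b * (y + -h)) ^ 2)⁻¹)) +
        ∫ y, Set.indicator (Set.Icc (-h) h) (fun _ : ℝ => h ^ 2 / 2) y :=
      integral_add ((l1.add l3).const_mul C1) hind
    have a2 : ∫ y : ℝ, ((1 + (b * (y + h)) ^ 2)⁻¹ + (1 + (b * (y + -h)) ^ 2)⁻¹) =
        Real.pi / b + Real.pi / b := by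
      rw [integral_add l1 l3, l2, l4]
    rw [a1, integral_const_mul, a2, integral_indicator measurableSet_Icc, setIntegral_const]
    have e1 : volume.real (Set.Icc (-h) h) = 2 * h := by
      rw [Measure.real, Real.volume_Icc, ENNReal.toReal_ofReal (by linarith)]
      ring
    rw [e1, smul_eq_mul]
    ring
  have hker : ∀ y : ℝ, ((1 + b * |(|y| - h)|) ^ 3)⁻¹ ≤
      (1 + (b * (y + h)) ^ 2)⁻¹ + (1 + (b * (y + -h)) ^ 2)⁻¹ := by
    intro y
    set t := b * |(|y| - h)| with ht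
    have ht0 : 0 ≤ t := by positivity
    have f1 : ((1 + t) ^ 3)⁻¹ ≤ (1 + t ^ 2)⁻¹ := by
      apply inv_anti₀ (by positivity)
      nlinarith [pow_nonneg ht0 3, pow_nonneg ht0 2]
    have f2 : t ^ 2 = (b * (|y| - h)) ^ 2 := by
      rw [ht, mul_pow, sq_abs, mul_pow]
    rcases le_total 0 y with hy | hy
    · rw [abs_of_nonneg hy] at f2
      have f3 : (1 + t ^ 2)⁻¹ = (1 + (b * (y + -h)) ^ 2)⁻¹ := by rw [f2]; ring_nf
      have f4 : (0 : ℝ) ≤ (1 + (b * (y + h)) ^ 2)⁻¹ := by positivity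
      linarith
    · rw [abs_of_nonpos hy] at f2
      have f3 : (1 + t ^ 2)⁻¹ = (1 + (b * (y + h)) ^ 2)⁻¹ := by rw [f2]; ring_nf
      have f4 : (0 : ℝ) ≤ (1 + (b * (y + -h)) ^ 2)⁻¹ := by positivity
      linarith
  have hpt : ∀ y : ℝ, ‖f y - ι y‖ ≤ B y := by
    intro y
    have e1 : f y - ι y = (Real.exp (-y ^ 2 / 2) : ℝ) * (G y - ι y) +
        ((Real.exp (-y ^ 2 / 2) - 1 : ℝ) : ℂ) * ι y := by
      simp only [hf]
      have : cexp (I * ((0 : ℝ) : ℂ) * y) = 1 := by simp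
      rw [this]
      push_cast
      ring
    rw [e1]
    refine (norm_add_le _ _).trans (add_le_add ?_ ?_)
    · rw [norm_mul, Complex.norm_real, Real.norm_of_nonneg (Real.exp_pos _).le]
      have f1 : Real.exp (-y ^ 2 / 2) ≤ 1 := by
        rw [Real.exp_le_one_iff]
        nlinarith [sq_nonneg y]
      have f2 := hG y
      rw [← hιv y] at f2
      calc Real.exp (-y ^ 2 / 2) * ‖G y - ι y‖ ≤ 1 * (C1 * ((1 + b * |(|y| - h)|) ^ 3)⁻¹) :=
            mul_le_mul f1 f2 (norm_nonneg _) zero_le_one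
        _ ≤ C1 * ((1 + (b * (y + h)) ^ 2)⁻¹ + (1 + (b * (y + -h)) ^ 2)⁻¹) := by
            rw [one_mul]
            exact mul_le_mul_of_nonneg_left (hker y) (by linarith)
    · rw [norm_mul, Complex.norm_real]
      by_cases hy : y ∈ Set.Icc (-h) h
      · rw [hι, Set.indicator_of_mem hy, Set.indicator_of_mem hy, norm_one, mul_one,
          Real.norm_eq_abs]
        have f1 : Real.exp (-y ^ 2 / 2) ≤ 1 := by
          rw [Real.exp_le_one_iff]
          nlinarith [sq_nonneg y]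
        have f2 := Real.add_one_le_exp (-y ^ 2 / 2)
        rw [abs_of_nonpos (by linarith)]
        have f3 : |y| ≤ h := abs_le.2 hy
        have f4 : y ^ 2 ≤ h ^ 2 := by
          rw [← sq_abs y]
          exact pow_le_pow_left₀ (abs_nonneg _) f3 2
        linarith
      · rw [hι, Set.indicator_of_notMem hy, Set.indicator_of_notMem hy, norm_zero, mul_zero]
  have hfc : Continuous f := by
    have h2 := W_cont hB
    have h3 : Continuous fun y : ℝ => ((Real.exp (-y ^ 2 / 2) : ℝ) : ℂ) := by fun_prop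
    have h4 : Continuous fun y : ℝ => cexp (I * ((0 : ℝ) : ℂ) * y) := by fun_prop
    exact h3.mul (h4.mul h2)
  have hfi : Integrable f := by
    have h2 : Integrable fun y => f y - ι y :=
      hBi.mono' (hfc.aestronglyMeasurable.sub hιi.aestronglyMeasurable)
        (Filter.Eventually.of_forall hpt)
    have h3 := h2.add hιi
    refine h3.congr (Filter.Eventually.of_forall fun y => ?_)
    simp
  have hdiff : ‖(∫ y, f y) - ∫ y, ι y‖ ≤ C1 * (2 * Real.pi / b) + h ^ 3 := by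
    rw [← integral_sub hfi hιi, ← hBint]
    exact norm_integral_le_of_norm_le hBi (Filter.Eventually.of_forall hpt)
  have e5 : ((1 / (2 * Real.pi) : ℝ) : ℂ) * (∫ y, f y) - ((h / Real.pi : ℝ) : ℂ) =
      ((1 / (2 * Real.pi) : ℝ) : ℂ) * ((∫ y, f y) - ∫ y, ι y) := by
    rw [mul_sub, hιint]
    congr 1
    rw [← Complex.ofReal_mul]
    congr 1
    have := Real.pi_pos.ne'
    field_simp
  rw [e5, norm_mul, Complex.norm_real, Real.norm_of_nonneg (by positivity)]
  calc 1 / (2 * Real.pi) * ‖(∫ y, f y) - ∫ y, ι y‖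
      ≤ 1 / (2 * Real.pi) * (C1 * (2 * Real.pi / b) + h ^ 3) :=
        mul_le_mul_of_nonneg_left hdiff (by positivity)
    _ = C1 / b + 1 / (2 * Real.pi) * h ^ 3 := by
        have := Real.pi_pos.ne'
        field_simp
    _ ≤ C1 / b + h ^ 3 := by
        have f1 : 1 / (2 * Real.pi) ≤ 1 := by
          rw [div_le_one (by positivity)]
          have := Real.pi_gt_three
          linarith
        have f2 : 0 ≤ h ^ 3 := by positivity
        nlinarith

end Gsaux

open Gsaux in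
/-- **NV2** -/
theorem ngs : S_ngs := by
  have hgs := gsq
  refine ⟨7, by norm_num, fun b h C1 G g hb h0 h1 hC1 hB hg hG => ⟨q2_le h0 h1 hg,
    fun x => ⟨b1 h0 hg x, (b2 h0 h1 hg x).trans (by norm_num)⟩, fun x hx => ?_, ?_⟩⟩
  · refine (b3 hb h0 h1 hB hg x hx).trans ?_
    have : 0 ≤ b * Real.exp (-x ^ 2 / 8) := by positivity
    linarith
  · refine (b4 hgs hb h0 h1 hC1 hB hG).trans ?_
    have : 0 ≤ C1 / b + h ^ 3 := by positivity
    linarith

end Pool.Agent.N802.NV
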