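import Pool.Agent.N802.NV.Nv0

/-!
# The number variance at the zeros in every weight
-/

open Complex Filter Topology Set MeasureTheory
open scoped BigOperators ComplexConjugate

set_option autoImplicit false

namespace Pool.Agent.N802.NV

open H370 hiding pt
open TC Pool.Agent.N802.U Pool.Agent.N802.WD
open U.FMaux (ca cb PD_eq)

/-- the pointwise bound, squared -/
lemma nv_point {F : ℂ → ℂ} {G : ℂ → ℂ} {g : ℝ → ℂ} {a : ℕ → ℂ} {Xn Yn : ℕ} {J : Finset ℤ}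
    {L L1 h X x U1 U2 Ce κ η Ef M1 M2 M0 W : ℝ} (hη0 : 0 < η) (hCe : 0 < Ce)
    (her : ‖((na F U1 U2 h x : ℝ) : ℂ) - SS F U1 U2 G 0 x‖ ≤ Ce * (1 + ∑ j ∈ J, wj η j *
      (XA F U1 U2 κ L (x - h + 2 * j / L) + XA F U1 U2 κ L (x + h + 2 * j / L))))
    (hef : ‖SS F U1 U2 G 0 x - cexp (I * (0 : ℝ) * x) * PD a Xn g L1 0 x‖ ≤ Ef)
    (hM1 : ‖(L1 : ℂ) * gs g 0 - (X : ℂ)‖ ≤ M1) (hYX : Yn ≤ Xn)
    (h6 : ∑ n ∈ Finset.Icc 1 Xn \ Finset.Icc 1 Yn, ‖ca a g n‖ ≤ M2)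
    (h7 : ∑ n ∈ Finset.Icc 1 Xn \ Finset.Icc 1 Yn, ‖cb a g n‖ ≤ M2)
    (hM0 : Ce + Ef + M1 + 2 * M2 ≤ M0) (hWJ : ∑ j ∈ J, wj η j ≤ W) :
    (na F U1 U2 h x - X) ^ 2 ≤ 5 * (M0 ^ 2 +
      Ce ^ 2 * (W * ∑ j ∈ J, wj η j * XA F U1 U2 κ L (x - h + 2 * j / L) ^ 2) +
      Ce ^ 2 * (W * ∑ j ∈ J, wj η j * XA F U1 U2 κ L (x + h + 2 * j / L) ^ 2) +
      ‖RP (Finset.Icc 1 Yn) (ca a g) x‖ ^ 2 + ‖RP (Finset.Icc 1 Yn) (cb a g) x‖ ^ 2) := by
  have hpb := point_bound her hef hM1 hYX h6 h7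
  have hsplit : ∑ j ∈ J, wj η j *
      (XA F U1 U2 κ L (x - h + 2 * j / L) + XA F U1 U2 κ L (x + h + 2 * j / L)) =
      ∑ j ∈ J, wj η j * XA F U1 U2 κ L (x - h + 2 * j / L) +
      ∑ j ∈ J, wj η j * XA F U1 U2 κ L (x + h + 2 * j / L) := by
    rw [← Finset.sum_add_distrib]
    exact Finset.sum_congr rfl fun j _ => mul_add _ _ _
  rw [hsplit] at hpb
  have c1 := cells_sq J (wj η) (fun j => XA F U1 U2 κ L (x - h + 2 * j / L))
    fun j _ => wj_nonneg hη0 j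
  have c2 := cells_sq J (wj η) (fun j => XA F U1 U2 κ L (x + h + 2 * j / L))
    fun j _ => wj_nonneg hη0 j
  have hsm : 0 ≤ ∑ j ∈ J, wj η j * XA F U1 U2 κ L (x - h + 2 * j / L) ^ 2 :=
    Finset.sum_nonneg fun j _ => mul_nonneg (wj_nonneg hη0 j) (sq_nonneg _)
  have hsp : 0 ≤ ∑ j ∈ J, wj η j * XA F U1 U2 κ L (x + h + 2 * j / L) ^ 2 :=
    Finset.sum_nonneg fun j _ => mul_nonneg (wj_nonneg hη0 j) (sq_nonneg _)
  have hEm0 : 0 ≤ ∑ j ∈ J, wj η j * XA F U1 U2 κ L (x - h + 2 * j / L) :=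
    Finset.sum_nonneg fun j _ => mul_nonneg (wj_nonneg hη0 j) (XA_nonneg _ _ _ _ _ _)
  have hEp0 : 0 ≤ ∑ j ∈ J, wj η j * XA F U1 U2 κ L (x + h + 2 * j / L) :=
    Finset.sum_nonneg fun j _ => mul_nonneg (wj_nonneg hη0 j) (XA_nonneg _ _ _ _ _ _)
  have d1 := c1.trans (mul_le_mul_of_nonneg_right hWJ hsm)
  have d2 := c2.trans (mul_le_mul_of_nonneg_right hWJ hsp)
  have hp1 : 0 ≤ ‖RP (Finset.Icc 1 Yn) (ca a g) x‖ := norm_nonneg _
  have hp2 : 0 ≤ ‖RP (Finset.Icc 1 Yn) (cb a g) x‖ := norm_nonneg _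
  generalize ∑ j ∈ J, wj η j * XA F U1 U2 κ L (x - h + 2 * j / L) = Em at *
  generalize ∑ j ∈ J, wj η j * XA F U1 U2 κ L (x + h + 2 * j / L) = Ep at *
  generalize W * ∑ j ∈ J, wj η j * XA F U1 U2 κ L (x - h + 2 * j / L) ^ 2 = Wm at *
  generalize W * ∑ j ∈ J, wj η j * XA F U1 U2 κ L (x + h + 2 * j / L) ^ 2 = Wp at *
  generalize ‖RP (Finset.Icc 1 Yn) (ca a g) x‖ = P1 at *
  generalize ‖RP (Finset.Icc 1 Yn) (cb a g) x‖ = P2 at *
  have hb5 : |na F U1 U2 h x - X| ≤ M0 + Ce * Em + Ce * Ep + P1 + P2 := by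
    refine hpb.trans ?_
    linarith
  have h1 : (na F U1 U2 h x - X) ^ 2 ≤ (M0 + Ce * Em + Ce * Ep + P1 + P2) ^ 2 := by
    rw [← sq_abs (na F U1 U2 h x - X)]
    exact pow_le_pow_left₀ (abs_nonneg _) hb5 2
  refine h1.trans ((five_sq _ _ _ _ _).trans ?_)
  have d3 := mul_le_mul_of_nonneg_left d1 (sq_nonneg Ce)
  have d4 := mul_le_mul_of_nonneg_left d2 (sq_nonneg Ce)
  have d5 : (Ce * Em) ^ 2 = Ce ^ 2 * Em ^ 2 := by ring
  have d6 : (Ce * Ep) ^ 2 = Ce ^ 2 * Ep ^ 2 := by ring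
  rw [d5, d6]
  linarith

/-- the sums over the cells -/
lemma nv_cells {Z : Finset ℂ} {J : Finset ℤ} {w : ℤ → ℝ} {μ : ℂ → ℝ} {f : ℤ → ℂ → ℝ} {W A : ℝ}
    (hw : ∀ j, 0 ≤ w j) (hW : ∑ j ∈ J, w j ≤ W) (hA : 0 ≤ A)
    (h : ∀ j ∈ J, ∑ s ∈ Z, μ s * f j s ≤ A) :
    ∑ s ∈ Z, μ s * ∑ j ∈ J, w j * f j s ≤ W * A := by
  have e1 : ∑ s ∈ Z, μ s * ∑ j ∈ J, w j * f j s = ∑ j ∈ J, w j * ∑ s ∈ Z, μ s * f j s := by
    simp only [Finset.mul_sum]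
    rw [Finset.sum_comm]
    refine Finset.sum_congr rfl fun j _ => Finset.sum_congr rfl fun s _ => ?_
    ring
  rw [e1]
  calc _ ≤ ∑ j ∈ J, w j * A :=
        Finset.sum_le_sum fun j hj => mul_le_mul_of_nonneg_left (h j hj) (hw j)
    _ = (∑ j ∈ J, w j) * A := by rw [Finset.sum_mul]
    _ ≤ W * A := mul_le_mul_of_nonneg_right hW hA

lemma nv_jbound {L : ℝ} (hL0 : 0 < L) (hL7 : 7 ≤ L) {j : ℤ}
    (hj : j ∈ Finset.Icc (-(⌈L ^ 2⌉₊ : ℤ)) ⌈L ^ 2⌉₊) {y T : ℝ} (hy : |y| ≤ 2) (hT : 200 ≤ T)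
    (hLT : L ≤ T / 100) : |y + 2 * j / L| ≤ T / 10 := by
  have hj' : |(j : ℝ)| ≤ L ^ 2 + 1 := by
    rw [Finset.mem_Icc] at hj
    have h1 : ((⌈L ^ 2⌉₊ : ℕ) : ℝ) ≤ L ^ 2 + 1 := (Nat.ceil_lt_add_one (sq_nonneg L)).le
    have h2 : |(j : ℝ)| ≤ ((⌈L ^ 2⌉₊ : ℕ) : ℝ) := by
      rw [abs_le]
      constructor
      · have := hj.1
        exact_mod_cast this
      · have := hj.2
        exact_mod_cast this
    exact h2.trans h1
  refine (abs_add_le _ _).trans ?_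
  rw [abs_div, abs_mul, abs_two, abs_of_pos hL0]
  have h1 : 2 * |(j : ℝ)| / L ≤ 2 * L + 1 := by
    rw [div_le_iff₀ hL0]
    nlinarith
  linarith

/-- **NV7** -/
theorem nv {F : ℂ → ℂ} (hF : GoodL F) (hwdz : S_wdz3 F) (hxz : S_xz F) (hnwin : S_nwin)
    (hngs : S_ngs) (hcn : S_cn) (her : S_er) : S_nv F := by
  classical
  intro β hβ0 hβ1
  obtain ⟨Cw, hCw, hwin⟩ := hnwin
  obtain ⟨Cg, hCg, hgs⟩ := hngs
  obtain ⟨κ, Cx, Tx, hκ, hκ1, hCx, hTx, hxz⟩ := hxz β hβ0 hβ1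
  obtain ⟨Ce, hCe, her⟩ := her hF Cw hCw
  obtain ⟨Cz, Tz, hCz, hTz, hwz⟩ := hwdz β β hβ0 hβ1 hβ0
  obtain ⟨Cp, Tp, hCp, hTp, hpz⟩ := pz hwdz hcn hβ0 hβ1 (C0 := Cg) (by linarith)
  obtain ⟨a, Cf, ha, hCf, hef⟩ := ef hF
  obtain ⟨Tf, hTf, hef⟩ := hef (1 / 8) (by norm_num) (by norm_num)
  obtain ⟨CN, hCN, hNN⟩ := NN_crude hF
  obtain ⟨η, hη0, hηκ, hηβ⟩ : ∃ η : ℝ, 0 < η ∧ η ≤ κ / 2 ∧ η ≤ β / 4 :=
    ⟨min (κ / 2) (β / 4), lt_min (by positivity) (by positivity), min_le_left _ _,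
      min_le_right _ _⟩
  obtain ⟨W, hW, hWs⟩ := wj_sum hη0
  have hS2 := Efaux.S2_nonneg
  have hpi := Real.pi_pos
  have hCg0 : 0 < Cg := by linarith
  have hCw0 : 0 < Cw := by linarith
  obtain ⟨M0, hM00, hM0⟩ : ∃ M0 : ℝ, 0 < M0 ∧ Ce + Cf * Real.sqrt Cg +
      (Cg * (Cw / η + 1) + 1) + 2 * (2 * Cg * Efaux.S2) ≤ M0 :=
    ⟨_, by positivity, le_refl _⟩
  refine ⟨5 * (M0 ^ 2 * Cz + 2 * (Ce ^ 2 * W ^ 2 * Cx) + 20 * Cp), by positivity, ?_⟩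
  intro B hB
  obtain ⟨Tq, hTq, hpar⟩ := nv_params B η κ CN
  refine ⟨max (max Tx Tz) (max Tp (max (2 * Tf) Tq)), hTx.trans ((le_max_left _ _).trans
    (le_max_left _ _)), ?_⟩
  intro T hT N K hN hK1 hK2 S hS r u v hu huv hv
  have g1 : Tx ≤ T := ((le_max_left _ _).trans (le_max_left _ _)).trans hT
  have g2 : Tz ≤ T := ((le_max_right _ _).trans (le_max_left _ _)).trans hT
  have g3 : Tp ≤ T := ((le_max_left _ _).trans (le_max_right _ _)).trans hT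
  have g4 : 2 * Tf ≤ T :=
    ((le_max_left _ _).trans ((le_max_right _ _).trans (le_max_right _ _))).trans hT
  have g5 : Tq ≤ T :=
    ((le_max_right _ _).trans ((le_max_right _ _).trans (le_max_right _ _))).trans hT
  obtain ⟨q1, q2q, q3, q4, q5, q6, q8, q7⟩ := hpar T g5
  clear hpar hT
  have hT200 : 200 ≤ T := hTq.trans g5
  have hTpos : 0 < T := by linarith
  obtain ⟨l1, l2, l3⟩ := nv_L1 hT200
  -- the explicit formula
  obtain ⟨U1, U2, hU1, hU1', hU2, hU2', hef⟩ := hef (9 / 10 * T) (by linarith)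
  have hU11 : 1 ≤ U1 := by linarith
  have hcount : (∑ s ∈ Zf F U1 U2, (mult F s : ℝ)) *
      Real.exp (Real.log T / 2 - Real.log T ^ 2 / 2) ≤ 1 := by
    refine nv_count hT200 hCN q1 q4 ?_
    have := hNN (9 / 10 * T) (by linarith) U1 U2 hU1 hU2'
    rw [NN_eq hF hU11, Nat.cast_sum] at this
    exact this
  have hK0 : 0 ≤ K := le_trans (by positivity) hK1
  have hNT : N ≤ T := by
    have h1 : N ≤ K := by
      refine le_trans ?_ hK1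
      exact le_mul_of_one_le_right (by linarith)
        (Real.one_le_rpow (by linarith) (by linarith))
    linarith
  obtain ⟨D, hD⟩ : ∃ D : ℝ, D = 2 * Real.pi * B := ⟨_, rfl⟩
  rw [← hD] at q2q q3 q6 q8
  have hD0 : 0 < D := by rw [hD]; positivity
  obtain ⟨L, hL⟩ : ∃ L : ℝ, L = Real.log T := ⟨_, rfl⟩
  obtain ⟨L1, hL1⟩ : ∃ L1 : ℝ, L1 = Real.log (9 / 10 * T) := ⟨_, rfl⟩
  have hL0 : 0 < L := by rw [hL]; linarith
  obtain ⟨X, hX⟩ : ∃ X : ℝ, X = v - u := ⟨_, rfl⟩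
  have hX0 : 0 < X := by rw [hX]; linarith
  have hX2B : X ≤ 2 * B := by rw [hX]; linarith
  obtain ⟨h, hh⟩ : ∃ h : ℝ, h = Real.pi * (v - u) / L := ⟨_, rfl⟩
  obtain ⟨c, hc⟩ : ∃ c : ℝ, c = Real.pi * (u + v) / L := ⟨_, rfl⟩
  rw [← hL] at q1 q2q q3 q4 q5 q6 q8 q7 l2 l3 hcount ⊢
  rw [← hL1] at l1 l2 l3
  rw [← hh, ← hc, ← hX]
  have hh0 : 0 < h := by rw [hh, ← hX]; positivity
  have hhL : h * L = Real.pi * X := by
    rw [hh, ← hX]
    field_simp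
  have hhD : h * L ≤ D := by
    rw [hhL, hD]
    have := mul_le_mul_of_nonneg_left hX2B hpi.le
    linarith
  have hhD' : h ≤ D / L := by
    rw [le_div_iff₀ hL0]
    exact hhD
  have hDL1 : D / L ≤ 1 / 4 := by
    rw [div_le_iff₀ hL0]
    linarith
  have hh1 : h ≤ 1 := by linarith
  have hcq : |c| ≤ D / L := by
    rw [hc, abs_div, abs_of_pos hL0]
    apply div_le_div_of_nonneg_right _ hL0.le
    rw [abs_mul, abs_of_pos hpi, hD]
    have h2 : |u + v| ≤ 2 * B := by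
      rw [abs_le]
      constructor <;> linarith
    have := mul_le_mul_of_nonneg_left h2 hpi.le
    linarith
  have hcab := abs_le.1 hcq
  have hk : h / Real.pi = X / L := by
    rw [hh, ← hX]
    field_simp
  have hXL : X ≤ L := by
    have h1 : X ≤ D := by
      refine hX2B.trans ?_
      rw [hD]
      nlinarith [Real.pi_gt_three]
    linarith
  have hb12 : 12 ≤ η * L := by
    rw [div_le_iff₀ hη0] at q5
    linarith
  obtain ⟨G, g, hbw, hgb, hGb⟩ := hwin (η * L) h (by linarith) hh0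
  obtain ⟨hq2, hgsb, hgst, hgs0⟩ := hgs (η * L) h Cw G g (by linarith) hh0 hh1 hCw hbw hgb (by
    intro x
    have := hGb x
    simpa using this)
  have hη8 : η ≤ 1 / 8 := by linarith
  have hM1 : ‖(L1 : ℂ) * gs g 0 - (X : ℂ)‖ ≤ Cg * (Cw / η + 1) + 1 :=
    nv_M1 hL0 l1 l2 l3 hη0 hCg0 hD0 (nv_D3 hκ hκ1 hD0 q3) hh0 hhD' hX0 hXL hk hgs0
  have hEf : Cf * Real.sqrt (q2 g) ≤ Cf * Real.sqrt Cg :=
    mul_le_mul_of_nonneg_left (Real.sqrt_le_sqrt hq2) hCf.le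
  -- lengths
  obtain ⟨Y, hY⟩ : ∃ Y : ℝ, Y = Real.exp (2 * (η * L)) := ⟨_, rfl⟩
  have hYT : Y ≤ T ^ (β / 2) := by
    rw [hY, Real.rpow_def_of_pos hTpos, ← hL]
    apply Real.exp_le_exp.2
    have := mul_le_mul_of_nonneg_right hηβ hL0.le
    linarith
  have hY1 : 1 ≤ Y := by
    rw [hY]
    exact Real.one_le_exp (by positivity)
  have hYX := nv_YX hT200 hβ0 hβ1 hYT
  -- the tails
  have hsc : ∀ n : ℕ, ((Real.sqrt n : ℂ))⁻¹ = ((Real.sqrt n)⁻¹ : ℝ) := fun n => by push_cast; rfl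
  have hcb : ∀ n : ℕ, cb a g n = a n * (Real.sqrt n : ℂ)⁻¹ * conj (gs g (0 + Real.log n)) := by
    intro n
    unfold cb
    rw [map_mul, map_mul, Complex.conj_conj, hsc, Complex.conj_ofReal]
  have htail1 : ∑ n ∈ Finset.Icc 1 ⌊(9 / 10 * T) ^ (1 - 1 / 8 : ℝ)⌋₊ \ Finset.Icc 1 ⌊Y⌋₊,
      ‖ca a g n‖ ≤ 2 * Cg * Efaux.S2 := by
    rw [hY]
    refine tail_le ha (c := fun n => gs g (0 - Real.log n)) hCg0.le hb12 ?_
    intro n hn
    have h1 := hgst (0 - Real.log n) (by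
      rw [zero_sub, abs_neg]
      exact hn.trans (le_abs_self _))
    refine h1.trans (le_of_eq ?_)
    rw [zero_sub, neg_sq]
  have htail2 : ∑ n ∈ Finset.Icc 1 ⌊(9 / 10 * T) ^ (1 - 1 / 8 : ℝ)⌋₊ \ Finset.Icc 1 ⌊Y⌋₊,
      ‖cb a g n‖ ≤ 2 * Cg * Efaux.S2 := by
    rw [hY]
    simp_rw [hcb]
    refine tail_le ha (c := fun n => conj (gs g (0 + Real.log n))) hCg0.le hb12 ?_
    intro n hn
    simp only [RCLike.norm_conj, zero_add]
    exact hgst (Real.log n) (hn.trans (le_abs_self _))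
  have hcond : (1 + η * L * h) ^ 3 * (h ^ 2 + 8 / (κ * L) ^ 2) ≤ 1 :=
    nv_cond hη0 (by linarith) hκ hL0 hh0 hhD hhD' hD0 q3
  have hV0 : 0 ≤ K * L * w1 S r := mul_nonneg (mul_nonneg hK0 hL0.le) (w1_nonneg S r)
  have hWJ := hWs ⌈L ^ 2⌉₊
  have hμ0 : ∀ s : ℂ, 0 ≤ (mult F s : ℝ) * ‖RP S r s.im‖ ^ 2 :=
    fun s => mul_nonneg (Nat.cast_nonneg _) (sq_nonneg _)
  have hlogn : ∀ n : ℕ, 0 ≤ Real.log (n : ℝ) := fun n => Real.log_natCast_nonneg n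
  -- the zeros
  have hS0 : ∑ s ∈ Zf F T (T + K), (mult F s : ℝ) * ‖RP S r s.im‖ ^ 2 ≤
      Cz * (K * L * w1 S r) := by
    have h1 := hwz T g2 N K hN hK1 hK2 S hS r 0 le_rfl
    rw [mul_zero, neg_zero, Real.exp_zero, mul_one, ← hL] at h1
    refine le_trans (le_of_eq ?_) h1
    rw [Finset.filter_true_of_mem (fun s _ => mul_nonneg (abs_nonneg _) hL0.le)]
  have hcell : ∀ (y : ℝ), |y| ≤ 2 → ∀ j ∈ Finset.Icc (-(⌈L ^ 2⌉₊ : ℤ)) ⌈L ^ 2⌉₊,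
      ∑ s ∈ Zf F T (T + K), (mult F s : ℝ) * ‖RP S r s.im‖ ^ 2 *
        XA F U1 U2 κ L (s.im + (y + 2 * j / L)) ^ 2 ≤ Cx * (K * L * w1 S r) := by
    intro y hy j hj
    have hsh := nv_jbound hL0 q1 hj hy hT200 q7
    have h1 := hxz T g1 N K hN hK1 hK2 S hS r U1 U2 (y + 2 * j / L) hU11 hsh
    rw [← hL] at h1
    refine le_trans (le_of_eq ?_) h1
    refine Finset.sum_congr rfl fun s _ => ?_
    ring
  have hSm := nv_cells (fun j => wj_nonneg hη0 j) hWJ (mul_nonneg hCx.le hV0)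
    (hcell (c - h) (by
      rw [abs_le]
      constructor <;> linarith [hcab.1, hcab.2]))
  have hSp := nv_cells (fun j => wj_nonneg hη0 j) hWJ (mul_nonneg hCx.le hV0)
    (hcell (c + h) (by
      rw [abs_le]
      constructor <;> linarith [hcab.1, hcab.2]))
  have hSp1 := hpz T g3 N K hN hK1 hK2 S hS r h Y hh0 hh1 hY1 hYT a
      (fun n => gs g (0 - Real.log n) * mn n 1 c) ha (fun n => by
        rw [norm_mul, mn_norm, mul_one]
        have h2 := hgsb (0 - Real.log n)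
        rw [zero_sub, abs_neg, abs_of_nonneg (hlogn n)] at h2
        rw [zero_sub]
        exact h2)
  have hSp2 := hpz T g3 N K hN hK1 hK2 S hS r h Y hh0 hh1 hY1 hYT a
      (fun n => conj (gs g (0 + Real.log n)) * mn n 1 c) ha (fun n => by
        rw [norm_mul, mn_norm, mul_one, RCLike.norm_conj]
        have h2 := hgsb (0 + Real.log n)
        rw [zero_add, abs_of_nonneg (hlogn n)] at h2
        rw [zero_add]
        exact h2)
  have hΦΨ := nv_phi (D := D) hX0 hL0 hL hη0 hη8 hh0 hhD' hhL hN hNT q6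
  rw [← hY] at hΦΨ
  have hΨ1 : 1 ≤ 1 + Real.log (1 + X) + (X * (Real.log N / L)) ^ 2 := by
    have h1 := sq_nonneg (X * (Real.log N / L))
    have h2 : 0 ≤ Real.log (1 + X) := Real.log_nonneg (by linarith)
    linarith
  refine nv_fin (xm := fun j s => XA F U1 U2 κ L (s.im + (c - h + 2 * j / L)))
    (xp := fun j s => XA F U1 U2 κ L (s.im + (c + h + 2 * j / L)))
    (μ := fun s => (mult F s : ℝ) * ‖RP S r s.im‖ ^ 2)
    (Q := fun s => (na F (T - 1) (T + K + 1) h (s.im + c) - X) ^ 2)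
    (p1 := fun s => ‖RP (Finset.Icc 1 ⌊Y⌋₊) (fun n => a n * (Real.sqrt n : ℂ)⁻¹ *
      (gs g (0 - Real.log n) * mn n 1 c)) s.im‖)
    (p2 := fun s => ‖RP (Finset.Icc 1 ⌊Y⌋₊) (fun n => a n * (Real.sqrt n : ℂ)⁻¹ *
      (conj (gs g (0 + Real.log n)) * mn n 1 c)) s.im‖)
    (w := wj η) (J := Finset.Icc (-(⌈L ^ 2⌉₊ : ℤ)) ⌈L ^ 2⌉₊)
    hμ0 hW hCx hCz hCp hV0 hΨ1 hΦΨ ?_ hS0 hSm hSp ?_ ?_
  · intro s hs
    rw [mem_Zf hF (by linarith)] at hs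
    obtain ⟨-, -, hs1, hs2, -⟩ := hs
    have hna := na_congr hF (V1 := T - 1) (V2 := T + K + 1) (U1 := U1) (U2 := U2) (h := h)
      (x := s.im + c) (by linarith) hU11 (by linarith) (by linarith) (by linarith) (by linarith)
    have her' := her η κ L h U1 U2 (s.im + c) G hη0 hηκ hκ1 (by linarith) hh0 hh1 hU11
      hGb hcond hcount
    have hefx := (hef (η * L) G g hbw 0 (s.im + c) (by
      rw [abs_zero, zero_add, ← hL1]
      have h1 := mul_le_mul_of_nonneg_right hη8 hL0.le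
      linarith) (by rw [← hL1]; linarith) (by rw [← hL1]; linarith)).trans hEf
    rw [← hL1] at hefx
    have hpp := nv_point hη0 hCe her' hefx hM1 hYX htail1 htail2 hM0 hWJ
    beta_reduce
    rw [hna]
    refine hpp.trans (le_of_eq ?_)
    have eP1 : ‖RP (Finset.Icc 1 ⌊Y⌋₊) (ca a g) (s.im + c)‖ =
        ‖RP (Finset.Icc 1 ⌊Y⌋₊) (fun n => a n * (Real.sqrt n : ℂ)⁻¹ *
          (gs g (0 - Real.log n) * mn n 1 c)) s.im‖ := by
      rw [RP_shift]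
      congr 2
      funext n
      unfold ca
      ring
    have eP2 : ‖RP (Finset.Icc 1 ⌊Y⌋₊) (cb a g) (s.im + c)‖ =
        ‖RP (Finset.Icc 1 ⌊Y⌋₊) (fun n => a n * (Real.sqrt n : ℂ)⁻¹ *
          (conj (gs g (0 + Real.log n)) * mn n 1 c)) s.im‖ := by
      rw [RP_shift]
      congr 2
      funext n
      rw [hcb]
      ring
    have ex1 : ∀ j : ℤ, s.im + c - h + 2 * j / L = s.im + (c - h + 2 * j / L) := fun j => by ring
    have ex2 : ∀ j : ℤ, s.im + c + h + 2 * j / L = s.im + (c + h + 2 * j / L) := fun j => by ring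
    simp only [eP1, eP2, ex1, ex2]
  · rw [← hL] at hSp1
    refine le_trans (le_of_eq ?_) hSp1
    refine Finset.sum_congr rfl fun s _ => ?_
    ring
  · rw [← hL] at hSp2
    refine le_trans (le_of_eq ?_) hSp2
    refine Finset.sum_congr rfl fun s _ => ?_
    ring

end Pool.Agent.N802.NV
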