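import Pool.Agent.N802.NV.Pt
import Pool.Agent.H370R2.PC2

/-!
# The number variance: numerical lemmas
-/

open Complex Filter Topology Set MeasureTheory
open scoped BigOperators ComplexConjugate

set_option autoImplicit false

namespace Pool.Agent.N802.NV

open H370 hiding pt
open TC Pool.Agent.N802.U Pool.Agent.N802.WD
open U.FMaux (ca cb PD_eq)

lemma five_sq (a b c d e : ℝ) :
    (a + b + c + d + e) ^ 2 ≤ 5 * (a ^ 2 + b ^ 2 + c ^ 2 + d ^ 2 + e ^ 2) := by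
  nlinarith [sq_nonneg (a - b), sq_nonneg (a - c), sq_nonneg (a - d), sq_nonneg (a - e),
    sq_nonneg (b - c), sq_nonneg (b - d), sq_nonneg (b - e), sq_nonneg (c - d),
    sq_nonneg (c - e), sq_nonneg (d - e)]

/-- the numerical facts -/
lemma nv_params (B η κ CN : ℝ) : ∃ T0 : ℝ, 200 ≤ T0 ∧ ∀ T : ℝ, T0 ≤ T →
    7 ≤ Real.log T ∧ 2 * Real.pi * B ≤ Real.log T ∧
    (1 + 2 * Real.pi * B) ^ 3 * ((2 * Real.pi * B) ^ 2 + 8 / κ ^ 2) ≤ Real.log T ^ 2 ∧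
    Real.log CN ≤ Real.log T ∧ 12 / η ≤ Real.log T ∧ 2 * (2 * Real.pi * B) ^ 2 ≤ Real.log T ∧
    4 * (2 * Real.pi * B) ≤ Real.log T ∧ Real.log T ≤ T / 100 := by
  have hlog := Real.tendsto_log_atTop
  have hl2 : Tendsto (fun T : ℝ => Real.log T ^ 2) atTop atTop :=
    (tendsto_pow_atTop (by norm_num)).comp hlog
  have e3 : ∀ᶠ T : ℝ in atTop, Real.log T ≤ T / 100 := by
    have h := Real.isLittleO_log_id_atTop.bound (show (0 : ℝ) < 1 / 100 by norm_num)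
    filter_upwards [h, eventually_ge_atTop 1] with T hT hT1
    simp only [id] at hT
    rw [Real.norm_of_nonneg (Real.log_nonneg hT1), Real.norm_of_nonneg (by linarith)] at hT
    linarith
  have ev := ((hlog.eventually_ge_atTop 7).and ((hlog.eventually_ge_atTop (2 * Real.pi * B)).and
    ((hl2.eventually_ge_atTop ((1 + 2 * Real.pi * B) ^ 3 *
      ((2 * Real.pi * B) ^ 2 + 8 / κ ^ 2))).and ((hlog.eventually_ge_atTop (Real.log CN)).and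
    ((hlog.eventually_ge_atTop (12 / η)).and
    ((hlog.eventually_ge_atTop (2 * (2 * Real.pi * B) ^ 2)).and
    ((hlog.eventually_ge_atTop (4 * (2 * Real.pi * B))).and e3)))))))
  obtain ⟨T0, hT0⟩ := eventually_atTop.1 ev
  refine ⟨max 200 T0, le_max_left _ _, fun T hT => ?_⟩
  exact hT0 T ((le_max_right _ _).trans hT)

lemma nv_L1 {T : ℝ} (hT : 200 ≤ T) : 0 ≤ Real.log (9 / 10 * T) ∧
    Real.log (9 / 10 * T) ≤ Real.log T ∧ Real.log T - Real.log (9 / 10 * T) ≤ 1 / 2 := by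
  refine ⟨Real.log_nonneg (by linarith), Real.log_le_log (by linarith) (by linarith), ?_⟩
  have h1 : Real.log T - Real.log (9 / 10 * T) = Real.log (T / (9 / 10 * T)) := by
    rw [Real.log_div (by linarith) (by linarith)]
  have h2 : T / (9 / 10 * T) ≤ 3 / 2 := by
    rw [div_le_iff₀ (by linarith)]
    linarith
  have h3 := Real.log_le_sub_one_of_pos (x := T / (9 / 10 * T)) (by positivity)
  linarith

lemma nv_count {SM CN T : ℝ} (hT : 200 ≤ T) (hCN : 0 < CN) (hL7 : 7 ≤ Real.log T)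
    (hq : Real.log CN ≤ Real.log T)
    (h1 : SM ≤ CN * (9 / 10 * T * Real.log (9 / 10 * T))) :
    SM * Real.exp (Real.log T / 2 - Real.log T ^ 2 / 2) ≤ 1 := by
  obtain ⟨a1, a2, -⟩ := nv_L1 hT
  generalize hL1 : Real.log (9 / 10 * T) = L1 at h1 a1 a2
  have k1 : 9 / 10 * T ≤ Real.exp (Real.log T) := by
    rw [Real.exp_log (by linarith)]
    linarith
  generalize Real.log T = L at *
  have k2 : L1 ≤ Real.exp L := by
    have := Real.add_one_le_exp L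
    linarith
  have h2 : 9 / 10 * T * L1 ≤ Real.exp L * Real.exp L :=
    mul_le_mul k1 k2 a1 (Real.exp_pos _).le
  have h3 : CN ≤ Real.exp L := by
    rw [← Real.exp_log hCN]
    exact Real.exp_le_exp.2 hq
  have h4 : SM ≤ Real.exp L * (Real.exp L * Real.exp L) :=
    h1.trans (mul_le_mul h3 h2 (mul_nonneg (by linarith) a1) (Real.exp_pos _).le)
  calc SM * Real.exp (L / 2 - L ^ 2 / 2) ≤
      (Real.exp L * (Real.exp L * Real.exp L)) * Real.exp (L / 2 - L ^ 2 / 2) :=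
        mul_le_mul_of_nonneg_right h4 (Real.exp_pos _).le
    _ = Real.exp (L + (L + L) + (L / 2 - L ^ 2 / 2)) := by
        rw [← Real.exp_add, ← Real.exp_add, ← Real.exp_add]
    _ ≤ 1 := by
        rw [Real.exp_le_one_iff]
        nlinarith

lemma nv_cond {η κ L h D : ℝ} (hη : 0 < η) (hη1 : η ≤ 1) (hκ : 0 < κ) (hL : 0 < L) (hh : 0 < h)
    (hhD : h * L ≤ D) (hhD' : h ≤ D / L) (hD0 : 0 < D)
    (q3 : (1 + D) ^ 3 * (D ^ 2 + 8 / κ ^ 2) ≤ L ^ 2) :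
    (1 + η * L * h) ^ 3 * (h ^ 2 + 8 / (κ * L) ^ 2) ≤ 1 := by
  have k1 : η * L * h ≤ D := by
    calc η * L * h = η * (h * L) := by ring
      _ ≤ 1 * D := mul_le_mul hη1 hhD (by positivity) zero_le_one
      _ = D := one_mul D
  have k2 : (1 + η * L * h) ^ 3 ≤ (1 + D) ^ 3 :=
    pow_le_pow_left₀ (by positivity) (by linarith) 3
  have k3 : h ^ 2 + 8 / (κ * L) ^ 2 ≤ (D ^ 2 + 8 / κ ^ 2) / L ^ 2 := by
    have k4 : h ^ 2 ≤ (D / L) ^ 2 := pow_le_pow_left₀ hh.le hhD' 2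
    have k5 : (D ^ 2 + 8 / κ ^ 2) / L ^ 2 = (D / L) ^ 2 + 8 / (κ * L) ^ 2 := by
      field_simp
    rw [k5]
    linarith
  calc (1 + η * L * h) ^ 3 * (h ^ 2 + 8 / (κ * L) ^ 2) ≤
      (1 + D) ^ 3 * ((D ^ 2 + 8 / κ ^ 2) / L ^ 2) :=
        mul_le_mul k2 k3 (by positivity) (by positivity)
    _ = (1 + D) ^ 3 * (D ^ 2 + 8 / κ ^ 2) / L ^ 2 := by ring
    _ ≤ 1 := by
        rw [div_le_one (by positivity)]
        exact q3

lemma nv_D3 {κ L D : ℝ} (hκ : 0 < κ) (hκ1 : κ ≤ 1) (hD0 : 0 < D)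
    (q3 : (1 + D) ^ 3 * (D ^ 2 + 8 / κ ^ 2) ≤ L ^ 2) : D ^ 3 ≤ L ^ 2 := by
  refine le_trans ?_ q3
  have h1 : (1 : ℝ) ≤ 8 / κ ^ 2 := by
    rw [le_div_iff₀ (by positivity)]
    nlinarith
  have h2 : D ^ 3 ≤ (1 + D) ^ 3 := pow_le_pow_left₀ hD0.le (by linarith) 3
  have h3 : 0 ≤ (1 + D) ^ 3 := by positivity
  have h4 : 1 ≤ D ^ 2 + 8 / κ ^ 2 := by
    have := sq_nonneg D
    linarith
  calc D ^ 3 ≤ (1 + D) ^ 3 * 1 := by rw [mul_one]; exact h2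
    _ ≤ _ := mul_le_mul_of_nonneg_left h4 h3

lemma nv_M1 {z : ℂ} {L L1 X h η Cg Cw D : ℝ} (hL : 0 < L) (hL10 : 0 ≤ L1) (hL1 : L1 ≤ L)
    (hLd : L - L1 ≤ 1 / 2) (hη : 0 < η) (hCg : 0 < Cg) (hD : 0 < D) (hD3 : D ^ 3 ≤ L ^ 2)
    (hh0 : 0 < h) (hhD' : h ≤ D / L) (hX0 : 0 < X) (hXL : X ≤ L) (hk : h / Real.pi = X / L)
    (hz : ‖z - ((h / Real.pi : ℝ) : ℂ)‖ ≤ Cg * (Cw / (η * L) + h ^ 3)) :
    ‖(L1 : ℂ) * z - (X : ℂ)‖ ≤ Cg * (Cw / η + 1) + 1 := by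
  have e1 : (L1 : ℂ) * z - (X : ℂ) = (L1 : ℂ) * (z - ((h / Real.pi : ℝ) : ℂ)) +
      ((L1 * (h / Real.pi) - X : ℝ) : ℂ) := by
    push_cast
    ring
  rw [e1]
  refine (norm_add_le _ _).trans ?_
  rw [norm_mul, Complex.norm_real, Complex.norm_real, Real.norm_of_nonneg hL10,
    Real.norm_eq_abs]
  have h1 : L1 * ‖z - ((h / Real.pi : ℝ) : ℂ)‖ ≤ Cg * (Cw / η + 1) := by
    calc L1 * ‖z - ((h / Real.pi : ℝ) : ℂ)‖ ≤ L * (Cg * (Cw / (η * L) + h ^ 3)) :=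
          mul_le_mul hL1 hz (norm_nonneg _) hL.le
      _ = Cg * (Cw / (η * L) * L + L * h ^ 3) := by ring
      _ ≤ Cg * (Cw / η + 1) := by
          apply mul_le_mul_of_nonneg_left _ hCg.le
          have k1 : Cw / (η * L) * L = Cw / η := by
            field_simp
          have k2 : L * h ^ 3 ≤ 1 := by
            have k3 : L * h ^ 3 ≤ L * (D / L) ^ 3 := by
              apply mul_le_mul_of_nonneg_left _ hL.le
              exact pow_le_pow_left₀ hh0.le hhD' 3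
            refine k3.trans ?_
            have k4 : L * (D / L) ^ 3 = D ^ 3 / L ^ 2 := by
              field_simp
            rw [k4, div_le_one (by positivity)]
            exact hD3
          linarith
  have h2 : |L1 * (h / Real.pi) - X| ≤ 1 := by
    rw [hk]
    have k2 : L1 * (X / L) - X = -(X / L * (L - L1)) := by
      field_simp
      ring
    rw [k2, abs_neg, abs_of_nonneg (mul_nonneg (by positivity) (by linarith))]
    have k3 : X / L ≤ 1 := by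
      rw [div_le_one hL]
      exact hXL
    have k4 : X / L * (L - L1) ≤ 1 * (1 / 2) :=
      mul_le_mul k3 hLd (by linarith) zero_le_one
    linarith
  linarith

lemma nv_YX {T β : ℝ} (hT : 200 ≤ T) (hβ0 : 0 < β) (hβ1 : β < 1 / 2) {Y : ℝ}
    (hYT : Y ≤ T ^ (β / 2)) : ⌊Y⌋₊ ≤ ⌊(9 / 10 * T) ^ (1 - 1 / 8 : ℝ)⌋₊ := by
  apply Nat.floor_le_floor
  refine hYT.trans ?_
  have h1 : T ^ (β / 2) ≤ T ^ (7 / 16 : ℝ) :=
    Real.rpow_le_rpow_of_exponent_le (by linarith) (by linarith)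
  refine h1.trans ?_
  have h2 : T ^ (1 / 2 : ℝ) ≤ 9 / 10 * T := by
    have h3 : T ^ (1 / 2 : ℝ) = Real.sqrt T := (Real.sqrt_eq_rpow T).symm
    rw [h3]
    rw [Real.sqrt_le_left (by positivity)]
    nlinarith
  calc T ^ (7 / 16 : ℝ) = (T ^ (1 / 2 : ℝ)) ^ (1 - 1 / 8 : ℝ) := by
        rw [← Real.rpow_mul (by linarith)]
        norm_num
    _ ≤ (9 / 10 * T) ^ (1 - 1 / 8 : ℝ) := Real.rpow_le_rpow (by positivity) h2 (by norm_num)

lemma nv_phi {X h L η D T N : ℝ} (hX0 : 0 < X) (hL : 0 < L) (hLT : L = Real.log T)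
    (hη : 0 < η) (hη8 : η ≤ 1 / 8)
    (hh0 : 0 < h) (hhD' : h ≤ D / L) (hhL : h * L = Real.pi * X) (hN : 1 ≤ N) (hNT : N ≤ T)
    (q6 : 2 * D ^ 2 ≤ L) :
    1 + Real.log (1 + h * Real.log (Real.exp (2 * (η * L)))) + (h * Real.log N) ^ 2 +
      h ^ 2 * (Real.log N + Real.log (Real.exp (2 * (η * L)))) ≤
      10 * (1 + Real.log (1 + X) + (X * (Real.log N / L)) ^ 2) := by
  have hpi := Real.pi_pos
  have hpi3 := Real.pi_gt_three
  have hpi4 := Real.pi_lt_d2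
  have hlogX : 0 ≤ Real.log (1 + X) := Real.log_nonneg (by linarith)
  rw [Real.log_exp]
  have hN0 : 0 ≤ Real.log N := Real.log_nonneg hN
  have hNL : Real.log N ≤ L := by
    rw [hLT]
    exact Real.log_le_log (by linarith) hNT
  have k1 : Real.log (1 + h * (2 * (η * L))) ≤ Real.log (1 + X) := by
    apply Real.log_le_log (by positivity)
    have : h * (2 * (η * L)) = 2 * η * (Real.pi * X) := by rw [← hhL]; ring
    rw [this]
    have k : 2 * η * (Real.pi * X) ≤ 2 * (1 / 8) * (3.15 * X) := by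
      gcongr
    linarith
  have k2 : (h * Real.log N) ^ 2 ≤ 10 * (X * (Real.log N / L)) ^ 2 := by
    have e0 : h = Real.pi * X / L := by
      rw [← hhL]
      field_simp
    have e1 : h * Real.log N = Real.pi * (X * (Real.log N / L)) := by
      rw [e0]
      ring
    rw [e1, mul_pow]
    have h10 : Real.pi ^ 2 ≤ 10 := by nlinarith
    exact mul_le_mul_of_nonneg_right h10 (sq_nonneg _)
  have k3 : h ^ 2 * (Real.log N + 2 * (η * L)) ≤ 1 := by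
    have e1 : Real.log N + 2 * (η * L) ≤ 2 * L := by
      have := mul_le_mul_of_nonneg_right hη8 hL.le
      linarith
    calc h ^ 2 * (Real.log N + 2 * (η * L)) ≤ (D / L) ^ 2 * (2 * L) := by
          apply mul_le_mul (pow_le_pow_left₀ hh0.le hhD' 2) e1 (by positivity) (by positivity)
      _ = 2 * D ^ 2 / L := by field_simp
      _ ≤ 1 := by
          rw [div_le_one hL]
          exact q6
  linarith

open Classical in
/-- the last computation -/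
lemma nv_fin {Z : Finset ℂ} {J : Finset ℤ} {w : ℤ → ℝ} {μ p1 p2 Q : ℂ → ℝ} {xm xp : ℤ → ℂ → ℝ}
    {M0 Ce W Cx Cz Cp Φ Ψ V : ℝ} (hμ0 : ∀ s, 0 ≤ μ s) (hW : 0 < W) (hCx : 0 < Cx) (hCz : 0 < Cz)
    (hCp : 0 < Cp) (hV0 : 0 ≤ V) (hΨ1 : 1 ≤ Ψ) (hΦΨ : Φ ≤ 10 * Ψ)
    (hpt : ∀ s ∈ Z, Q s ≤ 5 * (M0 ^ 2 + Ce ^ 2 * (W * ∑ j ∈ J, w j * xm j s ^ 2) +
        Ce ^ 2 * (W * ∑ j ∈ J, w j * xp j s ^ 2) + p1 s ^ 2 + p2 s ^ 2))
    (hS0 : ∑ s ∈ Z, μ s ≤ Cz * V)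
    (hSm : ∑ s ∈ Z, μ s * ∑ j ∈ J, w j * xm j s ^ 2 ≤ W * (Cx * V))
    (hSp : ∑ s ∈ Z, μ s * ∑ j ∈ J, w j * xp j s ^ 2 ≤ W * (Cx * V))
    (hSp1 : ∑ s ∈ Z, μ s * p1 s ^ 2 ≤ Cp * Φ * V)
    (hSp2 : ∑ s ∈ Z, μ s * p2 s ^ 2 ≤ Cp * Φ * V) :
    ∑ s ∈ Z, μ s * Q s ≤
      5 * (M0 ^ 2 * Cz + 2 * (Ce ^ 2 * W ^ 2 * Cx) + 20 * Cp) * Ψ * V := by
  have hVΨ : V ≤ Ψ * V := le_mul_of_one_le_left hV0 hΨ1
  have hPV : Cp * Φ * V ≤ Cp * (10 * Ψ) * V := by gcongr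
  have hWV : W * (Cx * V) ≤ W * (Cx * (Ψ * V)) := by gcongr
  have hZV : Cz * V ≤ Cz * (Ψ * V) := by gcongr
  have b0 := mul_le_mul_of_nonneg_left (hS0.trans hZV) (sq_nonneg M0)
  have hCW : 0 ≤ Ce ^ 2 * W := by positivity
  have b1 := mul_le_mul_of_nonneg_left (hSm.trans hWV) hCW
  have b2 := mul_le_mul_of_nonneg_left (hSp.trans hWV) hCW
  calc ∑ s ∈ Z, μ s * Q s
      ≤ ∑ s ∈ Z, μ s * (5 * (M0 ^ 2 + Ce ^ 2 * (W * ∑ j ∈ J, w j * xm j s ^ 2) +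
        Ce ^ 2 * (W * ∑ j ∈ J, w j * xp j s ^ 2) + p1 s ^ 2 + p2 s ^ 2)) :=
        Finset.sum_le_sum fun s hs => mul_le_mul_of_nonneg_left (hpt s hs) (hμ0 s)
    _ = 5 * (M0 ^ 2 * ∑ s ∈ Z, μ s + Ce ^ 2 * W * (∑ s ∈ Z, μ s * ∑ j ∈ J, w j * xm j s ^ 2) +
        Ce ^ 2 * W * (∑ s ∈ Z, μ s * ∑ j ∈ J, w j * xp j s ^ 2) +
        ∑ s ∈ Z, μ s * p1 s ^ 2 + ∑ s ∈ Z, μ s * p2 s ^ 2) := by
        rw [Finset.mul_sum Z _ (M0 ^ 2), Finset.mul_sum Z _ (Ce ^ 2 * W),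
          Finset.mul_sum Z _ (Ce ^ 2 * W), ← Finset.sum_add_distrib, ← Finset.sum_add_distrib,
          ← Finset.sum_add_distrib, ← Finset.sum_add_distrib, Finset.mul_sum]
        refine Finset.sum_congr rfl fun s _ => ?_
        ring
    _ ≤ 5 * (M0 ^ 2 * (Cz * (Ψ * V)) + Ce ^ 2 * W * (W * (Cx * (Ψ * V))) +
        Ce ^ 2 * W * (W * (Cx * (Ψ * V))) +
        Cp * (10 * Ψ) * V + Cp * (10 * Ψ) * V) := by
        linarith [hSp1.trans hPV, hSp2.trans hPV]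
    _ = 5 * (M0 ^ 2 * Cz + 2 * (Ce ^ 2 * W ^ 2 * Cx) + 20 * Cp) * Ψ * V := by ring

end Pool.Agent.N802.NV
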