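import Pool.Agent.N802.NV.Stm
import Pool.Agent.N802.U.Fm

/-!
# Short prime polynomials at the zeros
-/

open Complex Filter Topology Set MeasureTheory
open scoped BigOperators ComplexConjugate

set_option autoImplicit false

namespace Pool.Agent.N802.NV

open H370 hiding pt
open TC Pool.Agent.N802.U Pool.Agent.N802.WD
open WD.Msd (RP_mul cv)

/-- **the mean square of a short prime polynomial at the zeros** -/
theorem pz {F : ℂ → ℂ} (hwdz : S_wdz3 F) (hcn : S_cn) {β C0 : ℝ} (hβ0 : 0 < β) (hβ1 : β < 1 / 2)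
    (hC0 : 0 < C0) : ∃ C T0 : ℝ, 0 < C ∧ 10 ≤ T0 ∧ ∀ T : ℝ, T0 ≤ T → ∀ N K : ℝ, 1 ≤ N →
    N * T ^ (1 / 2 + β) ≤ K → K ≤ T / 2 → ∀ S : Finset ℕ, Len S N → ∀ (r : ℕ → ℂ) (h Y : ℝ),
    0 < h → h ≤ 1 → 1 ≤ Y → Y ≤ T ^ (β / 2) → ∀ a c : ℕ → ℂ,
    (∀ n, ‖a n‖ ≤ ArithmeticFunction.vonMangoldt n) →
    (∀ n : ℕ, ‖c n‖ ≤ h ∧ Real.log n * ‖c n‖ ≤ C0) →
    (∑ s ∈ Zf F T (T + K), (mult F s : ℝ) * (‖RP S r s.im‖ ^ 2 *
      ‖RP (Finset.Icc 1 ⌊Y⌋₊) (fun n => a n * (Real.sqrt n : ℂ)⁻¹ * c n) s.im‖ ^ 2)) ≤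
    C * (1 + Real.log (1 + h * Real.log Y) + (h * Real.log N) ^ 2 +
      h ^ 2 * (Real.log N + Real.log Y)) * (K * Real.log T * w1 S r) := by
  classical
  obtain ⟨C1, T1, hC1, hT1, H1⟩ := hwdz (β / 2) β (by positivity) (by linarith) hβ0
  obtain ⟨C2, hC2, H2⟩ := hcn C0 hC0
  refine ⟨C1 * C2, T1, by positivity, hT1, ?_⟩
  intro T hT N K hN hK1 hK2 S hS r h Y hh hh1 hY hYT a c ha hc
  have hT10 : 10 ≤ T := hT1.trans hT
  have hTpos : 0 < T := by linarith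
  set P := Finset.Icc 1 ⌊Y⌋₊ with hP
  set p : ℕ → ℂ := fun n => a n * (Real.sqrt n : ℂ)⁻¹ * c n with hp
  set Q := (P ×ˢ S).image (fun z => z.1 * z.2) with hQ
  have hPpos : ∀ k ∈ P, 0 < k := fun k hk => (Finset.mem_Icc.1 hk).1
  have hSpos : ∀ k ∈ S, 0 < k := fun k hk => (hS k hk).1
  have hQmem : ∀ m ∈ P, ∀ n ∈ S, m * n ∈ Q := fun m hm n hn =>
    Finset.mem_image.2 ⟨(m, n), Finset.mem_product.2 ⟨hm, hn⟩, rfl⟩
  have hmul := RP_mul P S p r hPpos hSpos Q hQmem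
  have hQlen : Len Q (Y * N) := by
    intro k hk
    obtain ⟨z, hz, rfl⟩ := Finset.mem_image.1 hk
    obtain ⟨h1, h2⟩ := Finset.mem_product.1 hz
    have h3 := hPpos _ h1
    have h4 := hSpos _ h2
    refine ⟨Nat.mul_pos h3 h4, ?_⟩
    push_cast
    have h5 : (z.1 : ℝ) ≤ Y := (Nat.cast_le.2 (Finset.mem_Icc.1 h1).2).trans
      (Nat.floor_le (by linarith))
    exact mul_le_mul h5 (hS _ h2).2 (Nat.cast_nonneg _) (by linarith)
  have hYN : 1 ≤ Y * N := one_le_mul_of_one_le_of_one_le hY hN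
  have hlen : Y * N * T ^ (1 / 2 + β / 2) ≤ K := by
    refine le_trans ?_ hK1
    calc Y * N * T ^ (1 / 2 + β / 2) ≤ T ^ (β / 2) * N * T ^ (1 / 2 + β / 2) := by
          gcongr
      _ = N * (T ^ (β / 2) * T ^ (1 / 2 + β / 2)) := by ring
      _ = N * T ^ (1 / 2 + β) := by
          rw [← Real.rpow_add hTpos]
          congr 2
          ring
  have h1 := H1 T hT (Y * N) K hYN hlen hK2 Q hQlen (cv P S p r) 0 le_rfl
  have h2 := H2 h N Y hh hh1 hN hY a c ha hc S hS r Q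
  have hw : w1 Q (cv P S p r) ≤ C2 * (1 + Real.log (1 + h * Real.log Y) + (h * Real.log N) ^ 2 +
      h ^ 2 * (Real.log N + Real.log Y)) * w1 S r := h2
  have hK0 : 0 ≤ K := le_trans (by positivity) hK1
  have hL : 0 ≤ Real.log T := Real.log_nonneg (by linarith)
  have e1 : ∑ s ∈ Zf F T (T + K), (mult F s : ℝ) * (‖RP S r s.im‖ ^ 2 *
      ‖RP P p s.im‖ ^ 2) = ∑ s ∈ (Zf F T (T + K)).filter (fun s => 0 ≤ |(zz s).im| * Real.log T),
        (mult F s : ℝ) * ‖RP Q (cv P S p r) s.im‖ ^ 2 := by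
    rw [Finset.filter_true_of_mem (fun s _ => mul_nonneg (abs_nonneg _) hL)]
    refine Finset.sum_congr rfl fun s _ => ?_
    rw [← hmul, norm_mul]
    ring
  rw [e1]
  refine h1.trans ?_
  rw [mul_zero, neg_zero, Real.exp_zero, mul_one]
  calc C1 * (K * Real.log T * w1 Q (cv P S p r)) ≤ C1 * (K * Real.log T *
        (C2 * (1 + Real.log (1 + h * Real.log Y) + (h * Real.log N) ^ 2 +
      h ^ 2 * (Real.log N + Real.log Y)) * w1 S r)) := by gcongr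
    _ = _ := by ring

end Pool.Agent.N802.NV
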