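import Pool.Agent.N802.NV.Xw
import Pool.Agent.N802.NV.Pz
import Pool.Agent.N802.U.Ef

/-!
# Pointwise bounds
-/

open Complex Filter Topology Set MeasureTheory
open scoped BigOperators ComplexConjugate

set_option autoImplicit false

namespace Pool.Agent.N802.NV

open H370 hiding pt
open TC Pool.Agent.N802.U Pool.Agent.N802.WD
open U.FMaux (ca cb PD_eq)

lemma na_congr {F : ℂ → ℂ} (hF : GoodL F) {V1 V2 U1 U2 h x : ℝ} (hV : 1 ≤ V1) (hU : 1 ≤ U1)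
    (h1 : V1 < x - h) (h2 : x + h ≤ V2) (h3 : U1 < x - h) (h4 : x + h ≤ U2) :
    na F V1 V2 h x = na F U1 U2 h x := by
  classical
  unfold na
  refine Finset.sum_congr ?_ fun _ _ => rfl
  ext s
  rw [Finset.mem_filter, Finset.mem_filter, mem_Zf hF hV, mem_Zf hF hU]
  constructor
  · rintro ⟨⟨a, b, _, _, e⟩, d⟩
    have d' := abs_le.1 d
    exact ⟨⟨a, b, by linarith [d'.1], by linarith [d'.2], e⟩, d⟩
  · rintro ⟨⟨a, b, _, _, e⟩, d⟩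
    have d' := abs_le.1 d
    exact ⟨⟨a, b, by linarith [d'.1], by linarith [d'.2], e⟩, d⟩

/-- truncation of a polynomial -/
lemma RP_trunc {p : ℕ → ℂ} {Y X : ℕ} (hYX : Y ≤ X) {M : ℝ}
    (hM : ∑ n ∈ Finset.Icc 1 X \ Finset.Icc 1 Y, ‖p n‖ ≤ M) (x : ℝ) :
    ‖RP (Finset.Icc 1 X) p x - RP (Finset.Icc 1 Y) p x‖ ≤ M := by
  have hsub : Finset.Icc 1 Y ⊆ Finset.Icc 1 X := Finset.Icc_subset_Icc_right hYX
  have e : RP (Finset.Icc 1 X) p x - RP (Finset.Icc 1 Y) p x =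
      ∑ n ∈ Finset.Icc 1 X \ Finset.Icc 1 Y, p n * mn n 1 x := by
    unfold RP TP
    rw [← Finset.sum_sdiff hsub]
    ring
  rw [e]
  refine (norm_sum_le _ _).trans ((Finset.sum_le_sum fun n _ => ?_).trans hM)
  rw [norm_mul, mn_norm, mul_one]

/-- the tail of the prime sums -/
lemma tail_le {a : ℕ → ℂ} (ha : ∀ n, ‖a n‖ ≤ ArithmeticFunction.vonMangoldt n) {c : ℕ → ℂ}
    {C b : ℝ} (hC : 0 ≤ C) (hb : 12 ≤ b) {X : ℕ} (hc : ∀ n : ℕ, 2 * b ≤ Real.log n →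
      ‖c n‖ ≤ C * (b * Real.exp (-(Real.log n) ^ 2 / 8))) :
    ∑ n ∈ Finset.Icc 1 X \ Finset.Icc 1 ⌊Real.exp (2 * b)⌋₊,
      ‖a n * (Real.sqrt n : ℂ)⁻¹ * c n‖ ≤ 2 * C * Efaux.S2 := by
  have hterm : ∀ n ∈ Finset.Icc 1 X \ Finset.Icc 1 ⌊Real.exp (2 * b)⌋₊,
      ‖a n * (Real.sqrt n : ℂ)⁻¹ * c n‖ ≤ 2 * C * (1 / (n : ℝ) ^ 2) := by
    intro n hn
    rw [Finset.mem_sdiff, Finset.mem_Icc, Finset.mem_Icc] at hn
    obtain ⟨⟨h1, h2⟩, h3⟩ := hn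
    have h4 : ⌊Real.exp (2 * b)⌋₊ < n := by
      by_contra hcon
      push Not at hcon
      exact h3 ⟨h1, hcon⟩
    have hn0 : (0 : ℝ) < n := by exact_mod_cast h1
    have hn1 : (1 : ℝ) ≤ n := by exact_mod_cast h1
    have h5 : Real.exp (2 * b) < n := (Nat.floor_lt (Real.exp_pos _).le).1 h4
    have h6 : 2 * b ≤ Real.log n := by
      rw [Real.le_log_iff_exp_le hn0]
      exact h5.le
    have h7 := hc n h6
    have h8 : ‖a n‖ ≤ Real.log n := (ha n).trans ArithmeticFunction.vonMangoldt_le_log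
    have hs0 : 0 < Real.sqrt n := Real.sqrt_pos.2 hn0
    have h9 : Real.log n ≤ 2 * Real.sqrt n := by
      have k1 : Real.log n = 2 * Real.log (Real.sqrt n) := by
        rw [Real.log_sqrt hn0.le]
        ring
      have k2 := Real.log_le_sub_one_of_pos hs0
      linarith
    have h10 : b ≤ n := by
      have := Real.add_one_le_exp (2 * b)
      linarith
    have h11 : Real.exp (-(Real.log n) ^ 2 / 8) ≤ 1 / (n : ℝ) ^ 3 := by
      have k1 : Real.exp (-(Real.log n) ^ 2 / 8) ≤ Real.exp (-(3 * Real.log n)) := by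
        apply Real.exp_le_exp.2
        nlinarith
      have k2 : Real.exp (-(3 * Real.log n)) = 1 / (n : ℝ) ^ 3 := by
        rw [Real.exp_neg, show 3 * Real.log n = ((3 : ℕ) : ℝ) * Real.log n by norm_num,
          Real.exp_nat_mul, Real.exp_log hn0, one_div]
      rw [← k2]
      exact k1
    rw [norm_mul, norm_mul, norm_inv, Complex.norm_real, Real.norm_of_nonneg hs0.le]
    have h12 : ‖a n‖ * (Real.sqrt n)⁻¹ ≤ 2 := by
      rw [← div_eq_mul_inv, div_le_iff₀ hs0]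
      linarith
    calc ‖a n‖ * (Real.sqrt n)⁻¹ * ‖c n‖ ≤ 2 * (C * (b * Real.exp (-(Real.log n) ^ 2 / 8))) :=
          mul_le_mul h12 h7 (norm_nonneg _) (by norm_num)
      _ ≤ 2 * (C * (n * (1 / (n : ℝ) ^ 3))) := by
          gcongr
      _ = 2 * C * (1 / (n : ℝ) ^ 2) := by
          field_simp
  refine (Finset.sum_le_sum hterm).trans ?_
  rw [← Finset.mul_sum]
  apply mul_le_mul_of_nonneg_left _ (by positivity)
  exact sum_inv_sq.sum_le_tsum _ fun n _ => by positivity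

/-- the pointwise bound -/
lemma point_bound {F : ℂ → ℂ} {G : ℂ → ℂ} {g : ℝ → ℂ} {a : ℕ → ℂ} {Xn Yn : ℕ}
    {L1 h Xw x U1 U2 E Ef M1 M2 : ℝ}
    (h2 : ‖((na F U1 U2 h x : ℝ) : ℂ) - SS F U1 U2 G 0 x‖ ≤ E)
    (h3 : ‖SS F U1 U2 G 0 x - cexp (I * (0 : ℝ) * x) * PD a Xn g L1 0 x‖ ≤ Ef)
    (h4 : ‖(L1 : ℂ) * gs g 0 - (Xw : ℂ)‖ ≤ M1) (h5 : Yn ≤ Xn)
    (h6 : ∑ n ∈ Finset.Icc 1 Xn \ Finset.Icc 1 Yn, ‖ca a g n‖ ≤ M2)
    (h7 : ∑ n ∈ Finset.Icc 1 Xn \ Finset.Icc 1 Yn, ‖cb a g n‖ ≤ M2) :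
    |na F U1 U2 h x - Xw| ≤ E + Ef + M1 + 2 * M2 + ‖RP (Finset.Icc 1 Yn) (ca a g) x‖ +
      ‖RP (Finset.Icc 1 Yn) (cb a g) x‖ := by
  have t1 := RP_trunc h5 h6 x
  have t2 := RP_trunc h5 h7 x
  have e0 : cexp (I * (0 : ℝ) * x) = 1 := by simp
  rw [e0, one_mul, PD_eq] at h3
  set A := RP (Finset.Icc 1 Xn) (ca a g) x
  set B := RP (Finset.Icc 1 Xn) (cb a g) x
  set A' := RP (Finset.Icc 1 Yn) (ca a g) x
  set B' := RP (Finset.Icc 1 Yn) (cb a g) x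
  have t2' : ‖conj B - conj B'‖ ≤ M2 := by
    rw [← map_sub, RCLike.norm_conj]
    exact t2
  have e1 : (((na F U1 U2 h x - Xw : ℝ)) : ℂ) =
      (((na F U1 U2 h x : ℝ) : ℂ) - SS F U1 U2 G 0 x) +
      (SS F U1 U2 G 0 x - ((L1 : ℂ) * gs g 0 - A - conj B)) + ((L1 : ℂ) * gs g 0 - (Xw : ℂ)) -
      (A - A') - A' - (conj B - conj B') - conj B' := by
    push_cast
    ring
  have e2 : |na F U1 U2 h x - Xw| = ‖(((na F U1 U2 h x - Xw : ℝ)) : ℂ)‖ := by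
    rw [Complex.norm_real, Real.norm_eq_abs]
  rw [e2, e1]
  have n1 := norm_sub_le ((((na F U1 U2 h x : ℝ) : ℂ) - SS F U1 U2 G 0 x) +
      (SS F U1 U2 G 0 x - ((L1 : ℂ) * gs g 0 - A - conj B)) + ((L1 : ℂ) * gs g 0 - (Xw : ℂ)) -
      (A - A') - A' - (conj B - conj B')) (conj B')
  have n2 := norm_sub_le ((((na F U1 U2 h x : ℝ) : ℂ) - SS F U1 U2 G 0 x) +
      (SS F U1 U2 G 0 x - ((L1 : ℂ) * gs g 0 - A - conj B)) + ((L1 : ℂ) * gs g 0 - (Xw : ℂ)) -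
      (A - A') - A') (conj B - conj B')
  have n3 := norm_sub_le ((((na F U1 U2 h x : ℝ) : ℂ) - SS F U1 U2 G 0 x) +
      (SS F U1 U2 G 0 x - ((L1 : ℂ) * gs g 0 - A - conj B)) + ((L1 : ℂ) * gs g 0 - (Xw : ℂ)) -
      (A - A')) A'
  have n4 := norm_sub_le ((((na F U1 U2 h x : ℝ) : ℂ) - SS F U1 U2 G 0 x) +
      (SS F U1 U2 G 0 x - ((L1 : ℂ) * gs g 0 - A - conj B)) + ((L1 : ℂ) * gs g 0 - (Xw : ℂ)))
      (A - A')
  have n5 := norm_add_le ((((na F U1 U2 h x : ℝ) : ℂ) - SS F U1 U2 G 0 x) +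
      (SS F U1 U2 G 0 x - ((L1 : ℂ) * gs g 0 - A - conj B))) ((L1 : ℂ) * gs g 0 - (Xw : ℂ))
  have n6 := norm_add_le (((na F U1 U2 h x : ℝ) : ℂ) - SS F U1 U2 G 0 x)
      (SS F U1 U2 G 0 x - ((L1 : ℂ) * gs g 0 - A - conj B))
  have n7 : ‖conj B'‖ = ‖B'‖ := RCLike.norm_conj _
  linarith

/-- the shift of a polynomial -/
lemma RP_shift (S : Finset ℕ) (p : ℕ → ℂ) (x c : ℝ) :
    RP S p (x + c) = RP S (fun n => p n * mn n 1 c) x := by
  unfold RP TP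
  refine Finset.sum_congr rfl fun n _ => ?_
  have : mn n 1 (x + c) = mn n 1 c * mn n 1 x := by
    unfold mn
    rw [← Complex.exp_add]
    congr 1
    push_cast
    ring
  rw [this]
  ring

/-- the weights of the cells are summable -/
lemma wj_sum {η : ℝ} (hη : 0 < η) : ∃ W : ℝ, 0 < W ∧ ∀ J : ℕ,
    ∑ j ∈ Finset.Icc (-(J : ℤ)) J, wj η j ≤ W := by
  have h1 : Summable (fun j : ℤ => 1 / (j : ℝ) ^ 2) := Real.summable_one_div_int_pow.2 (by norm_num)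
  have h2 : Summable (fun j : ℤ => if j = 0 then (1 : ℝ) else 0) := by
    apply summable_of_ne_finset_zero (s := {0})
    intro j hj
    rw [Finset.mem_singleton] at hj
    rw [if_neg hj]
  have h3 : Summable (fun j : ℤ => (if j = 0 then (1 : ℝ) else 0) + 1 / η ^ 2 *
      (1 / (j : ℝ) ^ 2)) := h2.add (h1.mul_left _)
  have hle : ∀ j : ℤ, wj η j ≤ (if j = 0 then (1 : ℝ) else 0) + 1 / η ^ 2 * (1 / (j : ℝ) ^ 2) := by
    intro j
    unfold wj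
    by_cases hj : j = 0
    · rw [if_pos hj, hj]
      simp
    · rw [if_neg hj, zero_add]
      have hj1 : (1 : ℝ) ≤ |(j : ℝ)| := by
        have : (1 : ℤ) ≤ |j| := Int.one_le_abs hj
        exact_mod_cast this
      have hm : |(j : ℝ)| ≤ max 0 (2 * |(j : ℝ)| - 1) := (by linarith : |(j : ℝ)| ≤
        2 * |(j : ℝ)| - 1).trans (le_max_right _ _)
      set y := η * max 0 (2 * |(j : ℝ)| - 1) with hy
      have hy0 : η * |(j : ℝ)| ≤ y := mul_le_mul_of_nonneg_left hm hη.le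
      have hp : 0 < η * |(j : ℝ)| := by positivity
      have h4 : (η * |(j : ℝ)|) ^ 2 ≤ (1 + y) ^ 3 := by
        have h5 : (η * |(j : ℝ)|) ^ 2 ≤ y ^ 2 := pow_le_pow_left₀ hp.le hy0 2
        nlinarith [sq_nonneg y, mul_nonneg (hp.le.trans hy0) (sq_nonneg y)]
      have h6 : 1 / η ^ 2 * (1 / (j : ℝ) ^ 2) = ((η * |(j : ℝ)|) ^ 2)⁻¹ := by
        rw [mul_pow, sq_abs, mul_inv, one_div, one_div]
      rw [h6]
      exact inv_anti₀ (by positivity) h4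
  have hpos : ∀ j : ℤ, 0 ≤ (if j = 0 then (1 : ℝ) else 0) + 1 / η ^ 2 * (1 / (j : ℝ) ^ 2) := by
    intro j
    split_ifs <;> positivity
  refine ⟨(∑' j : ℤ, ((if j = 0 then (1 : ℝ) else 0) + 1 / η ^ 2 * (1 / (j : ℝ) ^ 2))) + 1, ?_,
    fun J => ?_⟩
  · have h9 : 0 ≤ ∑' j : ℤ, ((if j = 0 then (1 : ℝ) else 0) + 1 / η ^ 2 * (1 / (j : ℝ) ^ 2)) :=
      tsum_nonneg hpos
    linarith
  · refine (Finset.sum_le_sum fun j _ => hle j).trans ?_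
    have := h3.sum_le_tsum (Finset.Icc (-(J : ℤ)) J) fun j _ => hpos j
    linarith

lemma wj_nonneg {η : ℝ} (hη : 0 < η) (j : ℤ) : 0 ≤ wj η j := by
  unfold wj
  positivity

/-- Cauchy-Schwarz over the cells -/
lemma cells_sq {ι : Type*} (J : Finset ι) (w X : ι → ℝ) (hw : ∀ j ∈ J, 0 ≤ w j) :
    (∑ j ∈ J, w j * X j) ^ 2 ≤ (∑ j ∈ J, w j) * ∑ j ∈ J, w j * X j ^ 2 := by
  have h := Finset.sum_mul_sq_le_sq_mul_sq J (fun j => Real.sqrt (w j))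
    (fun j => Real.sqrt (w j) * X j)
  have e1 : ∑ j ∈ J, Real.sqrt (w j) * (Real.sqrt (w j) * X j) = ∑ j ∈ J, w j * X j :=
    Finset.sum_congr rfl fun j hj => by rw [← mul_assoc, Real.mul_self_sqrt (hw j hj)]
  have e2 : ∑ j ∈ J, Real.sqrt (w j) ^ 2 = ∑ j ∈ J, w j :=
    Finset.sum_congr rfl fun j hj => Real.sq_sqrt (hw j hj)
  have e3 : ∑ j ∈ J, (Real.sqrt (w j) * X j) ^ 2 = ∑ j ∈ J, w j * X j ^ 2 :=
    Finset.sum_congr rfl fun j hj => by rw [mul_pow, Real.sq_sqrt (hw j hj)]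
  rw [e1, e2, e3] at h
  exact h

end Pool.Agent.N802.NV
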