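import Pool.Agent.N802.WD.Ecz

/-!
# The number variance of the zeros in every weight: statements
-/

open Complex Filter Topology Set MeasureTheory
open scoped BigOperators ComplexConjugate

set_option autoImplicit false

namespace Pool.Agent.N802.NV

open H370 hiding pt
open TC Pool.Agent.N802.U Pool.Agent.N802.WD

/-- **NV1**: a window -/
def S_nwin : Prop := ∃ C : ℝ, 1 ≤ C ∧ ∀ b h : ℝ, 0 < b → 0 < h → ∃ (G : ℂ → ℂ) (g : ℝ → ℂ),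
  BW b G g ∧ (∀ v : ℝ, ‖g v‖ ≤ h ∧ |v| * ‖g v‖ ≤ 1) ∧
  ∀ z : ℂ, ‖G z - (if |z.re| ≤ h then 1 else 0)‖ ≤
    C * Real.exp (b * |z.im|) * ((1 + b * |(|z.re| - h)|) ^ 3)⁻¹

/-- **NV2**: its Gaussian smoothing -/
def S_ngs : Prop := ∃ C : ℝ, 1 ≤ C ∧ ∀ (b h C1 : ℝ) (G : ℂ → ℂ) (g : ℝ → ℂ), 1 ≤ b → 0 < h →
  h ≤ 1 → 1 ≤ C1 → BW b G g → (∀ v : ℝ, ‖g v‖ ≤ h ∧ |v| * ‖g v‖ ≤ 1) →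
  (∀ x : ℝ, ‖G x - (if |x| ≤ h then 1 else 0)‖ ≤ C1 * ((1 + b * |(|x| - h)|) ^ 3)⁻¹) →
  q2 g ≤ C ∧ (∀ x : ℝ, ‖gs g x‖ ≤ h ∧ |x| * ‖gs g x‖ ≤ C) ∧
  (∀ x : ℝ, 2 * b ≤ |x| → ‖gs g x‖ ≤ C * (b * Real.exp (-x ^ 2 / 8))) ∧
  ‖gs g 0 - ((h / Real.pi : ℝ) : ℂ)‖ ≤ C * (C1 / b + h ^ 3)

open Classical in
/-- the zeros near `x`, weighted by their distance from the line -/
noncomputable def XA (F : ℂ → ℂ) (U1 U2 κ L x : ℝ) : ℝ :=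
  ∑ s ∈ (Zf F U1 U2).filter (fun s => |s.im - x| ≤ 1 / L),
    (mult F s : ℝ) * Real.exp (κ * (|(zz s).im| * L))

/-- **NV3**: its third moment in windows -/
def S_xw (F : ℂ → ℂ) : Prop := ∀ β : ℝ, 0 < β → β < 1 / 2 → ∃ κ C T0 : ℝ, 0 < κ ∧ κ ≤ 1 ∧ 0 < C ∧
  10 ≤ T0 ∧ ∀ T : ℝ, T0 ≤ T → ∀ N H : ℝ, 1 ≤ N → N ≤ T → N * T ^ (1 / 2 + β) ≤ H →
  ∀ S : Finset ℕ, Len S N → ∀ (r : ℕ → ℂ) (τ U1 U2 x : ℝ), 1 ≤ U1 → |x| ≤ T / 5 →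
  ∫ t in T..(2 * T), rh τ H S r t * XA F U1 U2 κ (Real.log T) (t + x) ^ 3 ≤ C * mr H S r

/-- **NV4**: its second moment at the zeros -/
def S_xz (F : ℂ → ℂ) : Prop := ∀ β : ℝ, 0 < β → β < 1 / 2 → ∃ κ C T0 : ℝ, 0 < κ ∧ κ ≤ 1 ∧ 0 < C ∧
  10 ≤ T0 ∧ ∀ T : ℝ, T0 ≤ T → ∀ N K : ℝ, 1 ≤ N → N * T ^ (1 / 2 + β) ≤ K → K ≤ T / 2 →
  ∀ S : Finset ℕ, Len S N → ∀ (r : ℕ → ℂ) (U1 U2 x : ℝ), 1 ≤ U1 → |x| ≤ T / 10 →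
  (∑ s ∈ Zf F T (T + K), (mult F s : ℝ) * XA F U1 U2 κ (Real.log T) (s.im + x) ^ 2 *
    ‖RP S r s.im‖ ^ 2) ≤ C * (K * Real.log T * w1 S r)

/-- **NV5**: the norm of a short prime polynomial as a multiplier -/
def S_cn : Prop := ∀ C0 : ℝ, 0 < C0 → ∃ C : ℝ, 0 < C ∧ ∀ h N Y : ℝ, 0 < h → h ≤ 1 → 1 ≤ N →
  1 ≤ Y → ∀ a c : ℕ → ℂ, (∀ n, ‖a n‖ ≤ ArithmeticFunction.vonMangoldt n) →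
  (∀ n : ℕ, ‖c n‖ ≤ h ∧ Real.log n * ‖c n‖ ≤ C0) → ∀ S : Finset ℕ, Len S N →
  ∀ (r : ℕ → ℂ) (Q : Finset ℕ),
  ∑ k ∈ Q, ‖∑ z ∈ ((Finset.Icc 1 ⌊Y⌋₊) ×ˢ S).filter (fun z => z.1 * z.2 = k),
    (a z.1 * (Real.sqrt z.1 : ℂ)⁻¹ * c z.1) * r z.2‖ ^ 2 ≤
    C * (1 + Real.log (1 + h * Real.log Y) + (h * Real.log N) ^ 2 +
      h ^ 2 * (Real.log N + Real.log Y)) * w1 S r

/-- the weights of the cells -/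
noncomputable def wj (η : ℝ) (j : ℤ) : ℝ := ((1 + η * max 0 (2 * |(j : ℝ)| - 1)) ^ 3)⁻¹

/-- **NV6**: the number of zeros and the explicit formula -/
def S_er : Prop := ∀ {F : ℂ → ℂ}, GoodL F → ∀ C1 : ℝ, 1 ≤ C1 → ∃ C : ℝ, 0 < C ∧
  ∀ (η κ L h U1 U2 x : ℝ) (G : ℂ → ℂ), 0 < η → η ≤ κ / 2 → κ ≤ 1 → 3 ≤ L → 0 < h → h ≤ 1 →
  1 ≤ U1 →
  (∀ z : ℂ, ‖G z - (if |z.re| ≤ h then 1 else 0)‖ ≤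
    C1 * Real.exp (η * L * |z.im|) * ((1 + η * L * |(|z.re| - h)|) ^ 3)⁻¹) →
  (1 + η * L * h) ^ 3 * (h ^ 2 + 8 / (κ * L) ^ 2) ≤ 1 →
  (∑ s ∈ Zf F U1 U2, (mult F s : ℝ)) * Real.exp (L / 2 - L ^ 2 / 2) ≤ 1 →
  ‖((na F U1 U2 h x : ℝ) : ℂ) - SS F U1 U2 G 0 x‖ ≤
    C * (1 + ∑ j ∈ Finset.Icc (-(⌈L ^ 2⌉₊ : ℤ)) ⌈L ^ 2⌉₊, wj η j *
      (XA F U1 U2 κ L (x - h + 2 * j / L) + XA F U1 U2 κ L (x + h + 2 * j / L)))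

/-- **NV7**: the number variance at the zeros -/
def S_nv (F : ℂ → ℂ) : Prop := ∀ β : ℝ, 0 < β → β < 1 / 2 → ∃ C : ℝ, 0 < C ∧ ∀ B : ℝ, 0 < B →
  ∃ T0 : ℝ, 10 ≤ T0 ∧ ∀ T : ℝ, T0 ≤ T → ∀ N K : ℝ, 1 ≤ N → N * T ^ (1 / 2 + β) ≤ K → K ≤ T / 2 →
  ∀ S : Finset ℕ, Len S N → ∀ (r : ℕ → ℂ) (u v : ℝ), -B ≤ u → u < v → v ≤ B →
  (∑ s ∈ Zf F T (T + K), (mult F s : ℝ) * ‖RP S r s.im‖ ^ 2 *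
    (na F (T - 1) (T + K + 1) (Real.pi * (v - u) / Real.log T)
      (s.im + Real.pi * (u + v) / Real.log T) - (v - u)) ^ 2) ≤
    C * (1 + Real.log (1 + (v - u)) + ((v - u) * (Real.log N / Real.log T)) ^ 2) *
      (K * Real.log T * w1 S r)

end Pool.Agent.N802.NV
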