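import Pool.Agent.N802.NV.Stm

/-!
# The third moment of the number of zeros near a point, in the weight of a Dirichlet polynomial
-/

open Complex Filter Topology Set MeasureTheory
open scoped BigOperators ComplexConjugate

set_option autoImplicit false

namespace Pool.Agent.N802.NV

open H370 hiding pt
open TC Pool.Agent.N802.U Pool.Agent.N802.WD
open JX (gg gg_mono gg_nonneg)
open Asm (rh_cont' rh_nonneg' cnt_int)

lemma XA_nonneg (F : ℂ → ℂ) (U1 U2 κ L x : ℝ) : 0 ≤ XA F U1 U2 κ L x :=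
  Finset.sum_nonneg fun _ _ => mul_nonneg (Nat.cast_nonneg _) (Real.exp_pos _).le

lemma XA_meas (F : ℂ → ℂ) (U1 U2 κ L x : ℝ) : Measurable fun t : ℝ => XA F U1 U2 κ L (t + x) := by
  classical
  have e : ∀ t : ℝ, XA F U1 U2 κ L (t + x) =
      ∑ s ∈ Zf F U1 U2, if |s.im - (t + x)| ≤ 1 / L then
        (mult F s : ℝ) * Real.exp (κ * (|(zz s).im| * L)) else 0 := by
    intro t
    unfold XA
    rw [Finset.sum_filter]
  simp_rw [e]
  refine Finset.measurable_fun_sum _ fun s _ => ?_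
  apply Measurable.ite _ measurable_const measurable_const
  have hc : Continuous (fun t : ℝ => |s.im - (t + x)|) := by fun_prop
  exact (isClosed_le hc continuous_const).measurableSet

lemma XA_le (F : ℂ → ℂ) (U1 U2 κ L x : ℝ) : XA F U1 U2 κ L x ≤
    ∑ s ∈ Zf F U1 U2, (mult F s : ℝ) * Real.exp (κ * (|(zz s).im| * L)) := by
  classical
  unfold XA
  exact Finset.sum_le_sum_of_subset_of_nonneg (Finset.filter_subset _ _)
    fun _ _ _ => mul_nonneg (Nat.cast_nonneg _) (Real.exp_pos _).le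

lemma XA_int {w : ℝ → ℝ} (hw : Continuous w) (F : ℂ → ℂ) (U1 U2 κ L x : ℝ) (k : ℕ) (a b : ℝ) :
    IntervalIntegrable (fun t => w t * XA F U1 U2 κ L (t + x) ^ k) volume a b := by
  classical
  have h2 : IntervalIntegrable (fun t => |w t| * (∑ s ∈ Zf F U1 U2, (mult F s : ℝ) *
      Real.exp (κ * (|(zz s).im| * L))) ^ k) volume a b :=
    (hw.abs.mul continuous_const).intervalIntegrable _ _
  apply h2.mono_fun'
  · apply AEStronglyMeasurable.restrict
    apply Measurable.aestronglyMeasurable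
    exact hw.measurable.mul ((XA_meas F U1 U2 κ L x).pow_const k)
  · refine Eventually.of_forall fun t => ?_
    simp only
    rw [Real.norm_eq_abs, abs_mul, abs_of_nonneg (pow_nonneg (XA_nonneg F U1 U2 κ L (t + x)) k)]
    exact mul_le_mul_of_nonneg_left (pow_le_pow_left₀ (XA_nonneg _ _ _ _ _ _)
      (XA_le _ _ _ _ _ _) k) (abs_nonneg _)

/-- the power mean inequality -/
lemma cube_sum {ι : Type*} (Z : Finset ι) (m e : ι → ℝ) (hm : ∀ s ∈ Z, 0 ≤ m s)
    (he : ∀ s ∈ Z, 0 ≤ e s) :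
    (∑ s ∈ Z, m s * e s) ^ 3 ≤ 1 / 2 * ((∑ s ∈ Z, m s) ^ 5 + ∑ s ∈ Z, m s * e s ^ 6) := by
  set n := ∑ s ∈ Z, m s with hn
  have hn0 : 0 ≤ n := Finset.sum_nonneg hm
  rcases hn0.eq_or_lt with h0 | h0
  · have hz : ∀ s ∈ Z, m s = 0 := (Finset.sum_eq_zero_iff_of_nonneg hm).1 h0.symm
    have h1 : ∑ s ∈ Z, m s * e s = 0 := Finset.sum_eq_zero fun s hs => by rw [hz s hs, zero_mul]
    have h2 : ∑ s ∈ Z, m s * e s ^ 6 = 0 :=
      Finset.sum_eq_zero fun s hs => by rw [hz s hs, zero_mul]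
    rw [h1, h2, ← h0]
    norm_num
  · have h1 := Real.pow_arith_mean_le_arith_mean_pow Z (fun s => m s / n) e
      (fun s hs => div_nonneg (hm s hs) hn0) (by rw [← Finset.sum_div]; exact div_self h0.ne')
      he 3
    have e1 : ∑ s ∈ Z, m s / n * e s = (∑ s ∈ Z, m s * e s) / n := by
      rw [Finset.sum_div]
      exact Finset.sum_congr rfl fun s _ => by ring
    have e2 : ∑ s ∈ Z, m s / n * e s ^ 3 = (∑ s ∈ Z, m s * e s ^ 3) / n := by
      rw [Finset.sum_div]
      exact Finset.sum_congr rfl fun s _ => by ring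
    rw [e1, e2, div_pow, div_le_div_iff₀ (by positivity) h0] at h1
    have h2 : (∑ s ∈ Z, m s * e s) ^ 3 ≤ n ^ 2 * ∑ s ∈ Z, m s * e s ^ 3 := by
      have h3 : (∑ s ∈ Z, m s * e s) ^ 3 * n ≤ (n ^ 2 * ∑ s ∈ Z, m s * e s ^ 3) * n := by
        refine h1.trans (le_of_eq ?_)
        ring
      exact le_of_mul_le_mul_right h3 h0
    refine h2.trans ?_
    rw [Finset.mul_sum]
    have h4 : ∑ s ∈ Z, n ^ 2 * (m s * e s ^ 3) ≤
        ∑ s ∈ Z, (1 / 2 * (m s * n ^ 4) + 1 / 2 * (m s * e s ^ 6)) := by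
      refine Finset.sum_le_sum fun s hs => ?_
      have h5 := hm s hs
      nlinarith [mul_nonneg h5 (sq_nonneg (n ^ 2 - e s ^ 3))]
    refine h4.trans (le_of_eq ?_)
    rw [Finset.sum_add_distrib, ← Finset.mul_sum, ← Finset.mul_sum, ← Finset.sum_mul, ← hn]
    ring

/-- powers by exponentials of square roots -/
lemma pow_le_gg {c : ℝ} (hc : 0 < c) : ∃ C : ℝ, 0 < C ∧ ∀ n : ℝ, 0 ≤ n →
    n ^ 5 ≤ C * gg c n ∧ n ^ 3 ≤ C * gg c n := by
  refine ⟨Nat.factorial 8 / c ^ 8 + Nat.factorial 4 / c ^ 4, by positivity, fun n hn => ?_⟩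
  have hs : Real.sqrt n ^ 2 = n := Real.sq_sqrt hn
  have h8 : Real.sqrt n ^ 8 = n ^ 4 := by
    rw [show Real.sqrt n ^ 8 = (Real.sqrt n ^ 2) ^ 4 by ring, hs]
  have h4 : Real.sqrt n ^ 4 = n ^ 2 := by
    rw [show Real.sqrt n ^ 4 = (Real.sqrt n ^ 2) ^ 2 by ring, hs]
  have a1 := Real.pow_div_factorial_le_exp (c * Real.sqrt n) (by positivity) 8
  have a2 := Real.pow_div_factorial_le_exp (c * Real.sqrt n) (by positivity) 4
  rw [mul_pow, h8, div_le_iff₀ (by positivity)] at a1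
  rw [mul_pow, h4, div_le_iff₀ (by positivity)] at a2
  unfold gg
  set E := Real.exp (c * Real.sqrt n) with hE
  have hE0 : 0 < E := Real.exp_pos _
  have b1 : n ^ 4 ≤ (Nat.factorial 8 : ℝ) / c ^ 8 * E := by
    rw [div_mul_eq_mul_div, le_div_iff₀ (by positivity)]
    linarith
  have b2 : n ^ 2 ≤ (Nat.factorial 4 : ℝ) / c ^ 4 * E := by
    rw [div_mul_eq_mul_div, le_div_iff₀ (by positivity)]
    linarith
  have b3 : 0 ≤ (Nat.factorial 8 : ℝ) / c ^ 8 * E := by positivity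
  have b4 : 0 ≤ (Nat.factorial 4 : ℝ) / c ^ 4 * E := by positivity
  constructor
  · calc n ^ 5 = n * n ^ 4 := by ring
      _ ≤ n * ((Nat.factorial 8 : ℝ) / c ^ 8 * E + (Nat.factorial 4 : ℝ) / c ^ 4 * E) :=
        mul_le_mul_of_nonneg_left (by linarith) hn
      _ = _ := by ring
  · calc n ^ 3 = n * n ^ 2 := by ring
      _ ≤ n * ((Nat.factorial 8 : ℝ) / c ^ 8 * E + (Nat.factorial 4 : ℝ) / c ^ 4 * E) :=
        mul_le_mul_of_nonneg_left (by linarith) hn
      _ = _ := by ring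

/-- the exponential over the levels -/
lemma exp_levels {a A : ℝ} (ha : 0 ≤ a) {J : ℕ} (hA0 : 0 ≤ A) (hA : A < J) :
    Real.exp (a * A) ≤ ∑ j ∈ Finset.range J, if (j : ℝ) ≤ A then Real.exp (a * (j + 1)) else 0 := by
  have hj : ⌊A⌋₊ ∈ Finset.range J := by
    rw [Finset.mem_range]
    exact (Nat.floor_lt hA0).2 hA
  have h1 : Real.exp (a * A) ≤ if ((⌊A⌋₊ : ℕ) : ℝ) ≤ A then Real.exp (a * (⌊A⌋₊ + 1)) else 0 := by
    rw [if_pos (Nat.floor_le hA0)]
    apply Real.exp_le_exp.2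
    exact mul_le_mul_of_nonneg_left (Nat.lt_floor_add_one A).le ha
  refine h1.trans ?_
  exact Finset.single_le_sum (f := fun j : ℕ => if (j : ℝ) ≤ A then Real.exp (a * (j + 1)) else 0)
    (fun j _ => by split_ifs <;> positivity) hj

/-- **NV3** -/
theorem xw {F : ℂ → ℂ} (hF : GoodL F) (hec : S_ec F) (hwd : S_wd3 F) : S_xw F := by
  classical
  intro β hβ0 hβ1
  obtain ⟨C1, T1, hC1, hT1, H1⟩ := hwd β β hβ0 hβ1 hβ0
  obtain ⟨c, C2, T2, hc, hC2, hT2, H2⟩ := hec β hβ0 hβ1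
  obtain ⟨C3, hC3, hpw⟩ := pow_le_gg hc
  obtain ⟨a, ha⟩ : ∃ a : ℝ, a = β / 2 := ⟨_, rfl⟩
  have ha0 : 0 < a := by rw [ha]; positivity
  have hq1 : Real.exp (-a) < 1 := by
    rw [Real.exp_lt_one_iff]
    linarith
  have hq0 : 0 < Real.exp (-a) := Real.exp_pos _
  obtain ⟨C4, hC4⟩ : ∃ C4 : ℝ, C4 = C1 * Real.exp a * (1 - Real.exp (-a))⁻¹ := ⟨_, rfl⟩
  have hC40 : 0 < C4 := by
    rw [hC4]
    have : 0 < 1 - Real.exp (-a) := by linarith
    positivity
  refine ⟨β / 12, 1 / 2 * (C3 * C2 + C4), max T1 T2, by positivity, by linarith, by positivity,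
    hT1.trans (le_max_left _ _), ?_⟩
  intro T hT N H hN hNT hH S hS r τ U1 U2 x hU1 hx
  have g1 : T1 ≤ T := (le_max_left _ _).trans hT
  have g2 : T2 ≤ T := (le_max_right _ _).trans hT
  set L := Real.log T with hL
  have hT10 : 10 ≤ T := hT1.trans g1
  have hL0 : 0 < L := Real.log_pos (by linarith)
  have hHp : 0 < H := lt_of_lt_of_le (by positivity) hH
  have hmr : 0 ≤ mr H S r := by
    unfold mr
    have := w1_nonneg S r
    positivity
  set J := ⌈L⌉₊ + 1 with hJ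
  -- the pointwise inequality
  have hpt : ∀ t : ℝ, XA F U1 U2 (β / 12) L (t + x) ^ 3 ≤ 1 / 2 * (C3 * gg c (na F U1 U2 (1 / L)
      (t + x)) + ∑ j ∈ Finset.range J, Real.exp (a * (j + 1)) *
        ∑ s ∈ (Zf F U1 U2).filter (fun s => (j : ℝ) ≤ |(zz s).im| * L ∧
          |s.im - (t + x)| ≤ 1 / L), (mult F s : ℝ)) := by
    intro t
    set Z := (Zf F U1 U2).filter (fun s => |s.im - (t + x)| ≤ 1 / L) with hZ
    have h1 := cube_sum Z (fun s => (mult F s : ℝ))
      (fun s => Real.exp (β / 12 * (|(zz s).im| * L))) (fun _ _ => Nat.cast_nonneg _)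
      (fun _ _ => (Real.exp_pos _).le)
    have h2 : XA F U1 U2 (β / 12) L (t + x) = ∑ s ∈ Z, (mult F s : ℝ) *
        Real.exp (β / 12 * (|(zz s).im| * L)) := rfl
    have h3 : na F U1 U2 (1 / L) (t + x) = ∑ s ∈ Z, (mult F s : ℝ) := rfl
    rw [h2]
    refine h1.trans ?_
    rw [← h3]
    have h4 := (hpw _ (na_nonneg F U1 U2 (1 / L) (t + x))).1
    have h5 : ∑ s ∈ Z, (mult F s : ℝ) * Real.exp (β / 12 * (|(zz s).im| * L)) ^ 6 ≤
        ∑ j ∈ Finset.range J, Real.exp (a * (j + 1)) *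
        ∑ s ∈ (Zf F U1 U2).filter (fun s => (j : ℝ) ≤ |(zz s).im| * L ∧
          |s.im - (t + x)| ≤ 1 / L), (mult F s : ℝ) := by
      have h6 : ∀ s ∈ Z, (mult F s : ℝ) * Real.exp (β / 12 * (|(zz s).im| * L)) ^ 6 ≤
          ∑ j ∈ Finset.range J, Real.exp (a * (j + 1)) *
            (if (j : ℝ) ≤ |(zz s).im| * L then (mult F s : ℝ) else 0) := by
        intro s hs
        rw [hZ, Finset.mem_filter] at hs
        obtain ⟨k1, k2, -, -, -⟩ := (mem_Zf hF hU1).1 hs.1
        have h7 : |(zz s).im| ≤ 1 / 2 := by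
          rw [zz_im, abs_neg, abs_le]
          constructor <;> linarith
        have h8 : |(zz s).im| * L < J := by
          have h9 : L ≤ ⌈L⌉₊ := Nat.le_ceil L
          rw [hJ]
          push_cast
          nlinarith
        have h10 := exp_levels ha0.le (mul_nonneg (abs_nonneg _) hL0.le) h8
        have h11 : Real.exp (β / 12 * (|(zz s).im| * L)) ^ 6 =
            Real.exp (a * (|(zz s).im| * L)) := by
          rw [← Real.exp_nat_mul]
          congr 1
          rw [ha]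
          push_cast
          ring
        rw [h11]
        refine (mul_le_mul_of_nonneg_left h10 (Nat.cast_nonneg _)).trans (le_of_eq ?_)
        rw [Finset.mul_sum]
        refine Finset.sum_congr rfl fun j _ => ?_
        split_ifs <;> ring
      refine (Finset.sum_le_sum h6).trans (le_of_eq ?_)
      rw [Finset.sum_comm]
      refine Finset.sum_congr rfl fun j _ => ?_
      rw [← Finset.mul_sum]
      congr 1
      rw [hZ, Finset.sum_filter, Finset.sum_filter]
      refine Finset.sum_congr rfl fun s _ => ?_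
      by_cases q1 : |s.im - (t + x)| ≤ 1 / L <;> by_cases q2 : (j : ℝ) ≤ |(zz s).im| * L
      · rw [if_pos q1, if_pos q2, if_pos ⟨q2, q1⟩]
      · rw [if_pos q1, if_neg q2, if_neg (fun h => q2 h.1)]
      · rw [if_neg q1, if_neg (fun h => q1 h.2)]
      · rw [if_neg q1, if_neg (fun h => q1 h.2)]
    linarith
  -- integrate
  have i0 := XA_int (rh_cont' τ H S r) F U1 U2 (β / 12) L x 3 T (2 * T)
  have i1 := gna_int (rh_cont' τ H S r) hc.le F U1 U2 (1 / L) x T (2 * T)
  have i2 : ∀ j : ℕ, IntervalIntegrable (fun t => rh τ H S r t *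
      ∑ s ∈ (Zf F U1 U2).filter (fun s => (j : ℝ) ≤ |(zz s).im| * L ∧
          |s.im - (t + x)| ≤ 1 / L), (mult F s : ℝ)) volume T (2 * T) := fun j =>
    cnt_int (rh_cont' τ H S r) _ (fun s => (j : ℝ) ≤ |(zz s).im| * L) (fun s => (mult F s : ℝ))
      x (1 / L) T (2 * T)
  have i3 : IntervalIntegrable (∑ j ∈ Finset.range J, fun t => Real.exp (a * (j + 1)) *
      (rh τ H S r t * ∑ s ∈ (Zf F U1 U2).filter (fun s => (j : ℝ) ≤ |(zz s).im| * L ∧
          |s.im - (t + x)| ≤ 1 / L), (mult F s : ℝ))) volume T (2 * T) :=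
    IntervalIntegrable.sum _ fun j _ => (i2 j).const_mul _
  have h1 : ∫ t in T..(2 * T), rh τ H S r t * XA F U1 U2 (β / 12) L (t + x) ^ 3 ≤
      ∫ t in T..(2 * T), (1 / 2 * C3 * (rh τ H S r t * gg c (na F U1 U2 (1 / L) (t + x))) +
        1 / 2 * (∑ j ∈ Finset.range J, fun t => Real.exp (a * (j + 1)) *
      (rh τ H S r t * ∑ s ∈ (Zf F U1 U2).filter (fun s => (j : ℝ) ≤ |(zz s).im| * L ∧
          |s.im - (t + x)| ≤ 1 / L), (mult F s : ℝ))) t) := by
    refine intervalIntegral.integral_mono_on (by linarith) i0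
      ((i1.const_mul (1 / 2 * C3)).add (i3.const_mul (1 / 2))) ?_
    intro t _
    refine (mul_le_mul_of_nonneg_left (hpt t) (rh_nonneg' τ H S r t)).trans (le_of_eq ?_)
    simp only [Finset.sum_apply]
    have e1 : ∑ j ∈ Finset.range J, Real.exp (a * (j + 1)) *
      (rh τ H S r t * ∑ s ∈ (Zf F U1 U2).filter (fun s => (j : ℝ) ≤ |(zz s).im| * L ∧
          |s.im - (t + x)| ≤ 1 / L), (mult F s : ℝ)) = rh τ H S r t *
      ∑ j ∈ Finset.range J, Real.exp (a * (j + 1)) *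
        ∑ s ∈ (Zf F U1 U2).filter (fun s => (j : ℝ) ≤ |(zz s).im| * L ∧
          |s.im - (t + x)| ≤ 1 / L), (mult F s : ℝ) := by
      rw [Finset.mul_sum]
      exact Finset.sum_congr rfl fun j _ => by ring
    rw [e1]
    ring
  refine h1.trans ?_
  rw [intervalIntegral.integral_add (i1.const_mul (1 / 2 * C3)) (i3.const_mul (1 / 2)),
    intervalIntegral.integral_const_mul, intervalIntegral.integral_const_mul]
  have h2 := H2 T g2 N H hN hNT hH S hS r τ U1 U2 x hU1 hx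
  have h3 : ∫ t in T..(2 * T), (∑ j ∈ Finset.range J, fun t => Real.exp (a * (j + 1)) *
      (rh τ H S r t * ∑ s ∈ (Zf F U1 U2).filter (fun s => (j : ℝ) ≤ |(zz s).im| * L ∧
          |s.im - (t + x)| ≤ 1 / L), (mult F s : ℝ))) t ≤ C4 * mr H S r := by
    simp only [Finset.sum_apply]
    rw [intervalIntegral.integral_finsetSum (fun j _ => (i2 j).const_mul _)]
    have h4 : ∀ j ∈ Finset.range J, ∫ t in T..(2 * T), Real.exp (a * (j + 1)) *
      (rh τ H S r t * ∑ s ∈ (Zf F U1 U2).filter (fun s => (j : ℝ) ≤ |(zz s).im| * L ∧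
          |s.im - (t + x)| ≤ 1 / L), (mult F s : ℝ)) ≤
        C1 * Real.exp a * mr H S r * Real.exp (-a) ^ j := by
      intro j _
      rw [intervalIntegral.integral_const_mul]
      have h5 := H1 T g1 N H hN hNT hH S hS r τ U1 U2 x j hU1 hx (Nat.cast_nonneg j)
      refine (mul_le_mul_of_nonneg_left h5 (Real.exp_pos _).le).trans (le_of_eq ?_)
      rw [← Real.exp_nat_mul]
      have e1 : Real.exp (a * (j + 1)) * (C1 * Real.exp (-((2 * β - β) * j)) * mr H S r) =
          C1 * (Real.exp (a * (j + 1)) * Real.exp (-((2 * β - β) * j))) * mr H S r := by ring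
      have e2 : C1 * Real.exp a * mr H S r * Real.exp (j * -a) =
          C1 * (Real.exp a * Real.exp (j * -a)) * mr H S r := by ring
      rw [e1, e2, ← Real.exp_add, ← Real.exp_add]
      congr 3
      rw [ha]
      ring
    refine (Finset.sum_le_sum h4).trans ?_
    rw [← Finset.mul_sum]
    have h6 : ∑ j ∈ Finset.range J, Real.exp (-a) ^ j ≤ (1 - Real.exp (-a))⁻¹ := by
      rw [← tsum_geometric_of_lt_one hq0.le hq1]
      exact (summable_geometric_of_lt_one hq0.le hq1).sum_le_tsum _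
        (fun _ _ => pow_nonneg hq0.le _)
    calc C1 * Real.exp a * mr H S r * ∑ j ∈ Finset.range J, Real.exp (-a) ^ j ≤
        C1 * Real.exp a * mr H S r * (1 - Real.exp (-a))⁻¹ :=
          mul_le_mul_of_nonneg_left h6 (by positivity)
      _ = C4 * mr H S r := by rw [hC4]; ring
  have h7 := mul_le_mul_of_nonneg_left h2 (show 0 ≤ 1 / 2 * C3 by positivity)
  calc _ ≤ 1 / 2 * C3 * (C2 * mr H S r) + 1 / 2 * (C4 * mr H S r) := by linarith
    _ = _ := by ring

end Pool.Agent.N802.NV
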